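import Mathlib

/-!
# Diagonalisation of quadratic forms in `gcd (d, d')`
-/

namespace Pool.Agent.PC10

open Finset ArithmeticFunction
open scoped ArithmeticFunction.Moebius ArithmeticFunction.zeta ArithmeticFunction.sigma

/-- Moebius transform of `K`. -/
noncomputable def mobT (K : ℕ → ℝ) (n : ℕ) : ℝ :=
  ∑ x ∈ n.divisorsAntidiagonal, (μ x.1 : ℝ) * K x.2

lemma sum_mobT (K : ℕ → ℝ) {n : ℕ} (hn : 0 < n) : ∑ i ∈ n.divisors, mobT K i = K n := by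
  have h := (ArithmeticFunction.sum_eq_iff_sum_mul_moebius_eq (R := ℝ)
    (f := mobT K) (g := K)).mpr (fun n _ => rfl)
  exact h n hn

lemma abs_mobT_le {K : ℕ → ℝ} {A : ℝ} {N : ℕ} (hA : 0 ≤ A)
    (hK : ∀ e, 1 ≤ e → e ≤ N → |K e| ≤ A * e) {q : ℕ} (hq : q ∈ Ioc 0 N) :
    |mobT K q| ≤ A * (σ 1 q : ℝ) := by
  simp only [mem_Ioc] at hq
  have h1 : (σ 1 q : ℝ) = ∑ x ∈ q.divisorsAntidiagonal, (x.2 : ℝ) := by
    rw [sigma_one_apply, Nat.sum_divisorsAntidiagonal' (f := fun _ b => (b : ℝ))]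
    push_cast
    rfl
  unfold mobT
  refine (Finset.abs_sum_le_sum_abs _ _).trans ?_
  rw [h1, Finset.mul_sum]
  refine Finset.sum_le_sum fun x hx => ?_
  rw [Nat.mem_divisorsAntidiagonal] at hx
  have hx2 : 1 ≤ x.2 := by
    rcases Nat.eq_zero_or_pos x.2 with h | h
    · rw [h] at hx; simp at hx; omega
    · exact h
  have hx1 : 1 ≤ x.1 := by
    rcases Nat.eq_zero_or_pos x.1 with h | h
    · rw [h] at hx; simp at hx; omega
    · exact h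
  have hx3 : x.2 ≤ N := by
    calc x.2 ≤ x.1 * x.2 := Nat.le_mul_of_pos_left _ hx1
      _ = q := hx.1
      _ ≤ N := hq.2
  rw [abs_mul]
  have hμ : |(μ x.1 : ℝ)| ≤ 1 := by exact_mod_cast abs_moebius_le_one (n := x.1)
  calc |(μ x.1 : ℝ)| * |K x.2| ≤ 1 * (A * x.2) := by
        gcongr
        exact hK _ hx2 hx3
    _ = A * x.2 := one_mul _

/-- The quadratic form identity. -/
lemma quad_eq (x K : ℕ → ℝ) (N : ℕ) :
    ∑ d ∈ Ioc 0 N, ∑ d' ∈ Ioc 0 N, x d * x d' * K (Nat.gcd d d')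
      = ∑ q ∈ Ioc 0 N, mobT K q * (∑ d ∈ (Ioc 0 N).filter (fun d => q ∣ d), x d) ^ 2 := by
  have h1 : ∀ d ∈ Ioc 0 N, ∀ d' ∈ Ioc 0 N, K (Nat.gcd d d') =
      ∑ q ∈ Ioc 0 N, (if q ∣ d then 1 else 0) * (if q ∣ d' then 1 else 0) * mobT K q := by
    intro d hd d' hd'
    simp only [mem_Ioc] at hd hd'
    have hg : 0 < Nat.gcd d d' := Nat.gcd_pos_of_pos_left _ hd.1
    rw [← sum_mobT K hg]
    have h2 : (Nat.gcd d d').divisors = (Ioc 0 N).filter (fun q => q ∣ d ∧ q ∣ d') := by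
      ext q
      simp only [Nat.mem_divisors, mem_filter, mem_Ioc, Nat.dvd_gcd_iff]
      constructor
      · rintro ⟨⟨h1, h2⟩, _⟩
        exact ⟨⟨Nat.pos_of_dvd_of_pos h1 hd.1, (Nat.le_of_dvd hd.1 h1).trans hd.2⟩, h1, h2⟩
      · rintro ⟨_, h1, h2⟩
        exact ⟨⟨h1, h2⟩, hg.ne'⟩
    rw [h2, Finset.sum_filter]
    refine Finset.sum_congr rfl fun q _ => ?_
    by_cases h3 : q ∣ d <;> by_cases h4 : q ∣ d' <;> simp [h3, h4]
  have h5 : ∑ d ∈ Ioc 0 N, ∑ d' ∈ Ioc 0 N, x d * x d' * K (Nat.gcd d d')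
      = ∑ d ∈ Ioc 0 N, ∑ d' ∈ Ioc 0 N, ∑ q ∈ Ioc 0 N,
        mobT K q * ((if q ∣ d then x d else 0) * (if q ∣ d' then x d' else 0)) := by
    refine Finset.sum_congr rfl fun d hd => Finset.sum_congr rfl fun d' hd' => ?_
    rw [h1 d hd d' hd', Finset.mul_sum]
    refine Finset.sum_congr rfl fun q _ => ?_
    by_cases h3 : q ∣ d <;> by_cases h4 : q ∣ d' <;> simp [h3, h4]
    ring
  rw [h5]
  have h6 : ∀ d ∈ Ioc 0 N, ∑ d' ∈ Ioc 0 N, ∑ q ∈ Ioc 0 N,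
        mobT K q * ((if q ∣ d then x d else 0) * (if q ∣ d' then x d' else 0))
      = ∑ q ∈ Ioc 0 N, ∑ d' ∈ Ioc 0 N,
        mobT K q * ((if q ∣ d then x d else 0) * (if q ∣ d' then x d' else 0)) :=
    fun d _ => Finset.sum_comm
  rw [Finset.sum_congr rfl h6, Finset.sum_comm]
  refine Finset.sum_congr rfl fun q _ => ?_
  rw [sq, Finset.sum_filter, Finset.sum_mul_sum, Finset.mul_sum]
  refine Finset.sum_congr rfl fun d _ => ?_
  rw [Finset.mul_sum]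

/-- Upper bound for the quadratic form. -/
lemma abs_quad_le {x K : ℕ → ℝ} {N : ℕ} {A : ℝ} (hA : 0 ≤ A)
    (hK : ∀ e, 1 ≤ e → e ≤ N → |K e| ≤ A * e) :
    |∑ d ∈ Ioc 0 N, ∑ d' ∈ Ioc 0 N, x d * x d' * K (Nat.gcd d d')|
      ≤ A * ∑ q ∈ Ioc 0 N, (σ 1 q : ℝ) * (∑ d ∈ (Ioc 0 N).filter (fun d => q ∣ d), x d) ^ 2 := by
  rw [quad_eq]
  refine (Finset.abs_sum_le_sum_abs _ _).trans ?_
  rw [Finset.mul_sum]
  refine Finset.sum_le_sum fun q hq => ?_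
  rw [abs_mul, abs_of_nonneg (sq_nonneg (∑ d ∈ (Ioc 0 N).filter (fun d => q ∣ d), x d)),
    ← mul_assoc]
  exact mul_le_mul_of_nonneg_right (abs_mobT_le hA hK hq) (sq_nonneg _)

end Pool.Agent.PC10
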