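import Mathlib

/-!
# Elementary bounds for logarithmically weighted Moebius sums
-/

namespace Pool.Agent.PC10

open Finset ArithmeticFunction
open scoped ArithmeticFunction.Moebius ArithmeticFunction.zeta

/-- `∑_{m ≤ N} μ(m) ⌊N/m⌋ = 1`. -/
lemma sum_moebius_mul_div (N : ℕ) (hN : 1 ≤ N) :
    ∑ m ∈ Ioc 0 N, (μ m : ℝ) * ((N / m : ℕ) : ℝ) = 1 := by
  have h := sum_Ioc_mul_zeta_eq_sum (R := ℝ) (μ : ArithmeticFunction ℝ) N
  rw [coe_moebius_mul_coe_zeta] at h
  simp only [intCoe_apply] at h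
  rw [← h]
  rw [Finset.sum_eq_single 1]
  · simp
  · intro b _ hb
    simp [hb]
  · intro h1
    simp at h1
    omega

/-- `|∑_{m ≤ N} μ(m)/m| ≤ 1`. -/
lemma abs_sum_moebius_div_le (N : ℕ) : |∑ m ∈ Ioc 0 N, (μ m : ℝ) / m| ≤ 1 := by
  rcases Nat.eq_zero_or_pos N with rfl | hN
  · simp
  have hNr : (0 : ℝ) < N := by exact_mod_cast hN
  have h1 := sum_moebius_mul_div N hN
  have h2 : (N : ℝ) * ∑ m ∈ Ioc 0 N, (μ m : ℝ) / m
      = 1 + ∑ m ∈ Ioc 0 N, (μ m : ℝ) * ((N : ℝ) / m - ((N / m : ℕ) : ℝ)) := by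
    rw [← h1, ← Finset.sum_add_distrib, Finset.mul_sum]
    refine Finset.sum_congr rfl fun m hm => ?_
    ring
  have h3 : |∑ m ∈ Ioc 0 N, (μ m : ℝ) * ((N : ℝ) / m - ((N / m : ℕ) : ℝ))| ≤ (N : ℝ) - 1 := by
    have h4 : ∑ m ∈ Ioc 0 N, (μ m : ℝ) * ((N : ℝ) / m - ((N / m : ℕ) : ℝ))
        = ∑ m ∈ Ioc 1 N, (μ m : ℝ) * ((N : ℝ) / m - ((N / m : ℕ) : ℝ)) := by
      have : Ioc 0 N = insert 1 (Ioc 1 N) := by
        ext x; simp; omega
      rw [this, Finset.sum_insert (by simp)]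
      simp
    rw [h4]
    refine (Finset.abs_sum_le_sum_abs _ _).trans ?_
    have : ∀ m ∈ Ioc 1 N, |(μ m : ℝ) * ((N : ℝ) / m - ((N / m : ℕ) : ℝ))| ≤ 1 := by
      intro m hm
      rw [abs_mul]
      have hμ : |(μ m : ℝ)| ≤ 1 := by exact_mod_cast abs_moebius_le_one (n := m)
      have hm0 : (0:ℝ) < m := by
        simp at hm
        exact_mod_cast (by omega : 0 < m)
      have hfl : ((N / m : ℕ) : ℝ) = ⌊(N : ℝ) / m⌋₊ := by
        rw [Nat.floor_div_natCast, Nat.floor_natCast]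
      have hfr : |(N : ℝ) / m - ((N / m : ℕ) : ℝ)| ≤ 1 := by
        rw [hfl, abs_le]
        have h5 := Nat.floor_le (show (0:ℝ) ≤ (N:ℝ)/m by positivity)
        have h6 := (Nat.lt_floor_add_one ((N:ℝ)/m)).le
        constructor <;> linarith
      calc |(μ m : ℝ)| * |(N : ℝ) / m - ((N / m : ℕ) : ℝ)| ≤ 1 * 1 := by
            gcongr
        _ = 1 := by norm_num
    refine (Finset.sum_le_sum this).trans ?_
    simp
    rw [Nat.cast_sub hN]; simp
  have h7 : |(N : ℝ) * ∑ m ∈ Ioc 0 N, (μ m : ℝ) / m| ≤ N := by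
    rw [h2]
    calc _ ≤ |(1:ℝ)| + |∑ m ∈ Ioc 0 N, (μ m : ℝ) * ((N : ℝ) / m - ((N / m : ℕ) : ℝ))| :=
          abs_add_le _ _
      _ ≤ 1 + ((N:ℝ) - 1) := by rw [abs_one]; linarith
      _ = N := by ring
  rw [abs_mul, abs_of_pos hNr] at h7
  have := (mul_le_iff_le_one_right hNr).mp h7
  exact this

/-- `∑_{m ≤ N} μ(m)/m H(⌊N/m⌋) = 1`. -/
lemma sum_moebius_mul_harmonic (N : ℕ) (hN : 1 ≤ N) :
    ∑ m ∈ Ioc 0 N, (μ m : ℝ) / m * (∑ n ∈ Ioc 0 (N / m), (1:ℝ) / n) = 1 := by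
  let f : ArithmeticFunction ℝ := ⟨fun m => (μ m : ℝ) / m, by simp⟩
  let g : ArithmeticFunction ℝ := ⟨fun m => (1 : ℝ) / m, by simp⟩
  have h := sum_Ioc_mul_eq_sum_sum f g N
  have hf : ∀ m, f m = (μ m : ℝ) / m := fun _ => rfl
  have hg : ∀ m, g m = (1 : ℝ) / m := fun _ => rfl
  simp only [hf, hg] at h
  rw [← h]
  have h2 : ∀ n ∈ Ioc 0 N, (f * g) n = if n = 1 then 1 else 0 := by
    intro n hn
    have hn0 : n ≠ 0 := by simp at hn; omega
    rw [ArithmeticFunction.mul_apply]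
    have h3 : ∑ x ∈ n.divisorsAntidiagonal, f x.1 * g x.2
        = (1 / (n:ℝ)) * ∑ x ∈ n.divisorsAntidiagonal, (μ x.1 : ℝ) := by
      rw [Finset.mul_sum]
      refine Finset.sum_congr rfl fun x hx => ?_
      rw [Nat.mem_divisorsAntidiagonal] at hx
      rw [hf, hg, ← hx.1]
      have h1 : x.1 ≠ 0 := by
        rintro h; rw [h] at hx; simp at hx; exact hn0 hx.1.symm
      have h2 : x.2 ≠ 0 := by
        rintro h; rw [h] at hx; simp at hx; exact hn0 hx.1.symm
      push_cast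
      have h1' : (x.1 : ℝ) ≠ 0 := by exact_mod_cast h1
      have h2' : (x.2 : ℝ) ≠ 0 := by exact_mod_cast h2
      field_simp
    rw [h3]
    have h4 : ∑ x ∈ n.divisorsAntidiagonal, (μ x.1 : ℝ) = if n = 1 then 1 else 0 := by
      have h5 := congrArg (fun F : ArithmeticFunction ℝ => F n)
        (coe_moebius_mul_coe_zeta (R := ℝ))
      simp only [ArithmeticFunction.mul_apply, ArithmeticFunction.one_apply] at h5
      rw [← h5]
      refine Finset.sum_congr rfl fun x hx => ?_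
      rw [Nat.mem_divisorsAntidiagonal] at hx
      have h2 : x.2 ≠ 0 := by
        rintro h; rw [h] at hx; simp at hx; exact hn0 hx.1.symm
      simp [natCoe_apply, zeta_apply, h2, intCoe_apply]
    rw [h4]
    split_ifs with h6
    · subst h6; simp
    · simp
  rw [Finset.sum_congr rfl h2]
  rw [Finset.sum_ite_eq']
  simp; omega

/-- `|H(⌊x⌋) - log x - γ| ≤ 2/x` for `x ≥ 1`. -/
lemma abs_harmonic_sub_le {x : ℝ} (hx : 1 ≤ x) :
    |(∑ n ∈ Ioc 0 ⌊x⌋₊, (1:ℝ) / n) - Real.log x - Real.eulerMascheroniConstant| ≤ 2 / x := by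
  set k := ⌊x⌋₊ with hk
  have hk1 : 1 ≤ k := by rw [hk]; exact Nat.le_floor (by simpa using hx)
  have hkr : (1:ℝ) ≤ k := by exact_mod_cast hk1
  have hH : (∑ n ∈ Ioc 0 k, (1:ℝ) / n) = (harmonic k : ℝ) := by
    rw [harmonic_eq_sum_Icc]
    push_cast
    have : Ioc 0 k = Icc 1 k := by ext; simp; omega
    rw [this]
    refine Finset.sum_congr rfl fun n _ => by rw [one_div]
  have h1 := Real.eulerMascheroniSeq_lt_eulerMascheroniConstant k
  have h2 := Real.eulerMascheroniConstant_lt_eulerMascheroniSeq' k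
  simp only [Real.eulerMascheroniSeq] at h1
  simp only [Real.eulerMascheroniSeq', if_neg (by omega : k ≠ 0)] at h2
  have hx0 : 0 < x := by linarith
  have hkx : (k:ℝ) ≤ x := Nat.floor_le hx0.le
  have hxk : x < k + 1 := Nat.lt_floor_add_one x
  have hl1 : Real.log k ≤ Real.log x := Real.log_le_log (by linarith) hkx
  have hl2 : Real.log x ≤ Real.log (k+1) := Real.log_le_log hx0 hxk.le
  have hl3 : Real.log (k+1) - Real.log k ≤ 1 / k := by
    rw [← Real.log_div (by linarith) (by linarith)]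
    have := Real.log_le_sub_one_of_pos (show (0:ℝ) < (k+1)/k by positivity)
    have h3 : ((k:ℝ)+1)/k - 1 = 1 / k := by field_simp; ring
    linarith
  have hl4 : 1 / (k:ℝ) ≤ 2 / x := by
    rw [div_le_div_iff₀ (by linarith) hx0]
    linarith
  rw [hH, abs_le]
  constructor <;> linarith

/-- Logarithmically weighted Moebius sum over integers free of the primes in `S`. -/
noncomputable def mset (S : Finset ℕ) (z : ℝ) : ℝ :=
  ∑ m ∈ (Ioc 0 ⌊z⌋₊).filter (fun m => ∀ p ∈ S, ¬ p ∣ m), (μ m : ℝ) / m * Real.log (z / m)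

lemma mset_of_lt_one (S : Finset ℕ) {z : ℝ} (hz : z < 1) : mset S z = 0 := by
  have : ⌊z⌋₊ = 0 := Nat.floor_eq_zero.mpr hz
  simp [mset, this]

lemma abs_mset_empty_le (z : ℝ) : |mset ∅ z| ≤ 4 := by
  rcases lt_or_ge z 1 with hz | hz
  · rw [mset_of_lt_one _ hz]; simp
  have hz0 : 0 < z := by linarith
  set N := ⌊z⌋₊ with hN
  have hN1 : 1 ≤ N := Nat.le_floor (by simpa using hz)
  have hNz : (N:ℝ) ≤ z := Nat.floor_le hz0.le
  have h1 := sum_moebius_mul_harmonic N hN1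
  have hfl : ∀ m ∈ Ioc 0 N, N / m = ⌊z / m⌋₊ := by
    intro m hm
    rw [Nat.floor_div_natCast]
  have hge : ∀ m ∈ Ioc 0 N, (1:ℝ) ≤ z / m := by
    intro m hm
    simp at hm
    have hm0 : (0:ℝ) < m := by exact_mod_cast hm.1
    rw [le_div_iff₀ hm0, one_mul]
    calc (m:ℝ) ≤ N := by exact_mod_cast hm.2
      _ ≤ z := hNz
  have h2 : mset ∅ z = 1 - Real.eulerMascheroniConstant * (∑ m ∈ Ioc 0 N, (μ m : ℝ) / m)
      - ∑ m ∈ Ioc 0 N, (μ m : ℝ) / m * ((∑ n ∈ Ioc 0 ⌊z/m⌋₊, (1:ℝ) / n) - Real.log (z/m)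
          - Real.eulerMascheroniConstant) := by
    have h2' : mset ∅ z = (∑ m ∈ Ioc 0 N, (μ m : ℝ) / m * (∑ n ∈ Ioc 0 (N / m), (1:ℝ) / n))
      - Real.eulerMascheroniConstant * (∑ m ∈ Ioc 0 N, (μ m : ℝ) / m)
      - ∑ m ∈ Ioc 0 N, (μ m : ℝ) / m * ((∑ n ∈ Ioc 0 ⌊z/m⌋₊, (1:ℝ) / n) - Real.log (z/m)
          - Real.eulerMascheroniConstant) := by
      rw [Finset.mul_sum, ← Finset.sum_sub_distrib, ← Finset.sum_sub_distrib]
      unfold mset
      rw [Finset.filter_true_of_mem (by simp)]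
      refine Finset.sum_congr rfl fun m hm => ?_
      rw [hfl m hm]; ring
    rw [h2', h1]
  have h3 : |∑ m ∈ Ioc 0 N, (μ m : ℝ) / m * ((∑ n ∈ Ioc 0 ⌊z/m⌋₊, (1:ℝ) / n) - Real.log (z/m)
          - Real.eulerMascheroniConstant)| ≤ 2 := by
    refine (Finset.abs_sum_le_sum_abs _ _).trans ?_
    have : ∀ m ∈ Ioc 0 N, |(μ m : ℝ) / m * ((∑ n ∈ Ioc 0 ⌊z/m⌋₊, (1:ℝ) / n) - Real.log (z/m)
          - Real.eulerMascheroniConstant)| ≤ 2 / z := by
      intro m hm
      have hm0 : (0:ℝ) < m := by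
        simp at hm
        exact_mod_cast (by omega : 0 < m)
      rw [abs_mul, abs_div, abs_of_pos hm0]
      have hμ : |(μ m : ℝ)| ≤ 1 := by exact_mod_cast abs_moebius_le_one (n := m)
      have h5 := abs_harmonic_sub_le (hge m hm)
      calc |(μ m : ℝ)| / m * |(∑ n ∈ Ioc 0 ⌊z/m⌋₊, (1:ℝ) / n) - Real.log (z/m)
          - Real.eulerMascheroniConstant| ≤ 1 / m * (2 / (z / m)) := by gcongr
        _ = 2 / z := by field_simp
    refine (Finset.sum_le_sum this).trans ?_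
    simp only [sum_const, Nat.card_Ioc, nsmul_eq_mul]
    rw [Nat.sub_zero, mul_div_assoc', div_le_iff₀ hz0]
    linarith
  have h4 := abs_sum_moebius_div_le N
  have h5 := Real.eulerMascheroniConstant_lt_two_thirds
  have h6 := Real.one_half_lt_eulerMascheroniConstant
  have h7 : |Real.eulerMascheroniConstant * (∑ m ∈ Ioc 0 N, (μ m : ℝ) / m)| ≤ 1 := by
    rw [abs_mul, abs_of_pos (by linarith)]
    calc _ ≤ (2/3 : ℝ) * 1 := by gcongr
      _ ≤ 1 := by norm_num
  rw [h2]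
  rw [abs_le] at *
  constructor <;> linarith [h3.1, h3.2, h7.1, h7.2]

lemma mset_insert {S : Finset ℕ} {p : ℕ} (hp : p.Prime) (hpS : p ∉ S)
    (hS : ∀ r ∈ S, r.Prime) (z : ℝ) :
    mset (insert p S) z = mset S z + 1 / p * mset (insert p S) (z / p) := by
  have hp0 : (0:ℝ) < p := by exact_mod_cast hp.pos
  -- split according to divisibility by p
  have h1 : mset S z = ∑ m ∈ (Ioc 0 ⌊z⌋₊).filter (fun m => ∀ r ∈ insert p S, ¬ r ∣ m),
        (μ m : ℝ) / m * Real.log (z / m)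
      + ∑ m ∈ (Ioc 0 ⌊z⌋₊).filter (fun m => (∀ r ∈ S, ¬ r ∣ m) ∧ p ∣ m),
        (μ m : ℝ) / m * Real.log (z / m) := by
    unfold mset
    rw [← Finset.sum_filter_add_sum_filter_not ((Ioc 0 ⌊z⌋₊).filter (fun m => ∀ r ∈ S, ¬ r ∣ m))
      (fun m => ¬ p ∣ m)]
    congr 1
    · refine Finset.sum_congr ?_ fun _ _ => rfl
      ext m
      simp only [mem_filter, mem_insert, forall_eq_or_imp]
      tauto
    · refine Finset.sum_congr ?_ fun _ _ => rfl
      ext m
      simp only [mem_filter, not_not]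
      tauto
  have h2 : ∑ m ∈ (Ioc 0 ⌊z⌋₊).filter (fun m => (∀ r ∈ S, ¬ r ∣ m) ∧ p ∣ m),
        (μ m : ℝ) / m * Real.log (z / m) = - (1 / p * mset (insert p S) (z / p)) := by
    unfold mset
    rw [Finset.mul_sum, ← Finset.sum_neg_distrib]
    symm
    have hinj : Set.InjOn (fun m => p * m)
        ((Ioc 0 ⌊z/p⌋₊).filter (fun m => ∀ r ∈ insert p S, ¬ r ∣ m) : Set ℕ) := by
      intro a _ b _ hab
      exact Nat.eq_of_mul_eq_mul_left hp.pos hab
    have hsub := Finset.sum_subset (s₁ := ((Ioc 0 ⌊z/p⌋₊).filter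
      (fun m => ∀ r ∈ insert p S, ¬ r ∣ m)).image (fun m => p * m))
      (s₂ := (Ioc 0 ⌊z⌋₊).filter (fun m => (∀ r ∈ S, ¬ r ∣ m) ∧ p ∣ m))
      (f := fun m : ℕ => (μ m : ℝ) / m * Real.log (z / m)) ?_ ?_
    · rw [← hsub, Finset.sum_image hinj]
      refine Finset.sum_congr rfl fun m hm => ?_
      simp only [mem_filter, mem_Ioc, mem_insert, forall_eq_or_imp] at hm
      have hcop : Nat.Coprime p m := (Nat.Prime.coprime_iff_not_dvd hp).mpr hm.2.1
      have hmu : μ (p * m) = - μ m := by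
        rw [isMultiplicative_moebius.map_mul_of_coprime hcop, moebius_apply_prime hp]; ring
      rw [hmu]
      have hm0 : (0:ℝ) < m := by exact_mod_cast hm.1.1
      push_cast
      rw [div_div]
      field_simp
    · intro m hm
      simp only [mem_image, mem_filter, mem_Ioc, mem_insert, forall_eq_or_imp] at hm ⊢
      obtain ⟨a, ⟨⟨ha1, ha2⟩, ha3, ha4⟩, rfl⟩ := hm
      have ha2' : p * a ≤ ⌊z⌋₊ := by
        rw [Nat.floor_div_natCast] at ha2
        calc p * a ≤ p * (⌊z⌋₊ / p) := Nat.mul_le_mul_left _ ha2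
          _ ≤ ⌊z⌋₊ := Nat.mul_div_le _ _
      refine ⟨⟨Nat.mul_pos hp.pos ha1, ha2'⟩, ?_, Dvd.intro _ rfl⟩
      intro r hr hd
      rcases (Nat.Prime.dvd_mul (hS r hr)).mp hd with h | h
      · have := (Nat.prime_dvd_prime_iff_eq (hS r hr) hp).mp h
        exact hpS (this ▸ hr)
      · exact ha4 r hr h
    · intro m hm hm2
      simp only [mem_image, mem_filter, mem_Ioc, mem_insert, forall_eq_or_imp] at hm hm2
      obtain ⟨⟨hm1, hm3⟩, hm4, a, rfl⟩ := hm
      have : μ (p * a) = 0 := by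
        apply moebius_eq_zero_of_not_squarefree
        intro hsq
        apply hm2
        refine ⟨a, ⟨⟨?_, ?_⟩, ?_, ?_⟩, rfl⟩
        · exact Nat.pos_of_ne_zero (by rintro rfl; simp at hm1)
        · rw [Nat.floor_div_natCast]
          exact (Nat.le_div_iff_mul_le hp.pos).mpr (by rw [mul_comm]; exact hm3)
        · intro hd
          have hpp : p * p ∣ p * a := Nat.mul_dvd_mul_left p hd
          have := hsq p hpp
          exact hp.one_lt.ne' (Nat.isUnit_iff.mp this)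
        · intro r hr hd
          exact hm4 r hr (Dvd.dvd.mul_left hd p)
      rw [this]; simp
  rw [h1, h2]
  unfold mset
  ring

/-- The Euler factor product `∏_{p ∈ S} (1 - 1/p)⁻¹`. -/
noncomputable def eulerFac (S : Finset ℕ) : ℝ := ∏ p ∈ S, (1 - 1 / (p:ℝ))⁻¹

lemma abs_mset_le {S : Finset ℕ} (hS : ∀ r ∈ S, r.Prime) (z : ℝ) :
    |mset S z| ≤ 4 * eulerFac S := by
  induction S using Finset.induction_on generalizing z with
  | empty => simpa [eulerFac] using abs_mset_empty_le z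
  | insert p S hpS ih =>
    have hp : p.Prime := hS p (by simp)
    have hS' : ∀ r ∈ S, r.Prime := fun r hr => hS r (by simp [hr])
    have hp2 : (2:ℝ) ≤ p := by exact_mod_cast hp.two_le
    have hfac : eulerFac (insert p S) = (1 - 1/(p:ℝ))⁻¹ * eulerFac S := by
      unfold eulerFac
      rw [Finset.prod_insert hpS]
    have hpos : (0:ℝ) < 1 - 1/(p:ℝ) := by
      have : 1/(p:ℝ) ≤ 1/2 := by gcongr
      linarith
    have hSpos : 0 ≤ eulerFac S := by
      have := (abs_nonneg _).trans (ih hS' 1)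
      linarith
    -- induction on k with z < 2 ^ k
    have key : ∀ k : ℕ, ∀ z : ℝ, z < 2 ^ k → |mset (insert p S) z| ≤ 4 * eulerFac (insert p S) := by
      intro k
      induction k with
      | zero =>
        intro z hz
        rw [mset_of_lt_one _ (by simpa using hz)]
        rw [hfac, abs_zero]
        have := inv_pos.mpr hpos
        positivity
      | succ k ihk =>
        intro z hz
        rw [mset_insert hp hpS hS']
        have hz' : z / p < 2 ^ k := by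
          rw [div_lt_iff₀ (by linarith)]
          calc z < 2 ^ (k+1) := hz
            _ = 2 ^ k * 2 := pow_succ _ _
            _ ≤ 2 ^ k * p := by gcongr
        have h1 := ihk _ hz'
        have h2 := ih hS' z
        have h3 : |mset S z + 1 / (p:ℝ) * mset (insert p S) (z / p)|
            ≤ 4 * eulerFac S + 1/(p:ℝ) * (4 * eulerFac (insert p S)) := by
          calc _ ≤ |mset S z| + |1 / (p:ℝ) * mset (insert p S) (z / p)| := abs_add_le _ _
            _ = |mset S z| + 1/(p:ℝ) * |mset (insert p S) (z / p)| := by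
                rw [abs_mul, abs_of_nonneg (show (0:ℝ) ≤ 1/(p:ℝ) by positivity)]
            _ ≤ _ := by gcongr
        refine h3.trans (le_of_eq ?_)
        have h4 : eulerFac S = (1 - 1/(p:ℝ)) * eulerFac (insert p S) := by
          rw [hfac, ← mul_assoc, mul_inv_cancel₀ hpos.ne', one_mul]
        rw [h4]; ring
    obtain ⟨k, hk⟩ := pow_unbounded_of_one_lt z (show (1:ℝ) < 2 by norm_num)
    exact key k z hk

end Pool.Agent.PC10
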