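import Mathlib
import Pool.Agent.PC10.MobiusLog

/-!
# A mean value bound for products over prime divisors
-/

namespace Pool.Agent.PC10

open Finset ArithmeticFunction
open scoped ArithmeticFunction.Moebius ArithmeticFunction.zeta ArithmeticFunction.sigma

/-- `g(p) = (1 - 1/p)⁻³ - 1`. -/
noncomputable def gfac (p : ℕ) : ℝ := ((1 - 1 / (p:ℝ))⁻¹) ^ 3 - 1

lemma gfac_nonneg {p : ℕ} (hp : p.Prime) : 0 ≤ gfac p := by
  have hp2 : (2:ℝ) ≤ p := by exact_mod_cast hp.two_le
  have h1 : 1/(p:ℝ) ≤ 1/2 := by gcongr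
  have h0 : 0 < 1/(p:ℝ) := by positivity
  have h2 : 1 ≤ (1 - 1 / (p:ℝ))⁻¹ := by
    rw [one_le_inv₀ (by linarith)]; linarith
  unfold gfac
  have := one_le_pow₀ h2 (n := 3)
  linarith

lemma gfac_le {p : ℕ} (hp : p.Prime) : gfac p ≤ 14 / p := by
  have hp2 : (2:ℝ) ≤ p := by exact_mod_cast hp.two_le
  unfold gfac
  set x := 1 / (p:ℝ) with hx
  have h1 : x ≤ 1/2 := by rw [hx]; gcongr
  have h0 : 0 < x := by positivity
  have h14 : (14:ℝ) / p = 14 * x := by rw [hx]; ring
  rw [h14, inv_pow, sub_le_iff_le_add, inv_le_comm₀ (by have : 0 < 1 - x := by linarith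
                                                        positivity) (by positivity)]
  rw [inv_eq_one_div, div_le_iff₀ (by positivity)]
  nlinarith [mul_nonneg h0.le (sub_nonneg.mpr h1), mul_nonneg (mul_nonneg h0.le h0.le) (sub_nonneg.mpr h1),
    mul_nonneg (mul_nonneg (mul_nonneg h0.le h0.le) h0.le) (sub_nonneg.mpr h1), sq_nonneg x]

/-- The multiplicative function `G(e) = ∏_{p | e} g(p)`. -/
noncomputable def Gfun : ArithmeticFunction ℝ := prodPrimeFactors gfac

lemma Gfun_mult : Gfun.IsMultiplicative := IsMultiplicative.prodPrimeFactors gfac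

lemma Gfun_prime {p : ℕ} (hp : p.Prime) : Gfun p = gfac p := by
  unfold Gfun
  rw [prodPrimeFactors_apply hp.ne_zero, hp.primeFactors]
  simp

lemma Gfun_nonneg (e : ℕ) : 0 ≤ Gfun e := by
  rcases Nat.eq_zero_or_pos e with rfl | he
  · simp
  unfold Gfun
  rw [prodPrimeFactors_apply he.ne']
  exact Finset.prod_nonneg fun p hp => gfac_nonneg (Nat.prime_of_mem_primeFactors hp)

lemma eulerFac_pow_three {q : ℕ} (hq : Squarefree q) :
    eulerFac q.primeFactors ^ 3 = ∑ e ∈ q.divisors, Gfun e := by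
  have h := Gfun_mult.prodPrimeFactors_one_add_of_squarefree hq
  rw [← h]
  unfold eulerFac
  rw [← Finset.prod_pow]
  refine Finset.prod_congr rfl fun p hp => ?_
  rw [Gfun_prime (Nat.prime_of_mem_primeFactors hp)]
  unfold gfac
  ring

/-- `G(e)/e`. -/
noncomputable def Gdiv : ArithmeticFunction ℝ := ⟨fun e => Gfun e / e, by simp⟩

lemma Gdiv_apply (e : ℕ) : Gdiv e = Gfun e / e := rfl

lemma Gdiv_nonneg (e : ℕ) : 0 ≤ Gdiv e := by
  rw [Gdiv_apply]
  have := Gfun_nonneg e
  positivity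

lemma Gdiv_mult : Gdiv.IsMultiplicative := by
  constructor
  · rw [Gdiv_apply, Gfun_mult.map_one]; simp
  · intro m n hmn
    rw [Gdiv_apply, Gdiv_apply, Gdiv_apply, Gfun_mult.map_mul_of_coprime hmn]
    push_cast
    rw [mul_div_mul_comm]

lemma sum_Gdiv_le (N : ℕ) :
    ∑ e ∈ (Ioc 0 N).filter Squarefree, Gdiv e ≤ Real.exp 14 := by
  have h1 : ∑ e ∈ (Ioc 0 N).filter Squarefree, Gdiv e ≤ ∑ e ∈ (primorial N).divisors, Gdiv e := by
    apply Finset.sum_le_sum_of_subset_of_nonneg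
    · intro e he
      simp only [mem_filter, mem_Ioc] at he
      rw [Nat.mem_divisors]
      exact ⟨he.2.dvd_primorial.trans (primorial_dvd_primorial he.1.2), primorial_ne_zero N⟩
    · intro i _ _; exact Gdiv_nonneg i
  have hsq : Squarefree (primorial N) := squarefree_primorial N
  have h2 := Gdiv_mult.prodPrimeFactors_one_add_of_squarefree hsq
  rw [← h2] at h1
  refine h1.trans ?_
  refine (Real.prod_one_add_le_exp_sum _ fun i => Gdiv_nonneg i).trans ?_
  · apply Real.exp_le_exp.mpr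
    rw [primeFactors_primorial]
    calc ∑ p ∈ Nat.primesLE N, Gdiv p ≤ ∑ p ∈ Nat.primesLE N, 14 * ((p:ℝ) ^ 2)⁻¹ := by
          refine Finset.sum_le_sum fun p hp => ?_
          have hp' : p.Prime := by
            rw [← primeFactors_primorial] at hp
            exact Nat.prime_of_mem_primeFactors hp
          have hp2 : (2:ℝ) ≤ p := by exact_mod_cast hp'.two_le
          rw [Gdiv_apply, Gfun_prime hp', div_le_iff₀ (by linarith)]
          refine (gfac_le hp').trans (le_of_eq ?_)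
          field_simp
      _ ≤ ∑ p ∈ Ioc 1 (max 1 N), 14 * ((p:ℝ) ^ 2)⁻¹ := by
          apply Finset.sum_le_sum_of_subset_of_nonneg
          · intro p hp
            rw [← primeFactors_primorial] at hp
            have hp' := Nat.prime_of_mem_primeFactors hp
            have hd := Nat.dvd_of_mem_primeFactors hp
            rw [hp'.dvd_primorial_iff] at hd
            simp only [mem_Ioc]
            exact ⟨hp'.one_lt, hd.trans (le_max_right _ _)⟩
          · intro i _ _; positivity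
      _ = 14 * ∑ p ∈ Ioc 1 (max 1 N), ((p:ℝ) ^ 2)⁻¹ := by rw [Finset.mul_sum]
      _ ≤ 14 * (((1:ℕ):ℝ)⁻¹ - ((max 1 N : ℕ) : ℝ)⁻¹) := by
          gcongr
          exact sum_Ioc_inv_sq_le_sub one_ne_zero (le_max_left _ _)
      _ ≤ 14 := by
          have : (0:ℝ) ≤ ((max 1 N : ℕ) : ℝ)⁻¹ := by positivity
          push_cast at this ⊢
          linarith

lemma sum_one_div_le (N : ℕ) : ∑ m ∈ Ioc 0 N, (1:ℝ) / m ≤ 1 + Real.log N := by
  have hH : (∑ n ∈ Ioc 0 N, (1:ℝ) / n) = (harmonic N : ℝ) := by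
    rw [harmonic_eq_sum_Icc]
    push_cast
    have : Ioc 0 N = Icc 1 N := by ext; simp; omega
    rw [this]
    refine Finset.sum_congr rfl fun n _ => by rw [one_div]
  rw [hH]
  exact harmonic_le_one_add_log N

lemma sum_eulerFac_le (N : ℕ) (hN : 1 ≤ N) :
    ∑ q ∈ (Ioc 0 N).filter Squarefree, 1 / (q:ℝ) * eulerFac q.primeFactors ^ 3
      ≤ Real.exp 14 * (1 + Real.log N) := by
  let f : ArithmeticFunction ℝ := ⟨fun e => if Squarefree e then Gdiv e else 0, by simp⟩
  let g : ArithmeticFunction ℝ := ⟨fun m => (1 : ℝ) / m, by simp⟩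
  have hf : ∀ e, f e = if Squarefree e then Gdiv e else 0 := fun _ => rfl
  have hg : ∀ m, g m = (1 : ℝ) / m := fun _ => rfl
  have hf0 : ∀ e, 0 ≤ f e := by
    intro e; rw [hf]; split_ifs
    · exact Gdiv_nonneg e
    · exact le_rfl
  have h1 : ∑ q ∈ (Ioc 0 N).filter Squarefree, 1 / (q:ℝ) * eulerFac q.primeFactors ^ 3
      ≤ ∑ q ∈ Ioc 0 N, (f * g) q := by
    have h2 : ∑ q ∈ (Ioc 0 N).filter Squarefree, 1 / (q:ℝ) * eulerFac q.primeFactors ^ 3
        = ∑ q ∈ (Ioc 0 N).filter Squarefree, (f * g) q := by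
      refine Finset.sum_congr rfl fun q hq => ?_
      simp only [mem_filter, mem_Ioc] at hq
      rw [eulerFac_pow_three hq.2, ArithmeticFunction.mul_apply, Finset.mul_sum,
        ← Nat.map_div_right_divisors, Finset.sum_map]
      refine Finset.sum_congr rfl fun e he => ?_
      rw [Nat.mem_divisors] at he
      show 1 / (q:ℝ) * Gfun e = f e * g (q / e)
      rw [hf, hg, if_pos (hq.2.squarefree_of_dvd he.1), Gdiv_apply,
        Nat.cast_div he.1 (by
          have : e ≠ 0 := by rintro rfl; simp at he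
          exact_mod_cast this)]
      have he0 : (e:ℝ) ≠ 0 := by
        have : e ≠ 0 := by rintro rfl; simp at he
        exact_mod_cast this
      have hq0 : (q:ℝ) ≠ 0 := by exact_mod_cast (by omega : q ≠ 0)
      field_simp
    rw [h2]
    apply Finset.sum_le_sum_of_subset_of_nonneg (Finset.filter_subset _ _)
    intro q _ _
    rw [ArithmeticFunction.mul_apply]
    refine Finset.sum_nonneg fun x _ => mul_nonneg (hf0 _) ?_
    rw [hg]; positivity
  refine h1.trans ?_
  rw [sum_Ioc_mul_eq_sum_sum]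
  simp only [hg]
  calc ∑ n ∈ Ioc 0 N, f n * ∑ m ∈ Ioc 0 (N / n), (1:ℝ) / m
      ≤ ∑ n ∈ Ioc 0 N, f n * (1 + Real.log N) := by
        refine Finset.sum_le_sum fun n hn => ?_
        refine mul_le_mul_of_nonneg_left ?_ (hf0 n)
        have hN' : Ioc 0 (N / n) ⊆ Ioc 0 N := by
          intro x hx
          simp only [mem_Ioc] at hx ⊢
          exact ⟨hx.1, hx.2.trans (Nat.div_le_self _ _)⟩
        refine (Finset.sum_le_sum_of_subset_of_nonneg hN' ?_).trans (sum_one_div_le N)
        intro i _ _; positivity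
    _ = (∑ n ∈ Ioc 0 N, f n) * (1 + Real.log N) := by rw [Finset.sum_mul]
    _ ≤ Real.exp 14 * (1 + Real.log N) := by
        have hl : 0 ≤ Real.log N := Real.log_natCast_nonneg N
        refine mul_le_mul_of_nonneg_right ?_ (by linarith)
        refine le_trans (le_of_eq ?_) (sum_Gdiv_le N)
        rw [Finset.sum_filter]
        rfl

lemma sigma_le_eulerFac {q : ℕ} (hq : Squarefree q) :
    (σ 1 q : ℝ) ≤ q * eulerFac q.primeFactors := by
  have hq0 : q ≠ 0 := hq.ne_zero
  have h1 : (σ 1 q : ℝ) = ∏ p ∈ q.primeFactors, (1 + (p:ℝ)) := by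
    have h2 : (σ 1 q : ℝ) = ∑ d ∈ q.divisors, (d:ℝ) := by
      rw [sigma_one_apply]; push_cast; rfl
    let f : ArithmeticFunction ℝ := ⟨fun e => (e:ℝ), by simp⟩
    have hf : f.IsMultiplicative := by
      constructor
      · show ((1:ℕ):ℝ) = 1
        simp
      · intro m n _
        show ((m * n : ℕ) : ℝ) = (m:ℝ) * (n:ℝ)
        push_cast; ring
    have h3 := hf.prodPrimeFactors_one_add_of_squarefree hq
    rw [h2]
    exact h3.symm
  have h4 : (q:ℝ) = ∏ p ∈ q.primeFactors, (p:ℝ) := by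
    conv_lhs => rw [← Nat.prod_primeFactors_of_squarefree hq]
    push_cast; rfl
  rw [h1]
  conv_rhs => rw [h4]
  unfold eulerFac
  rw [← Finset.prod_mul_distrib]
  refine Finset.prod_le_prod (fun p _ => by positivity) fun p hp => ?_
  have hp2 : (2:ℝ) ≤ p := by exact_mod_cast (Nat.prime_of_mem_primeFactors hp).two_le
  have h5 : 0 < 1 - 1/(p:ℝ) := by
    have : 1/(p:ℝ) ≤ 1/2 := by gcongr
    linarith
  rw [← div_eq_mul_inv, le_div_iff₀ h5]
  have h6 : (1 + (p:ℝ)) * (1 - 1/(p:ℝ)) = p - 1/p := by field_simp; ring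
  rw [h6]
  have : 0 < 1/(p:ℝ) := by positivity
  linarith

lemma eulerFac_nonneg {S : Finset ℕ} (hS : ∀ r ∈ S, r.Prime) : 0 ≤ eulerFac S := by
  have := (abs_nonneg _).trans (abs_mset_le hS 1)
  linarith

/-- The mean value bound `∑_{q ≤ N} μ²(q) σ(q) q⁻² (q/φ(q))² ≤ C (1 + log N)`. -/
lemma sum_sigma_eulerFac_le (N : ℕ) (hN : 1 ≤ N) :
    ∑ q ∈ (Ioc 0 N).filter Squarefree,
      (σ 1 q : ℝ) * ((1 / (q:ℝ)) ^ 2 * eulerFac q.primeFactors ^ 2)
      ≤ Real.exp 14 * (1 + Real.log N) := by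
  refine le_trans (Finset.sum_le_sum fun q hq => ?_) (sum_eulerFac_le N hN)
  simp only [mem_filter, mem_Ioc] at hq
  have hE : 0 ≤ eulerFac q.primeFactors :=
    eulerFac_nonneg fun r hr => Nat.prime_of_mem_primeFactors hr
  have hq0 : (0:ℝ) < q := by exact_mod_cast hq.1.1
  calc (σ 1 q : ℝ) * ((1 / (q:ℝ)) ^ 2 * eulerFac q.primeFactors ^ 2)
      ≤ (q * eulerFac q.primeFactors) * ((1 / (q:ℝ)) ^ 2 * eulerFac q.primeFactors ^ 2) := by
        gcongr
        exact sigma_le_eulerFac hq.2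
    _ = 1 / (q:ℝ) * eulerFac q.primeFactors ^ 3 := by field_simp

end Pool.Agent.PC10
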