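import Mathlib
import Pool.Agent.PC10.MobiusLog

/-!
# Logarithmically weighted Moebius sums with an extra factor `m^(-κ)`
-/

namespace Pool.Agent.PC10

open Finset ArithmeticFunction MeasureTheory intervalIntegral
open scoped ArithmeticFunction.Moebius ArithmeticFunction.zeta

/-- The weight `ω(u) = (2κ + κ² log (z/u)) u^(-κ-1)`. -/
noncomputable def omegaW (κ z u : ℝ) : ℝ :=
  (2 * κ + κ ^ 2 * Real.log (z / u)) * u ^ (-κ - 1)

/-- An antiderivative of `ω`. -/
noncomputable def omegaP (κ z u : ℝ) : ℝ :=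
  - u ^ (-κ) - κ * Real.log (z / u) * u ^ (-κ)

lemma hasDerivAt_log_div {z u : ℝ} (hz : 0 < z) (hu : 0 < u) :
    HasDerivAt (fun u : ℝ => Real.log (z / u)) (-(1 / u)) u := by
  have h1 : HasDerivAt (fun u : ℝ => Real.log z - Real.log u) (-(1/u)) u := by
    have := (Real.hasDerivAt_log hu.ne').const_sub (Real.log z)
    simpa using this
  refine h1.congr_of_eventuallyEq ?_
  filter_upwards [lt_mem_nhds hu] with v hv
  rw [Real.log_div hz.ne' hv.ne']

lemma hasDerivAt_rpow_neg {κ u : ℝ} (hu : 0 < u) :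
    HasDerivAt (fun u : ℝ => u ^ (-κ)) (-κ * u ^ (-κ - 1)) u :=
  Real.hasDerivAt_rpow_const (Or.inl hu.ne')

lemma rpow_neg_eq {κ u : ℝ} (hu : 0 < u) : u ^ (-κ) = u * u ^ (-κ - 1) := by
  rw [Real.rpow_sub_one hu.ne']; field_simp

lemma hasDerivAt_omegaP {κ z u : ℝ} (hz : 0 < z) (hu : 0 < u) :
    HasDerivAt (omegaP κ z) (omegaW κ z u) u := by
  have h1 := (hasDerivAt_rpow_neg (κ := κ) hu).neg
  have h2 := ((hasDerivAt_log_div hz hu).const_mul κ).mul (hasDerivAt_rpow_neg (κ := κ) hu)
  have h3 := h1.sub h2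
  refine h3.congr_deriv ?_
  unfold omegaW
  rw [rpow_neg_eq hu]
  field_simp
  ring

lemma omegaW_nonneg {κ z u : ℝ} (hκ : 0 ≤ κ) (hu : 0 < u) (huz : u ≤ z) : 0 ≤ omegaW κ z u := by
  unfold omegaW
  have : 0 ≤ Real.log (z / u) := Real.log_nonneg (by rwa [le_div_iff₀ hu, one_mul])
  positivity

lemma continuousOn_omegaW {κ z : ℝ} (hz : 0 < z) : ContinuousOn (omegaW κ z) (Set.Ioi 0) := by
  unfold omegaW
  intro u hu
  have hu0 : (u:ℝ) ≠ 0 := ne_of_gt hu
  apply ContinuousAt.continuousWithinAt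
  have h1 : ContinuousAt (fun u : ℝ => Real.log (z / u)) u :=
    (hasDerivAt_log_div hz hu).continuousAt
  have h2 : ContinuousAt (fun u : ℝ => u ^ (-κ - 1)) u :=
    Real.continuousAt_rpow_const _ _ (Or.inl hu0)
  exact ((continuousAt_const.add (continuousAt_const.mul h1)).mul h2)

lemma intervalIntegrable_omegaW {κ z a b : ℝ} (hz : 0 < z) (ha : 0 < a) (hb : 0 < b) :
    IntervalIntegrable (omegaW κ z) volume a b := by
  apply ContinuousOn.intervalIntegrable
  refine (continuousOn_omegaW hz).mono ?_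
  intro x hx
  rw [Set.mem_uIcc] at hx
  simp only [Set.mem_Ioi]
  rcases hx with h | h
  · exact lt_of_lt_of_le ha h.1
  · exact lt_of_lt_of_le hb h.1

lemma integral_omegaW {κ z : ℝ} (hz : 1 ≤ z) :
    ∫ u in (1:ℝ)..z, omegaW κ z u = 1 + κ * Real.log z - z ^ (-κ) := by
  have hz0 : 0 < z := by linarith
  rw [integral_eq_sub_of_hasDerivAt (f := omegaP κ z)]
  · unfold omegaP
    simp [div_self hz0.ne']
    ring
  · intro u hu
    rw [Set.uIcc_of_le hz] at hu
    exact hasDerivAt_omegaP hz0 (by linarith [hu.1])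
  · exact intervalIntegrable_omegaW hz0 one_pos hz0

/-- Second order Taylor identity. -/
lemma log_identity {κ z m : ℝ} (hm : 1 ≤ m) (hmz : m ≤ z) :
    m ^ (-κ) * Real.log (z / m) = z ^ (-κ) * Real.log (z / m)
      + ∫ u in (1:ℝ)..z, Real.posLog (u / m) * omegaW κ z u := by
  have hm0 : 0 < m := by linarith
  have hz0 : 0 < z := by linarith
  have hz1 : 1 ≤ z := by linarith
  have hcont : Continuous (fun u : ℝ => Real.posLog (u / m)) := by
    exact Real.continuous_posLog.comp (continuous_id.div_const m)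
  have hint : ∀ a b : ℝ, 0 < a → 0 < b →
      IntervalIntegrable (fun u => Real.posLog (u / m) * omegaW κ z u) volume a b := by
    intro a b ha hb
    exact (intervalIntegrable_omegaW hz0 ha hb).continuousOn_mul hcont.continuousOn
  have h1 : ∫ u in (1:ℝ)..m, Real.posLog (u / m) * omegaW κ z u = 0 := by
    rw [integral_congr (g := fun _ => (0:ℝ))]
    · simp
    · intro u hu
      rw [Set.uIcc_of_le hm] at hu
      have : Real.posLog (u / m) = 0 := by
        rw [Real.posLog_eq_zero_iff]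
        have h0 : 0 ≤ u / m := by
          have : 0 ≤ u := by linarith [hu.1]
          positivity
        rw [abs_of_nonneg h0]
        exact (div_le_one hm0).mpr hu.2
      simp [this]
  have h2 : ∫ u in m..z, Real.posLog (u / m) * omegaW κ z u
      = m ^ (-κ) * Real.log (z / m) - z ^ (-κ) * Real.log (z / m) := by
    have h3 : ∫ u in m..z, Real.posLog (u / m) * omegaW κ z u
        = ∫ u in m..z, Real.log (u / m) * omegaW κ z u := by
      apply integral_congr
      intro u hu
      rw [Set.uIcc_of_le hmz] at hu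
      have hum : 1 ≤ u / m := by rw [le_div_iff₀ hm0, one_mul]; exact hu.1
      simp only
      rw [Real.posLog_eq_log (by rw [abs_of_nonneg (by linarith)]; exact hum)]
    rw [h3, integral_eq_sub_of_hasDerivAt
      (f := fun u => Real.log (u / m) * omegaP κ z u - Real.log (z / u) * u ^ (-κ))]
    · unfold omegaP
      rw [div_self hz0.ne', div_self hm0.ne', Real.log_one]
      ring
    · intro u hu
      rw [Set.uIcc_of_le hmz] at hu
      have hu0 : 0 < u := by linarith [hu.1]
      have h4 : HasDerivAt (fun u : ℝ => Real.log (u / m)) (1 / u) u := by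
        have h5 : HasDerivAt (fun u : ℝ => Real.log u - Real.log m) (1/u) u := by
          have := (Real.hasDerivAt_log hu0.ne').sub_const (Real.log m)
          simpa using this
        refine h5.congr_of_eventuallyEq ?_
        filter_upwards [lt_mem_nhds hu0] with v hv
        rw [Real.log_div hv.ne' hm0.ne']
      have h5 := h4.mul (hasDerivAt_omegaP (κ := κ) hz0 hu0)
      have h6 := (hasDerivAt_log_div hz0 hu0).mul (hasDerivAt_rpow_neg (κ := κ) hu0)
      refine (h5.sub h6).congr_deriv ?_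
      unfold omegaP
      rw [rpow_neg_eq hu0]
      field_simp
      ring
    · refine (intervalIntegrable_omegaW hz0 hm0 hz0).continuousOn_mul ?_
      intro u hu
      rw [Set.uIcc_of_le hmz] at hu
      have hu0 : 0 < u := by linarith [hu.1]
      apply ContinuousAt.continuousWithinAt
      exact (continuousAt_id.div_const m).log (by simp only [id]; positivity)
  rw [← integral_add_adjacent_intervals (hint 1 m one_pos hm0) (hint m z hm0 hz0), h1, h2]
  ring

/-- Moebius sum with weight `m^(-κ) log (z/m)`. -/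
noncomputable def msetK (S : Finset ℕ) (κ z : ℝ) : ℝ :=
  ∑ m ∈ (Ioc 0 ⌊z⌋₊).filter (fun m => ∀ p ∈ S, ¬ p ∣ m),
    (μ m : ℝ) / m * ((m:ℝ) ^ (-κ) * Real.log (z / m))

lemma sum_posLog_eq_mset (S : Finset ℕ) {N : ℕ} {u : ℝ} (hu : 0 ≤ u) (hN : ⌊u⌋₊ ≤ N) :
    ∑ m ∈ (Ioc 0 N).filter (fun m => ∀ p ∈ S, ¬ p ∣ m),
      (μ m : ℝ) / m * Real.posLog (u / m) = mset S u := by
  unfold mset
  symm
  have hsub : (Ioc 0 ⌊u⌋₊).filter (fun m => ∀ p ∈ S, ¬ p ∣ m) ⊆
      (Ioc 0 N).filter (fun m => ∀ p ∈ S, ¬ p ∣ m) := by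
    apply Finset.filter_subset_filter
    intro x hx
    simp only [mem_Ioc] at hx ⊢
    exact ⟨hx.1, hx.2.trans hN⟩
  rw [← Finset.sum_subset hsub]
  · refine Finset.sum_congr rfl fun m hm => ?_
    simp only [mem_filter, mem_Ioc] at hm
    have hm0 : (0:ℝ) < m := by exact_mod_cast hm.1.1
    have hmu : (m:ℝ) ≤ u := (Nat.le_floor_iff hu).mp hm.1.2
    rw [Real.posLog_eq_log]
    rw [abs_of_nonneg (by positivity), le_div_iff₀ hm0, one_mul]
    exact hmu
  · intro m hm hm2
    simp only [mem_filter, mem_Ioc, not_and] at hm hm2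
    have hm0 : (0:ℝ) < m := by exact_mod_cast hm.1.1
    have hmu : u < m := by
      by_contra h
      push Not at h
      have := (Nat.le_floor_iff hu).mpr h
      exact hm2 ⟨hm.1.1, this⟩ hm.2
    have : Real.posLog (u / m) = 0 := by
      rw [Real.posLog_eq_zero_iff, abs_of_nonneg (by positivity)]
      exact (div_le_one hm0).mpr hmu.le
    rw [this, mul_zero]

lemma abs_msetK_le {S : Finset ℕ} (hS : ∀ r ∈ S, r.Prime) {κ z : ℝ} (hκ : 0 ≤ κ) (hz : 1 ≤ z) :
    |msetK S κ z| ≤ 4 * eulerFac S * (1 + κ * Real.log z) := by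
  have hz0 : 0 < z := by linarith
  have hcont : ∀ m : ℕ, Continuous (fun u : ℝ => Real.posLog (u / m)) := fun m =>
    Real.continuous_posLog.comp (continuous_id.div_const (m:ℝ))
  have hint : ∀ m : ℕ, IntervalIntegrable
      (fun u => (μ m : ℝ) / m * (Real.posLog (u / m) * omegaW κ z u)) volume 1 z := by
    intro m
    exact ((intervalIntegrable_omegaW hz0 one_pos hz0).continuousOn_mul
      (hcont m).continuousOn).const_mul _
  have h1 : msetK S κ z = z ^ (-κ) * mset S z + ∫ u in (1:ℝ)..z, mset S u * omegaW κ z u := by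
    have h2 : ∫ u in (1:ℝ)..z, mset S u * omegaW κ z u
        = ∫ u in (1:ℝ)..z, ∑ m ∈ (Ioc 0 ⌊z⌋₊).filter (fun m => ∀ p ∈ S, ¬ p ∣ m),
          (μ m : ℝ) / m * (Real.posLog (u / m) * omegaW κ z u) := by
      apply integral_congr
      intro u hu
      rw [Set.uIcc_of_le hz] at hu
      simp only
      rw [← sum_posLog_eq_mset S (by linarith [hu.1]) (Nat.floor_le_floor hu.2), Finset.sum_mul]
      refine Finset.sum_congr rfl fun m _ => by ring
    rw [h2, intervalIntegral.integral_finset_sum (fun m _ => hint m)]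
    unfold msetK mset
    rw [Finset.mul_sum, ← Finset.sum_add_distrib]
    refine Finset.sum_congr rfl fun m hm => ?_
    simp only [mem_filter, mem_Ioc] at hm
    have hm1 : (1:ℝ) ≤ m := by exact_mod_cast hm.1.1
    have hmz : (m:ℝ) ≤ z := (Nat.le_floor_iff hz0.le).mp hm.1.2
    rw [intervalIntegral.integral_const_mul, log_identity hm1 hmz]
    ring
  have hE : 0 ≤ 4 * eulerFac S := (abs_nonneg _).trans (abs_mset_le hS 1)
  have h3 : |∫ u in (1:ℝ)..z, mset S u * omegaW κ z u|
      ≤ ∫ u in (1:ℝ)..z, 4 * eulerFac S * omegaW κ z u := by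
    rw [← Real.norm_eq_abs]
    apply intervalIntegral.norm_integral_le_of_norm_le hz
    · refine Filter.Eventually.of_forall fun u hu => ?_
      have hw := omegaW_nonneg (κ := κ) (z := z) hκ (by linarith [hu.1]) hu.2
      rw [norm_mul, Real.norm_eq_abs, Real.norm_eq_abs, abs_of_nonneg hw]
      exact mul_le_mul_of_nonneg_right (abs_mset_le hS u) hw
    · exact (intervalIntegrable_omegaW hz0 one_pos hz0).const_mul _
  rw [intervalIntegral.integral_const_mul, integral_omegaW hz] at h3
  rw [h1]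
  have hzk : 0 ≤ z ^ (-κ) := by positivity
  calc |z ^ (-κ) * mset S z + ∫ u in (1:ℝ)..z, mset S u * omegaW κ z u|
      ≤ |z ^ (-κ) * mset S z| + |∫ u in (1:ℝ)..z, mset S u * omegaW κ z u| := abs_add_le _ _
    _ ≤ z ^ (-κ) * (4 * eulerFac S) + 4 * eulerFac S * (1 + κ * Real.log z - z ^ (-κ)) := by
        rw [abs_mul, abs_of_nonneg hzk]
        gcongr
        exact abs_mset_le hS z
    _ = _ := by ring

end Pool.Agent.PC10
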