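import Mathlib
import Pool.Agent.PC10.MobiusLogK
import Pool.Agent.PC10.EulerSum

/-!
# Barban-Vehov mollifier weights
-/

namespace Pool.Agent.PC10

open Finset ArithmeticFunction
open scoped ArithmeticFunction.Moebius ArithmeticFunction.zeta ArithmeticFunction.sigma

/-- Barban-Vehov weight: `μ(d)` for `d ≤ w`, `μ(d) log(y/d)/log(y/w)` for `w < d ≤ y`. -/
noncomputable def lam (w y : ℝ) (d : ℕ) : ℝ :=
  (μ d : ℝ) * ((Real.posLog (y / d) - Real.posLog (w / d)) / Real.log (y / w))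

lemma lam_zero (w y : ℝ) : lam w y 0 = 0 := by simp [lam]

section
variable {w y : ℝ}

lemma posLog_div_eq {z : ℝ} {d : ℕ} (hd : 0 < d) (hz : (d:ℝ) ≤ z) :
    Real.posLog (z / d) = Real.log (z / d) := by
  have hd0 : (0:ℝ) < d := by exact_mod_cast hd
  rw [Real.posLog_eq_log]
  rw [abs_of_nonneg (by have := hd0.le.trans hz; positivity), le_div_iff₀ hd0, one_mul]
  exact hz

lemma posLog_div_eq_zero {z : ℝ} {d : ℕ} (hd : 0 < d) (hz0 : 0 ≤ z) (hz : z ≤ (d:ℝ)) :
    Real.posLog (z / d) = 0 := by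
  have hd0 : (0:ℝ) < d := by exact_mod_cast hd
  rw [Real.posLog_eq_zero_iff, abs_of_nonneg (by positivity)]
  exact (div_le_one hd0).mpr hz

lemma log_div_pos (hw : 1 ≤ w) (hwy : w < y) : 0 < Real.log (y / w) :=
  Real.log_pos (by rw [lt_div_iff₀ (by linarith)]; linarith)

lemma lam_of_le (hw : 1 ≤ w) (hwy : w < y) {d : ℕ} (hd : 0 < d) (hdw : (d:ℝ) ≤ w) :
    lam w y d = μ d := by
  unfold lam
  have hd0 : (0:ℝ) < d := by exact_mod_cast hd
  rw [posLog_div_eq hd (hdw.trans hwy.le), posLog_div_eq hd hdw,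
    Real.log_div (by linarith) hd0.ne', Real.log_div (by linarith) hd0.ne',
    Real.log_div (by linarith) (by linarith)]
  have : Real.log y - Real.log w ≠ 0 := by
    have := log_div_pos hw hwy
    rw [Real.log_div (by linarith) (by linarith)] at this
    exact this.ne'
  rw [show Real.log y - Real.log d - (Real.log w - Real.log d) = Real.log y - Real.log w by ring,
    div_self this, mul_one]

lemma lam_one (hw : 1 ≤ w) (hwy : w < y) : lam w y 1 = 1 := by
  rw [lam_of_le hw hwy one_pos (by simpa using hw)]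
  simp

lemma lam_of_gt (hw : 1 ≤ w) (hwy : w < y) {d : ℕ} (hd : y < d) : lam w y d = 0 := by
  unfold lam
  have hd0 : (0:ℝ) < d := by linarith
  have hd1 : 0 < d := by exact_mod_cast hd0
  rw [posLog_div_eq_zero hd1 (by linarith) hd.le, posLog_div_eq_zero hd1 (by linarith) (by linarith)]
  simp

lemma abs_lam_le_one (hw : 1 ≤ w) (hwy : w < y) (d : ℕ) : |lam w y d| ≤ 1 := by
  rcases Nat.eq_zero_or_pos d with rfl | hd
  · simp [lam_zero]
  have hd0 : (0:ℝ) < d := by exact_mod_cast hd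
  unfold lam
  rw [abs_mul]
  have hμ : |(μ d : ℝ)| ≤ 1 := by exact_mod_cast abs_moebius_le_one (n := d)
  have hL := log_div_pos hw hwy
  have h1 : |(Real.posLog (y / d) - Real.posLog (w / d)) / Real.log (y / w)| ≤ 1 := by
    rw [abs_div, abs_of_pos hL, div_le_one hL, abs_le]
    have hmono : Real.posLog (w / d) ≤ Real.posLog (y / d) := by
      apply Real.posLog_le_posLog
      · have : 0 ≤ w / d := by positivity
        linarith
      · gcongr
    have hsub : Real.posLog (y / d) ≤ Real.log (y / w) + Real.posLog (w / d) := by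
      have h2 : y / d = (y / w) * (w / d) := by
        have : w ≠ 0 := by linarith
        field_simp
      rw [h2]
      refine Real.posLog_mul.trans ?_
      rw [Real.posLog_eq_log (x := y / w)]
      rw [abs_of_nonneg (by
        have : 0 < w := by linarith
        have : 0 < y := by linarith
        positivity), le_div_iff₀ (by linarith)]
      linarith
    constructor <;> linarith
  calc _ ≤ (1:ℝ) * 1 := by gcongr
    _ = 1 := by norm_num

/-- `Y_q = ∑_{q | d} λ_d d^(-1-κ)`. -/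
noncomputable def Yq (w y κ : ℝ) (q : ℕ) : ℝ :=
  ∑ d ∈ (Ioc 0 ⌊y⌋₊).filter (fun d => q ∣ d), lam w y d * (1 / (d:ℝ) * (d:ℝ) ^ (-κ))

lemma lam_eq_zero_of_not_squarefree {d : ℕ} (hd : ¬ Squarefree d) : lam w y d = 0 := by
  unfold lam
  rw [moebius_eq_zero_of_not_squarefree hd]
  simp

lemma Yq_of_not_squarefree {κ : ℝ} {q : ℕ} (hq : ¬ Squarefree q) : Yq w y κ q = 0 := by
  unfold Yq
  refine Finset.sum_eq_zero fun d hd => ?_
  simp only [mem_filter, mem_Ioc] at hd
  rw [lam_eq_zero_of_not_squarefree, zero_mul]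
  intro h
  exact hq (h.squarefree_of_dvd hd.2)

lemma msetK_eq_sum_posLog (S : Finset ℕ) {κ : ℝ} {N : ℕ} {u : ℝ} (hu : 0 ≤ u) (hN : ⌊u⌋₊ ≤ N) :
    ∑ m ∈ (Ioc 0 N).filter (fun m => ∀ p ∈ S, ¬ p ∣ m),
      (μ m : ℝ) / m * ((m:ℝ) ^ (-κ) * Real.posLog (u / m)) = msetK S κ u := by
  unfold msetK
  symm
  have hsub : (Ioc 0 ⌊u⌋₊).filter (fun m => ∀ p ∈ S, ¬ p ∣ m) ⊆
      (Ioc 0 N).filter (fun m => ∀ p ∈ S, ¬ p ∣ m) := by
    apply Finset.filter_subset_filter
    intro x hx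
    simp only [mem_Ioc] at hx ⊢
    exact ⟨hx.1, hx.2.trans hN⟩
  rw [← Finset.sum_subset hsub]
  · refine Finset.sum_congr rfl fun m hm => ?_
    simp only [mem_filter, mem_Ioc] at hm
    have hmu : (m:ℝ) ≤ u := (Nat.le_floor_iff hu).mp hm.1.2
    rw [posLog_div_eq hm.1.1 hmu]
  · intro m hm hm2
    simp only [mem_filter, mem_Ioc, not_and] at hm hm2
    have hmu : u < m := by
      by_contra h
      push Not at h
      have := (Nat.le_floor_iff hu).mpr h
      exact hm2 ⟨hm.1.1, this⟩ hm.2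
    rw [posLog_div_eq_zero hm.1.1 hu hmu.le, mul_zero, mul_zero]

lemma Yq_eq (hw : 1 ≤ w) (hwy : w < y) {κ : ℝ} {q : ℕ} (hq : Squarefree q) :
    Yq w y κ q = (μ q : ℝ) / q * (q:ℝ) ^ (-κ) / Real.log (y / w)
      * (msetK q.primeFactors κ (y / q) - msetK q.primeFactors κ (w / q)) := by
  have hq0 : 0 < q := Nat.pos_of_ne_zero hq.ne_zero
  have hqr : (0:ℝ) < q := by exact_mod_cast hq0
  have hy0 : 0 ≤ y := by linarith
  set N := ⌊y / q⌋₊ with hN
  have hNw : ⌊w / q⌋₊ ≤ N := Nat.floor_le_floor (by gcongr)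
  rw [← msetK_eq_sum_posLog q.primeFactors (by positivity) (le_refl N),
    ← msetK_eq_sum_posLog q.primeFactors (by positivity) hNw, ← Finset.sum_sub_distrib,
    Finset.mul_sum]
  unfold Yq
  symm
  have hinj : Set.InjOn (fun m => q * m)
      ((Ioc 0 N).filter (fun m => ∀ p ∈ q.primeFactors, ¬ p ∣ m) : Set ℕ) := by
    intro a _ b _ hab
    exact Nat.eq_of_mul_eq_mul_left hq0 hab
  have hsub := Finset.sum_subset (s₁ := ((Ioc 0 N).filter
    (fun m => ∀ p ∈ q.primeFactors, ¬ p ∣ m)).image (fun m => q * m))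
    (s₂ := (Ioc 0 ⌊y⌋₊).filter (fun d => q ∣ d))
    (f := fun d : ℕ => lam w y d * (1 / (d:ℝ) * (d:ℝ) ^ (-κ))) ?_ ?_
  · rw [← hsub, Finset.sum_image hinj]
    refine Finset.sum_congr rfl fun m hm => ?_
    simp only [mem_filter, mem_Ioc] at hm
    have hcop : Nat.Coprime q m := by
      rw [Nat.Coprime, ← Nat.coprime_iff_gcd_eq_one]
      exact Nat.coprime_of_dvd fun p hp hpq hpm =>
        hm.2 p (Nat.mem_primeFactors.mpr ⟨hp, hpq, hq.ne_zero⟩) hpm
    have hm0 : (0:ℝ) < m := by exact_mod_cast hm.1.1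
    unfold lam
    rw [isMultiplicative_moebius.map_mul_of_coprime hcop]
    push_cast
    rw [Real.mul_rpow hqr.le hm0.le, ← div_div, ← div_div]
    field_simp
  · intro d hd
    simp only [mem_image, mem_filter, mem_Ioc] at hd ⊢
    obtain ⟨m, ⟨⟨hm1, hm2⟩, hm3⟩, rfl⟩ := hd
    refine ⟨⟨Nat.mul_pos hq0 hm1, ?_⟩, Dvd.intro _ rfl⟩
    rw [hN, Nat.floor_div_natCast] at hm2
    calc q * m ≤ q * (⌊y⌋₊ / q) := Nat.mul_le_mul_left _ hm2
      _ ≤ ⌊y⌋₊ := Nat.mul_div_le _ _
  · intro d hd hd2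
    simp only [mem_image, mem_filter, mem_Ioc] at hd hd2
    obtain ⟨⟨hd1, hd3⟩, m, rfl⟩ := hd
    rw [lam_eq_zero_of_not_squarefree, zero_mul]
    intro hsq
    apply hd2
    refine ⟨m, ⟨⟨?_, ?_⟩, ?_⟩, rfl⟩
    · exact Nat.pos_of_ne_zero (by rintro rfl; simp at hd1)
    · rw [hN, Nat.floor_div_natCast]
      exact (Nat.le_div_iff_mul_le hq0).mpr (by rw [mul_comm]; exact hd3)
    · intro p hp hpm
      have hpp : p * p ∣ q * m := Nat.mul_dvd_mul (Nat.dvd_of_mem_primeFactors hp) hpm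
      have := hsq p hpp
      exact (Nat.prime_of_mem_primeFactors hp).one_lt.ne' (Nat.isUnit_iff.mp this)

lemma msetK_of_lt_one (S : Finset ℕ) {κ z : ℝ} (hz : z < 1) : msetK S κ z = 0 := by
  have : ⌊z⌋₊ = 0 := Nat.floor_eq_zero.mpr hz
  simp [msetK, this]

lemma abs_Yq_le (hw : 1 ≤ w) (hwy : w < y) {κ : ℝ} (hκ : 0 ≤ κ) {q : ℕ} (hq : Squarefree q) :
    |Yq w y κ q| ≤ 8 * (1 + κ * Real.log y) / Real.log (y / w) *
      (1 / (q:ℝ) * (q:ℝ) ^ (-κ) * eulerFac q.primeFactors) := by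
  have hq0 : 0 < q := Nat.pos_of_ne_zero hq.ne_zero
  have hqr : (0:ℝ) < q := by exact_mod_cast hq0
  have hq1 : (1:ℝ) ≤ q := by exact_mod_cast hq0
  have hL := log_div_pos hw hwy
  have hy1 : 1 ≤ y := by linarith
  have hprime : ∀ r ∈ q.primeFactors, r.Prime := fun r hr => Nat.prime_of_mem_primeFactors hr
  have hE := eulerFac_nonneg hprime
  have hly : 0 ≤ Real.log y := Real.log_nonneg hy1
  have hbound : ∀ z : ℝ, z ≤ y → |msetK q.primeFactors κ z| ≤
      4 * eulerFac q.primeFactors * (1 + κ * Real.log y) := by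
    intro z hz
    rcases lt_or_ge z 1 with h1 | h1
    · rw [msetK_of_lt_one _ h1, abs_zero]; positivity
    · refine (abs_msetK_le hprime hκ h1).trans ?_
      have : Real.log z ≤ Real.log y := Real.log_le_log (by linarith) hz
      gcongr
  have hyq : y / q ≤ y := div_le_self (by linarith) hq1
  have hwq : w / q ≤ y := (div_le_self (by linarith) hq1).trans hwy.le
  rw [Yq_eq hw hwy hq, abs_mul, abs_div, abs_mul, abs_div, abs_of_pos hL, abs_of_pos hqr,
    abs_of_nonneg (show (0:ℝ) ≤ (q:ℝ) ^ (-κ) by positivity)]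
  have hμ : |(μ q : ℝ)| ≤ 1 := by exact_mod_cast abs_moebius_le_one (n := q)
  have hsub : |msetK q.primeFactors κ (y / q) - msetK q.primeFactors κ (w / q)| ≤
      8 * eulerFac q.primeFactors * (1 + κ * Real.log y) := by
    calc _ ≤ |msetK q.primeFactors κ (y / q)| + |msetK q.primeFactors κ (w / q)| := abs_sub _ _
      _ ≤ _ := by
        have h1 := hbound _ hyq
        have h2 := hbound _ hwq
        linarith
  calc |(μ q : ℝ)| / q * (q:ℝ) ^ (-κ) / Real.log (y / w) *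
        |msetK q.primeFactors κ (y / q) - msetK q.primeFactors κ (w / q)|
      ≤ 1 / q * (q:ℝ) ^ (-κ) / Real.log (y / w) *
        (8 * eulerFac q.primeFactors * (1 + κ * Real.log y)) := by gcongr
    _ = _ := by ring

/-- Key bound for the diagonal form. -/
lemma sum_sigma_Yq_sq_le (hw : 1 ≤ w) (hwy : w < y) {κ : ℝ} (hκ : 0 ≤ κ) :
    ∑ q ∈ Ioc 0 ⌊y⌋₊, (σ 1 q : ℝ) * (Yq w y κ q) ^ 2 ≤
      (8 * (1 + κ * Real.log y) / Real.log (y / w)) ^ 2 *
        (Real.exp 14 * (1 + Real.log y)) := by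
  have hy1 : 1 ≤ y := by linarith
  have hN : 1 ≤ ⌊y⌋₊ := Nat.le_floor (by simpa using hy1)
  have hlog : Real.log (⌊y⌋₊ : ℝ) ≤ Real.log y :=
    Real.log_le_log (by exact_mod_cast hN) (Nat.floor_le (by linarith))
  have h1 : ∑ q ∈ Ioc 0 ⌊y⌋₊, (σ 1 q : ℝ) * (Yq w y κ q) ^ 2
      = ∑ q ∈ (Ioc 0 ⌊y⌋₊).filter Squarefree, (σ 1 q : ℝ) * (Yq w y κ q) ^ 2 := by
    rw [Finset.sum_filter]
    refine Finset.sum_congr rfl fun q _ => ?_
    split_ifs with h
    · rfl
    · rw [Yq_of_not_squarefree h]; simp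
  rw [h1]
  calc ∑ q ∈ (Ioc 0 ⌊y⌋₊).filter Squarefree, (σ 1 q : ℝ) * (Yq w y κ q) ^ 2
      ≤ ∑ q ∈ (Ioc 0 ⌊y⌋₊).filter Squarefree,
        (8 * (1 + κ * Real.log y) / Real.log (y / w)) ^ 2 *
          ((σ 1 q : ℝ) * ((1 / (q:ℝ)) ^ 2 * eulerFac q.primeFactors ^ 2)) := by
        refine Finset.sum_le_sum fun q hq => ?_
        simp only [mem_filter, mem_Ioc] at hq
        have hqr : (0:ℝ) < q := by exact_mod_cast hq.1.1
        have hq1 : (1:ℝ) ≤ q := by exact_mod_cast hq.1.1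
        have hb := abs_Yq_le hw hwy hκ hq.2
        have hE := eulerFac_nonneg (S := q.primeFactors)
          fun r hr => Nat.prime_of_mem_primeFactors hr
        have hsq : (Yq w y κ q) ^ 2 ≤ (8 * (1 + κ * Real.log y) / Real.log (y / w)) ^ 2 *
            ((1 / (q:ℝ)) ^ 2 * eulerFac q.primeFactors ^ 2) := by
          rw [← sq_abs (Yq w y κ q)]
          have hL := log_div_pos hw hwy
          have hly : 0 ≤ Real.log y := Real.log_nonneg hy1
          have hqk : (q:ℝ) ^ (-κ) ≤ 1 := Real.rpow_le_one_of_one_le_of_nonpos hq1 (by linarith)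
          have h3 : |Yq w y κ q| ≤ 8 * (1 + κ * Real.log y) / Real.log (y / w) *
              (1 / (q:ℝ) * eulerFac q.primeFactors) := by
            refine hb.trans ?_
            refine mul_le_mul_of_nonneg_left ?_ (by positivity)
            calc 1 / (q:ℝ) * (q:ℝ) ^ (-κ) * eulerFac q.primeFactors
                ≤ 1 / (q:ℝ) * 1 * eulerFac q.primeFactors := by gcongr
              _ = _ := by ring
          calc |Yq w y κ q| ^ 2 ≤ (8 * (1 + κ * Real.log y) / Real.log (y / w) *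
              (1 / (q:ℝ) * eulerFac q.primeFactors)) ^ 2 := by gcongr
            _ = _ := by ring
        calc (σ 1 q : ℝ) * (Yq w y κ q) ^ 2
            ≤ (σ 1 q : ℝ) * ((8 * (1 + κ * Real.log y) / Real.log (y / w)) ^ 2 *
            ((1 / (q:ℝ)) ^ 2 * eulerFac q.primeFactors ^ 2)) := by gcongr
          _ = _ := by ring
    _ = (8 * (1 + κ * Real.log y) / Real.log (y / w)) ^ 2 *
        ∑ q ∈ (Ioc 0 ⌊y⌋₊).filter Squarefree,
          ((σ 1 q : ℝ) * ((1 / (q:ℝ)) ^ 2 * eulerFac q.primeFactors ^ 2)) := by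
        rw [Finset.mul_sum]
    _ ≤ _ := by
        refine mul_le_mul_of_nonneg_left ?_ (by positivity)
        refine (sum_sigma_eulerFac_le _ hN).trans ?_
        gcongr

end

end Pool.Agent.PC10
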