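import Mathlib
import Pool.Agent.PC10.Weights
import Pool.Agent.PC10.Diag

/-!
# The Barban-Vehov type bound `∑ a_n² n^(-1-κ) = O(1)`
-/

namespace Pool.Agent.PC10

open Finset ArithmeticFunction
open scoped ArithmeticFunction.Moebius ArithmeticFunction.zeta ArithmeticFunction.sigma

/-- Coefficients of `ζ(s) M(s)`. -/
noncomputable def av (w y : ℝ) (n : ℕ) : ℝ :=
  ∑ d ∈ (Ioc 0 ⌊y⌋₊).filter (fun d => d ∣ n), lam w y d

lemma av_one {w y : ℝ} (hw : 1 ≤ w) (hwy : w < y) : av w y 1 = 1 := by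
  unfold av
  have h1 : (Ioc 0 ⌊y⌋₊).filter (fun d => d ∣ 1) = {1} := by
    ext d
    simp only [mem_filter, mem_Ioc, Nat.dvd_one, mem_singleton]
    constructor
    · exact fun h => h.2
    · rintro rfl
      exact ⟨⟨one_pos, Nat.le_floor (by push_cast; linarith)⟩, rfl⟩
  rw [h1, Finset.sum_singleton, lam_one hw hwy]

lemma av_eq_zero {w y : ℝ} (hw : 1 ≤ w) (hwy : w < y) {n : ℕ} (hn : 2 ≤ n) (hnw : (n:ℝ) ≤ w) :
    av w y n = 0 := by
  unfold av
  have h1 : (Ioc 0 ⌊y⌋₊).filter (fun d => d ∣ n) = n.divisors := by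
    ext d
    simp only [mem_filter, mem_Ioc, Nat.mem_divisors]
    constructor
    · exact fun h => ⟨h.2, by omega⟩
    · intro h
      have hdn := Nat.le_of_dvd (by omega) h.1
      refine ⟨⟨Nat.pos_of_dvd_of_pos h.1 (by omega), Nat.le_floor ?_⟩, h.1⟩
      have : (d:ℝ) ≤ n := by exact_mod_cast hdn
      linarith
  rw [h1]
  have h2 : ∑ d ∈ n.divisors, lam w y d = ∑ d ∈ n.divisors, (μ d : ℝ) := by
    refine Finset.sum_congr rfl fun d hd => ?_
    rw [Nat.mem_divisors] at hd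
    have hdn := Nat.le_of_dvd (by omega) hd.1
    have : (d:ℝ) ≤ n := by exact_mod_cast hdn
    exact lam_of_le hw hwy (Nat.pos_of_dvd_of_pos hd.1 (by omega)) (by linarith)
  rw [h2]
  have h5 := congrArg (fun F : ArithmeticFunction ℝ => F n) (coe_moebius_mul_coe_zeta (R := ℝ))
  simp only [ArithmeticFunction.mul_apply, ArithmeticFunction.one_apply] at h5
  rw [if_neg (by omega)] at h5
  rw [← h5]
  have h6 := Nat.sum_divisorsAntidiagonal (f := fun a _ => (μ a : ℝ)) (n := n)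
  rw [← h6]
  refine Finset.sum_congr rfl fun x hx => ?_
  rw [Nat.mem_divisorsAntidiagonal] at hx
  have h2 : x.2 ≠ 0 := by
    rintro h; rw [h] at hx; simp at hx; omega
  simp [natCoe_apply, zeta_apply, h2, intCoe_apply]

lemma tsum_rpow_le {κ : ℝ} (hκ : 0 < κ) :
    ∑' n : ℕ, (n:ℝ) ^ (-(1 + κ)) ≤ 1 + 1 / κ := by
  have hs : Summable (fun n : ℕ => (n:ℝ) ^ (-(1 + κ))) :=
    Real.summable_nat_rpow.mpr (by linarith)
  apply Real.tsum_le_of_sum_range_le (fun n => by positivity)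
  intro n
  have h1 : ∑ i ∈ range (n + 2), (i:ℝ) ^ (-(1 + κ)) ≤ 1 + 1 / κ := by
    rw [Finset.sum_range_succ', Finset.sum_range_succ']
    have h0 : ((0:ℕ):ℝ) ^ (-(1 + κ)) = 0 := by
      rw [Nat.cast_zero, Real.zero_rpow (by linarith)]
    rw [h0]
    have h2 := AntitoneOn.sum_le_integral (x₀ := 1) (a := n)
      (f := fun x : ℝ => x ^ (-(1 + κ))) (by
        intro a ha b hb hab
        simp only
        exact Real.rpow_le_rpow_of_nonpos (by linarith [ha.1]) hab (by linarith))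
    rw [integral_rpow (Or.inr ⟨by linarith, by
      rw [Set.uIcc_of_le (by linarith [show (0:ℝ) ≤ n by positivity])]
      intro h; linarith [h.1]⟩)] at h2
    have h3 : ∑ k ∈ range n, ((k + 1 + 1 : ℕ):ℝ) ^ (-(1 + κ))
        = ∑ i ∈ range n, (1 + ((i + 1 : ℕ):ℝ)) ^ (-(1 + κ)) := by
      refine Finset.sum_congr rfl fun i _ => ?_
      congr 1; push_cast; ring
    rw [h3]
    refine le_trans (add_le_add_left (add_le_add_left h2 _) _) ?_
    have h4 : (-(1 + κ) + 1) = -κ := by ring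
    rw [h4]
    have h5 : 0 ≤ (1 + (n:ℝ)) ^ (-κ) := by positivity
    have h6 : (((1 + (n:ℝ)) ^ (-κ)) - (1:ℝ) ^ (-κ)) / (-κ) ≤ 1 / κ := by
      rw [Real.one_rpow, div_neg, ← neg_div]
      gcongr
      linarith
    rw [Real.one_rpow] at h6
    simp only [zero_add, Nat.cast_one, Real.one_rpow, add_zero]
    linarith
  refine le_trans ?_ h1
  apply Finset.sum_le_sum_of_subset_of_nonneg
  · intro i hi; simp at hi ⊢; omega
  · intro i _ _; positivity

lemma tsum_dvd {κ : ℝ} (hκ : 0 < κ) {l : ℕ} (hl : 0 < l) :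
    ∑' n : ℕ, (if l ∣ n then (n:ℝ) ^ (-(1 + κ)) else 0)
      = (l:ℝ) ^ (-(1 + κ)) * ∑' n : ℕ, (n:ℝ) ^ (-(1 + κ)) := by
  have hinj : Function.Injective (fun m : ℕ => l * m) := fun a b h =>
    Nat.eq_of_mul_eq_mul_left hl h
  rw [← hinj.tsum_eq]
  · rw [← tsum_mul_left]
    refine tsum_congr fun m => ?_
    simp only [dvd_mul_right, if_true]
    push_cast
    rw [Real.mul_rpow (by positivity) (by positivity)]
  · intro n hn
    simp only [Function.mem_support, ne_eq, ite_eq_right_iff, Classical.not_imp] at hn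
    obtain ⟨m, rfl⟩ := hn.1
    exact ⟨m, rfl⟩

lemma summable_dvd {κ : ℝ} (hκ : 0 < κ) (l : ℕ) :
    Summable (fun n : ℕ => if l ∣ n then (n:ℝ) ^ (-(1 + κ)) else 0) := by
  refine Summable.of_nonneg_of_le (fun n => ?_) (fun n => ?_)
    (Real.summable_nat_rpow.mpr (show -(1 + κ) < -1 by linarith))
  · split_ifs <;> positivity
  · split_ifs
    · exact le_rfl
    · positivity

lemma av_sq_eq {w y : ℝ} (n : ℕ) :
    (av w y n) ^ 2 = ∑ d ∈ Ioc 0 ⌊y⌋₊, ∑ d' ∈ Ioc 0 ⌊y⌋₊,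
      lam w y d * lam w y d' * (if Nat.lcm d d' ∣ n then 1 else 0) := by
  unfold av
  rw [sq, Finset.sum_filter, Finset.sum_mul_sum]
  refine Finset.sum_congr rfl fun d _ => Finset.sum_congr rfl fun d' _ => ?_
  by_cases h3 : d ∣ n <;> by_cases h4 : d' ∣ n <;> simp [h3, h4, Nat.lcm_dvd_iff]

lemma lcm_rpow {κ : ℝ} {d d' : ℕ} (hd : 0 < d) (hd' : 0 < d') :
    ((Nat.lcm d d' : ℕ) : ℝ) ^ (-(1 + κ)) =
      (1 / (d:ℝ) * (d:ℝ) ^ (-κ)) * (1 / (d':ℝ) * (d':ℝ) ^ (-κ)) *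
        ((Nat.gcd d d' : ℕ) : ℝ) ^ (1 + κ) := by
  have hdr : (0:ℝ) < d := by exact_mod_cast hd
  have hdr' : (0:ℝ) < d' := by exact_mod_cast hd'
  have hg : 0 < Nat.gcd d d' := Nat.gcd_pos_of_pos_left _ hd
  have hgr : (0:ℝ) < (Nat.gcd d d' : ℕ) := by exact_mod_cast hg
  have hlcm : 0 < Nat.lcm d d' := Nat.lcm_pos hd hd'
  have hlr : (0:ℝ) < (Nat.lcm d d' : ℕ) := by exact_mod_cast hlcm
  have h1 : ((Nat.gcd d d' : ℕ) : ℝ) * ((Nat.lcm d d' : ℕ) : ℝ) = d * d' := by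
    exact_mod_cast Nat.gcd_mul_lcm d d'
  have h2 : ((Nat.lcm d d' : ℕ) : ℝ) = (d * d') / ((Nat.gcd d d' : ℕ) : ℝ) := by
    rw [← h1]; field_simp
  have h3 : ∀ x : ℝ, 0 < x → 1 / x * x ^ (-κ) = x ^ (-(1 + κ)) := by
    intro x hx
    rw [neg_add, Real.rpow_add hx, Real.rpow_neg_one, one_div]
  rw [h2, h3 _ hdr, h3 _ hdr', Real.div_rpow (by positivity) (by positivity),
    Real.mul_rpow hdr.le hdr'.le, div_eq_mul_inv, ← Real.rpow_neg (by positivity), neg_neg]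

/-- NT1. -/
lemma sum_av_sq_le {w y : ℝ} (hw : 1 ≤ w) (hwy : w < y) {κ : ℝ} (hκ : 0 < κ) (N : ℕ) :
    ∑ n ∈ Ioc 0 N, (av w y n) ^ 2 * (n:ℝ) ^ (-(1 + κ)) ≤
      (1 + 1 / κ) * (y ^ κ * ((8 * (1 + κ * Real.log y) / Real.log (y / w)) ^ 2 *
        (Real.exp 14 * (1 + Real.log y)))) := by
  have hy1 : 1 ≤ y := by linarith
  set Z := ∑' n : ℕ, (n:ℝ) ^ (-(1 + κ)) with hZ
  have hZ0 : 0 ≤ Z := tsum_nonneg fun n => by positivity
  set D := ⌊y⌋₊ with hD
  have hterm : ∀ n : ℕ, (av w y n) ^ 2 * (n:ℝ) ^ (-(1 + κ)) =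
      ∑ d ∈ Ioc 0 D, ∑ d' ∈ Ioc 0 D, lam w y d * lam w y d' *
        (if Nat.lcm d d' ∣ n then (n:ℝ) ^ (-(1 + κ)) else 0) := by
    intro n
    rw [av_sq_eq, Finset.sum_mul]
    refine Finset.sum_congr rfl fun d _ => ?_
    rw [Finset.sum_mul]
    refine Finset.sum_congr rfl fun d' _ => ?_
    split_ifs <;> simp
  have hsum2 : ∀ d ∈ Ioc 0 D, ∀ d' ∈ Ioc 0 D, Summable (fun n : ℕ => lam w y d * lam w y d' *
        (if Nat.lcm d d' ∣ n then (n:ℝ) ^ (-(1 + κ)) else 0)) := fun d _ d' _ =>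
    (summable_dvd hκ _).mul_left _
  have hsum1 : ∀ d ∈ Ioc 0 D, Summable (fun n : ℕ => ∑ d' ∈ Ioc 0 D, lam w y d * lam w y d' *
        (if Nat.lcm d d' ∣ n then (n:ℝ) ^ (-(1 + κ)) else 0)) := fun d hd =>
    summable_sum fun d' hd' => hsum2 d hd d' hd'
  have hsum : Summable (fun n : ℕ => (av w y n) ^ 2 * (n:ℝ) ^ (-(1 + κ))) := by
    simp_rw [hterm]
    exact summable_sum fun d hd => hsum1 d hd
  have h1 : ∑' n : ℕ, (av w y n) ^ 2 * (n:ℝ) ^ (-(1 + κ)) =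
      Z * ∑ d ∈ Ioc 0 D, ∑ d' ∈ Ioc 0 D,
        (lam w y d * (1 / (d:ℝ) * (d:ℝ) ^ (-κ))) * (lam w y d' * (1 / (d':ℝ) * (d':ℝ) ^ (-κ))) *
        ((Nat.gcd d d' : ℕ) : ℝ) ^ (1 + κ) := by
    simp_rw [hterm]
    rw [Summable.tsum_finsetSum hsum1, Finset.mul_sum]
    refine Finset.sum_congr rfl fun d hd => ?_
    rw [Summable.tsum_finsetSum (hsum2 d hd), Finset.mul_sum]
    refine Finset.sum_congr rfl fun d' hd' => ?_
    simp only [mem_Ioc] at hd hd'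
    rw [tsum_mul_left, tsum_dvd hκ (Nat.lcm_pos hd.1 hd'.1), lcm_rpow hd.1 hd'.1]
    ring
  have h2 : ∑ n ∈ Ioc 0 N, (av w y n) ^ 2 * (n:ℝ) ^ (-(1 + κ)) ≤
      ∑' n : ℕ, (av w y n) ^ 2 * (n:ℝ) ^ (-(1 + κ)) :=
    hsum.sum_le_tsum _ fun n _ => by positivity
  refine h2.trans ?_
  rw [h1]
  have h3 := abs_quad_le (x := fun d => lam w y d * (1 / (d:ℝ) * (d:ℝ) ^ (-κ)))
    (K := fun e => (e:ℝ) ^ (1 + κ)) (N := D) (A := y ^ κ) (by positivity) (by
      intro e he heN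
      have he0 : (0:ℝ) < e := by exact_mod_cast he
      have hey : (e:ℝ) ≤ y := (Nat.le_floor_iff (by linarith)).mp heN
      show |(e:ℝ) ^ (1 + κ)| ≤ y ^ κ * e
      rw [abs_of_nonneg (by positivity), Real.rpow_add he0, Real.rpow_one, mul_comm]
      gcongr)
  have h4 := (le_abs_self _).trans h3
  refine mul_le_mul (tsum_rpow_le hκ) (h4.trans ?_) ?_ (by positivity)
  · refine mul_le_mul_of_nonneg_left ?_ (by positivity)
    exact sum_sigma_Yq_sq_le hw hwy hκ.le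
  · rcases hZ0.eq_or_lt with h | h
    · have : 0 ≤ ∑' n : ℕ, (av w y n) ^ 2 * (n:ℝ) ^ (-(1 + κ)) :=
        tsum_nonneg fun n => by positivity
      rw [h1, ← h] at this
      exfalso
      have hone : (1:ℝ) ≤ Z := by
        rw [hZ]
        have := (Real.summable_nat_rpow.mpr (show -(1 + κ) < -1 by linarith)).sum_le_tsum
          {1} (fun n _ => by positivity)
        simpa using this
      linarith
    · have : 0 ≤ ∑' n : ℕ, (av w y n) ^ 2 * (n:ℝ) ^ (-(1 + κ)) :=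
        tsum_nonneg fun n => by positivity
      rw [h1] at this
      exact nonneg_of_mul_nonneg_right this h

end Pool.Agent.PC10
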