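import Mathlib
import Pool.Agent.PC10.SeriesBound

/-!
# Variance of `a_n` in short intervals of integers
-/

namespace Pool.Agent.PC10

open Finset ArithmeticFunction
open scoped ArithmeticFunction.Moebius ArithmeticFunction.zeta ArithmeticFunction.sigma

/-- number of multiples of `d` in `(n, n+h]` -/
noncomputable def cnt (h d n : ℕ) : ℝ := ∑ m ∈ Ioc n (n + h), if d ∣ m then (1:ℝ) else 0

lemma sum_dvd_Ioc {d : ℕ} (a b : ℕ) (hab : a ≤ b) :
    ∑ m ∈ Ioc a b, (if d ∣ m then (1:ℝ) else 0) = ((b / d : ℕ) : ℝ) - ((a / d : ℕ) : ℝ) := by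
  have h0 : ∀ N : ℕ, ∑ m ∈ Ioc 0 N, (if d ∣ m then (1:ℝ) else 0) = ((N / d : ℕ) : ℝ) := by
    intro N
    rw [← Finset.sum_filter]
    simp only [sum_const, nsmul_eq_mul, mul_one]
    rw [Nat.Ioc_filter_dvd_card_eq_div]
  rw [← h0 b, ← h0 a, ← Finset.sum_sdiff (s₁ := Ioc 0 a) (s₂ := Ioc 0 b)]
  · have : Ioc 0 b \ Ioc 0 a = Ioc a b := by
      ext x; simp; omega
    rw [this]; ring
  · intro x hx; simp at hx ⊢; omega

lemma cnt_eq (h d n : ℕ) : cnt h d n = (((n + h) / d : ℕ) : ℝ) - ((n / d : ℕ) : ℝ) :=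
  sum_dvd_Ioc n (n + h) (Nat.le_add_right _ _)

lemma abs_cnt_sub_le {d : ℕ} (hd : 0 < d) (h n : ℕ) : |cnt h d n - h / d| ≤ 1 := by
  rw [cnt_eq]
  have hdr : (0:ℝ) < d := by exact_mod_cast hd
  have hfl : ∀ N : ℕ, ((N / d : ℕ) : ℝ) = ⌊(N : ℝ) / d⌋₊ := by
    intro N
    rw [Nat.floor_div_natCast, Nat.floor_natCast]
  rw [hfl, hfl, abs_le]
  have h1 := Nat.floor_le (show (0:ℝ) ≤ ((n+h : ℕ):ℝ)/d by positivity)
  have h2 := (Nat.lt_floor_add_one (((n+h : ℕ):ℝ)/d)).le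
  have h3 := Nat.floor_le (show (0:ℝ) ≤ (n:ℝ)/d by positivity)
  have h4 := (Nat.lt_floor_add_one ((n:ℝ)/d)).le
  have h5 : ((n+h : ℕ):ℝ)/d = (n:ℝ)/d + h/d := by push_cast; ring
  constructor <;> linarith

lemma cnt_add_period {d P : ℕ} (hd : 0 < d) (hP : d ∣ P) (h n : ℕ) :
    cnt h d (n + P) = cnt h d n := by
  rw [cnt_eq, cnt_eq]
  obtain ⟨k, rfl⟩ := hP
  have h1 : n + d * k + h = n + h + d * k := by ring
  rw [h1, Nat.add_mul_div_left _ _ hd, Nat.add_mul_div_left _ _ hd]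
  push_cast
  ring

lemma cnt_eq_sum (h d n : ℕ) : cnt h d n = ∑ i ∈ Ioc 0 h, if d ∣ n + i then (1:ℝ) else 0 := by
  unfold cnt
  have : Ioc n (n + h) = (Ioc 0 h).map (addLeftEmbedding n) := by
    rw [Finset.map_add_left_Ioc]; simp
  rw [this, Finset.sum_map]
  rfl

lemma sum_range_dvd {d P i : ℕ} (hd : 0 < d) (hP : d ∣ P) (hi : 0 < i) :
    ∑ n ∈ range P, (if d ∣ n + i then (1:ℝ) else 0) = P / d := by
  have h1 : ∑ n ∈ range P, (if d ∣ n + i then (1:ℝ) else 0)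
      = ∑ m ∈ Ioc (i - 1) (i - 1 + P), (if d ∣ m then (1:ℝ) else 0) := by
    symm
    refine Finset.sum_bij' (fun m _ => m - i) (fun n _ => n + i) ?_ ?_ ?_ ?_ ?_
    · intro m hm; simp at hm ⊢; omega
    · intro m hm; simp at hm ⊢; omega
    · intro m hm; simp at hm ⊢; omega
    · intro m hm; simp at hm ⊢
    · intro m hm
      simp at hm
      have : m - i + i = m := by omega
      rw [this]
  rw [h1, sum_dvd_Ioc _ _ (Nat.le_add_right _ _)]
  obtain ⟨k, rfl⟩ := hP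
  rw [Nat.add_mul_div_left _ _ hd]
  have hdr : (d:ℝ) ≠ 0 := by exact_mod_cast hd.ne'
  push_cast
  field_simp
  ring

lemma sum_range_cnt {d P : ℕ} (hd : 0 < d) (hP : d ∣ P) (h : ℕ) :
    ∑ n ∈ range P, cnt h d n = h * (P / d) := by
  simp_rw [cnt_eq_sum]
  rw [Finset.sum_comm, Finset.sum_congr rfl (fun i hi => sum_range_dvd hd hP (by
    simp at hi; exact hi.1))]
  simp

lemma card_crt {d d' : ℕ} (hd : 0 < d) (hd' : 0 < d') (i j : ℕ) :
    ∑ n ∈ range (Nat.lcm d d'), (if d ∣ n + i ∧ d' ∣ n + j then (1:ℝ) else 0)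
      = if i ≡ j [MOD Nat.gcd d d'] then 1 else 0 := by
  have hlcm : 0 < Nat.lcm d d' := Nat.lcm_pos hd hd'
  split_ifs with hij
  · -- existence
    have ha : i * (d - 1) + i ≡ 0 [MOD d] := by
      rw [Nat.modEq_zero_iff_dvd]
      refine ⟨i, ?_⟩
      obtain ⟨e, rfl⟩ : ∃ e, d = e + 1 := ⟨d - 1, by omega⟩
      simp; ring
    have hb : j * (d' - 1) + j ≡ 0 [MOD d'] := by
      rw [Nat.modEq_zero_iff_dvd]
      refine ⟨j, ?_⟩
      obtain ⟨e, rfl⟩ : ∃ e, d' = e + 1 := ⟨d' - 1, by omega⟩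
      simp; ring
    have hab : i * (d - 1) ≡ j * (d' - 1) [MOD Nat.gcd d d'] := by
      have h1 := ha.of_dvd (Nat.gcd_dvd_left d d')
      have h2 := hb.of_dvd (Nat.gcd_dvd_right d d')
      have h3 := h1.trans h2.symm
      exact Nat.ModEq.add_right_cancel hij h3
    obtain ⟨k, hk1, hk2⟩ := Nat.chineseRemainder' hab
    set n0 := k % Nat.lcm d d' with hn0
    have hn0lt : n0 < Nat.lcm d d' := Nat.mod_lt _ hlcm
    have hn0k : n0 ≡ k [MOD Nat.lcm d d'] := Nat.mod_modEq _ _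
    have h1 : d ∣ n0 + i := by
      rw [← Nat.modEq_zero_iff_dvd]
      exact ((((hn0k.of_dvd (Nat.dvd_lcm_left d d')).trans hk1).add_right i)).trans ha
    have h2 : d' ∣ n0 + j := by
      rw [← Nat.modEq_zero_iff_dvd]
      exact ((((hn0k.of_dvd (Nat.dvd_lcm_right d d')).trans hk2).add_right j)).trans hb
    rw [Finset.sum_eq_single n0]
    · rw [if_pos ⟨h1, h2⟩]
    · intro n hn hne
      rw [if_neg]
      rintro ⟨h3, h4⟩
      apply hne
      have h5 : n ≡ n0 [MOD d] := by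
        apply Nat.ModEq.add_right_cancel' i
        exact ((Nat.modEq_zero_iff_dvd.mpr h3).trans (Nat.modEq_zero_iff_dvd.mpr h1).symm)
      have h6 : n ≡ n0 [MOD d'] := by
        apply Nat.ModEq.add_right_cancel' j
        exact ((Nat.modEq_zero_iff_dvd.mpr h4).trans (Nat.modEq_zero_iff_dvd.mpr h2).symm)
      have h7 : n ≡ n0 [MOD Nat.lcm d d'] := by
        have h8 := (Nat.modEq_iff_dvd.mp h5)
        have h9 := (Nat.modEq_iff_dvd.mp h6)
        rw [Nat.modEq_iff_dvd]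
        have := lcm_dvd h8 h9
        rw [← Int.coe_lcm] at this
        simpa using this
      exact Nat.ModEq.eq_of_lt_of_lt h7 (by simpa using hn) hn0lt
    · intro hn; simp at hn; omega
  · refine Finset.sum_eq_zero fun n _ => ?_
    rw [if_neg]
    rintro ⟨h3, h4⟩
    apply hij
    have h5 : n + i ≡ n + j [MOD Nat.gcd d d'] :=
      ((Nat.modEq_zero_iff_dvd.mpr h3).of_dvd (Nat.gcd_dvd_left d d')).trans
        ((Nat.modEq_zero_iff_dvd.mpr h4).of_dvd (Nat.gcd_dvd_right d d')).symm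
    exact Nat.ModEq.add_left_cancel' n h5

/-- number of pairs `(i,j)` in `[1,h]²` congruent mod `g` -/
noncomputable def pairC (h g : ℕ) : ℝ :=
  ∑ i ∈ Ioc 0 h, ∑ j ∈ Ioc 0 h, if i ≡ j [MOD g] then (1:ℝ) else 0

/-- kernel -/
noncomputable def Kh (h g : ℕ) : ℝ := g * pairC h g - (h:ℝ) ^ 2

lemma sum_range_cnt_mul {d d' : ℕ} (hd : 0 < d) (hd' : 0 < d') (h : ℕ) :
    ∑ n ∈ range (Nat.lcm d d'), cnt h d n * cnt h d' n = pairC h (Nat.gcd d d') := by
  have h1 : ∀ n, cnt h d n * cnt h d' n = ∑ i ∈ Ioc 0 h, ∑ j ∈ Ioc 0 h,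
      (if d ∣ n + i ∧ d' ∣ n + j then (1:ℝ) else 0) := by
    intro n
    rw [cnt_eq_sum, cnt_eq_sum, Finset.sum_mul_sum]
    refine Finset.sum_congr rfl fun i _ => Finset.sum_congr rfl fun j _ => ?_
    by_cases h3 : d ∣ n + i <;> by_cases h4 : d' ∣ n + j <;> simp [h3, h4]
  simp_rw [h1]
  rw [Finset.sum_comm]
  unfold pairC
  refine Finset.sum_congr rfl fun i _ => ?_
  rw [Finset.sum_comm]
  refine Finset.sum_congr rfl fun j _ => ?_
  exact card_crt hd hd' i j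

lemma abs_Kh_le {h g : ℕ} (hg : 1 ≤ g) : |Kh h g| ≤ h * g := by
  have hgr : (0:ℝ) < g := by exact_mod_cast hg
  -- for fixed i the count of j is within 1 of h/g
  have h1 : ∀ i : ℕ, |(g:ℝ) * (∑ j ∈ Ioc 0 h, if i ≡ j [MOD g] then (1:ℝ) else 0) - h| ≤ g := by
    intro i
    -- shift: i ≡ j mod g iff g ∣ j + c for c = i * (g-1)
    have h2 : ∑ j ∈ Ioc 0 h, (if i ≡ j [MOD g] then (1:ℝ) else 0) = cnt h g (i * (g - 1)) := by
      rw [cnt_eq_sum]
      refine Finset.sum_congr rfl fun j _ => ?_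
      have h3 : i ≡ j [MOD g] ↔ g ∣ i * (g - 1) + j := by
        rw [← Nat.modEq_zero_iff_dvd]
        have ha : i * (g - 1) + i ≡ 0 [MOD g] := by
          rw [Nat.modEq_zero_iff_dvd]
          refine ⟨i, ?_⟩
          obtain ⟨e, rfl⟩ : ∃ e, g = e + 1 := ⟨g - 1, by omega⟩
          simp; ring
        constructor
        · intro hij
          exact ((hij.symm.add_left _)).trans ha
        · intro hij
          exact Nat.ModEq.add_left_cancel' _ (ha.trans hij.symm)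
      simp only [h3]
    rw [h2]
    have h4 := abs_cnt_sub_le (d := g) hg h (i * (g - 1))
    have h5 : (g:ℝ) * cnt h g (i * (g - 1)) - h = g * (cnt h g (i * (g - 1)) - h / g) := by
      field_simp
    rw [h5, abs_mul, abs_of_pos hgr]
    calc (g:ℝ) * |cnt h g (i * (g - 1)) - h / g| ≤ g * 1 := by gcongr
      _ = g := mul_one _
  have h6 : Kh h g = ∑ i ∈ Ioc 0 h,
      ((g:ℝ) * (∑ j ∈ Ioc 0 h, if i ≡ j [MOD g] then (1:ℝ) else 0) - h) := by
    unfold Kh pairC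
    rw [Finset.sum_sub_distrib, ← Finset.mul_sum]
    simp
    ring
  rw [h6]
  refine (Finset.abs_sum_le_sum_abs _ _).trans ?_
  refine (Finset.sum_le_sum fun i _ => h1 i).trans ?_
  simp

lemma sum_Ico_period {f : ℕ → ℝ} {P : ℕ} (hper : ∀ n, f (n + P) = f n) (a : ℕ) :
    ∑ n ∈ Ico a (a + P), f n = ∑ n ∈ range P, f n := by
  induction a with
  | zero => simp
  | succ a ih =>
    rw [← ih]
    rcases Nat.eq_zero_or_pos P with rfl | hP
    · simp
    have h1 : ∑ n ∈ Ico a (a + P), f n = f a + ∑ n ∈ Ico (a + 1) (a + P), f n :=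
      Finset.sum_eq_sum_Ico_succ_bot (by omega) _
    have h2 : ∑ n ∈ Ico (a + 1) (a + 1 + P), f n
        = ∑ n ∈ Ico (a + 1) (a + P), f n + f (a + P) := by
      have : a + 1 + P = (a + P) + 1 := by ring
      rw [this, Finset.sum_Ico_succ_top (by omega)]
    rw [h1, h2, hper]
    ring

lemma periodic_sum {f : ℕ → ℝ} {P : ℕ} (hP : 0 < P) (hper : ∀ n, f (n + P) = f n)
    (hM : ∀ n, |f n| ≤ 1) (a L : ℕ) :
    |∑ n ∈ Ico a (a + L), f n - (L / P) * ∑ n ∈ range P, f n| ≤ 2 * P := by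
  have hPr : (0:ℝ) < P := by exact_mod_cast hP
  set S := ∑ n ∈ range P, f n with hS
  have hSb : |S| ≤ P := by
    refine (Finset.abs_sum_le_sum_abs _ _).trans ?_
    refine (Finset.sum_le_sum fun i _ => hM i).trans ?_
    simp
  have hblock : ∀ k : ℕ, ∑ n ∈ Ico a (a + P * k), f n = k * S := by
    intro k
    induction k with
    | zero => simp
    | succ k ih =>
      have h1 : a + P * (k + 1) = a + P * k + P := by ring
      rw [h1, ← Finset.sum_Ico_consecutive _ (Nat.le_add_right a (P * k)) (Nat.le_add_right _ P),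
        ih, sum_Ico_period hper]
      push_cast; ring
  have h1 : ∑ n ∈ Ico a (a + L), f n = (L / P : ℕ) * S
      + ∑ n ∈ Ico (a + P * (L / P)) (a + L), f n := by
    rw [← hblock, Finset.sum_Ico_consecutive _ (Nat.le_add_right _ _)]
    have := Nat.mul_div_le L P
    omega
  have h2 : |∑ n ∈ Ico (a + P * (L / P)) (a + L), f n| ≤ P := by
    refine (Finset.abs_sum_le_sum_abs _ _).trans ?_
    refine (Finset.sum_le_sum fun i _ => hM i).trans ?_
    simp only [sum_const, Nat.card_Ico, nsmul_eq_mul, mul_one]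
    have : a + L - (a + P * (L / P)) ≤ P := by
      have h3 := Nat.mod_lt L hP
      have h4 := Nat.div_add_mod L P
      omega
    exact_mod_cast this
  have h3 : |(((L / P : ℕ) : ℝ) - (L:ℝ) / P) * S| ≤ P := by
    rw [abs_mul]
    have h4 : |((L / P : ℕ) : ℝ) - (L:ℝ) / P| ≤ 1 := by
      have hfl : ((L / P : ℕ) : ℝ) = ⌊(L : ℝ) / P⌋₊ := by
        rw [Nat.floor_div_natCast, Nat.floor_natCast]
      rw [hfl, abs_le]
      have h5 := Nat.floor_le (show (0:ℝ) ≤ (L:ℝ)/P by positivity)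
      have h6 := (Nat.lt_floor_add_one ((L:ℝ)/P)).le
      constructor <;> linarith
    calc _ ≤ 1 * (P:ℝ) := by gcongr
      _ = P := one_mul _
  rw [h1]
  have h4 : ((L / P : ℕ) : ℝ) * S + ∑ n ∈ Ico (a + P * (L / P)) (a + L), f n - (L / P) * S
      = (((L / P : ℕ) : ℝ) - (L:ℝ) / P) * S + ∑ n ∈ Ico (a + P * (L / P)) (a + L), f n := by ring
  rw [h4]
  refine (abs_add_le _ _).trans ?_
  linarith

/-- `B = ∑ λ_d / d`. -/
noncomputable def Bv (w y : ℝ) : ℝ := ∑ d ∈ Ioc 0 ⌊y⌋₊, lam w y d / d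

lemma window_eq (w y : ℝ) (h n : ℕ) :
    ∑ m ∈ Ioc n (n + h), av w y m - h * Bv w y
      = ∑ d ∈ Ioc 0 ⌊y⌋₊, lam w y d * (cnt h d n - h / d) := by
  have h1 : ∑ m ∈ Ioc n (n + h), av w y m = ∑ d ∈ Ioc 0 ⌊y⌋₊, lam w y d * cnt h d n := by
    unfold av cnt
    simp_rw [Finset.sum_filter]
    rw [Finset.sum_comm]
    refine Finset.sum_congr rfl fun d _ => ?_
    rw [Finset.mul_sum]
    refine Finset.sum_congr rfl fun m _ => ?_
    split_ifs <;> simp
  rw [h1]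
  unfold Bv
  rw [Finset.mul_sum, ← Finset.sum_sub_distrib]
  refine Finset.sum_congr rfl fun d _ => ?_
  ring

/-- NT2: variance in short intervals. -/
theorem variance_le {w y : ℝ} (hw : 1 ≤ w) (hwy : w < y) (h a L : ℕ) :
    ∑ n ∈ Ico a (a + L), (∑ m ∈ Ioc n (n + h), av w y m - h * Bv w y) ^ 2 ≤
      L * (h * ((8 / Real.log (y / w)) ^ 2 * (Real.exp 14 * (1 + Real.log y)))) + 2 * y ^ 4 := by
  have hy1 : 1 ≤ y := by linarith
  set D := ⌊y⌋₊ with hD
  have hDy : (D:ℝ) ≤ y := Nat.floor_le (by linarith)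
  have h1 : ∀ n, (∑ m ∈ Ioc n (n + h), av w y m - h * Bv w y) ^ 2 =
      ∑ d ∈ Ioc 0 D, ∑ d' ∈ Ioc 0 D, lam w y d * lam w y d' *
        ((cnt h d n - h / d) * (cnt h d' n - h / d')) := by
    intro n
    rw [window_eq, sq, Finset.sum_mul_sum]
    refine Finset.sum_congr rfl fun d _ => Finset.sum_congr rfl fun d' _ => ?_
    ring
  simp_rw [h1]
  rw [Finset.sum_comm]
  have h2 : ∀ d ∈ Ioc 0 D, ∑ n ∈ Ico a (a + L), ∑ d' ∈ Ioc 0 D, lam w y d * lam w y d' *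
        ((cnt h d n - h / d) * (cnt h d' n - h / d'))
      = ∑ d' ∈ Ioc 0 D, lam w y d * lam w y d' * ∑ n ∈ Ico a (a + L),
        ((cnt h d n - h / d) * (cnt h d' n - h / d')) := by
    intro d _
    rw [Finset.sum_comm]
    refine Finset.sum_congr rfl fun d' _ => ?_
    rw [Finset.mul_sum]
  rw [Finset.sum_congr rfl h2]
  -- individual estimate
  have h3 : ∀ d ∈ Ioc 0 D, ∀ d' ∈ Ioc 0 D,
      |∑ n ∈ Ico a (a + L), ((cnt h d n - h / d) * (cnt h d' n - h / d'))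
        - L * ((1 / (d:ℝ)) * (1 / (d':ℝ)) * Kh h (Nat.gcd d d'))| ≤ 2 * y ^ 2 := by
    intro d hd d' hd'
    simp only [mem_Ioc] at hd hd'
    have hdr : (0:ℝ) < d := by exact_mod_cast hd.1
    have hdr' : (0:ℝ) < d' := by exact_mod_cast hd'.1
    have hdy : (d:ℝ) ≤ y := le_trans (by exact_mod_cast hd.2) hDy
    have hdy' : (d':ℝ) ≤ y := le_trans (by exact_mod_cast hd'.2) hDy
    have hlcm : 0 < Nat.lcm d d' := Nat.lcm_pos hd.1 hd'.1
    have hg : 0 < Nat.gcd d d' := Nat.gcd_pos_of_pos_left _ hd.1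
    have hgr : (0:ℝ) < (Nat.gcd d d' : ℕ) := by exact_mod_cast hg
    have hlr : (0:ℝ) < (Nat.lcm d d' : ℕ) := by exact_mod_cast hlcm
    have hgl : ((Nat.gcd d d' : ℕ) : ℝ) * ((Nat.lcm d d' : ℕ) : ℝ) = d * d' := by
      exact_mod_cast Nat.gcd_mul_lcm d d'
    have hp := periodic_sum (f := fun n => (cnt h d n - h / d) * (cnt h d' n - h / d'))
      hlcm (fun n => by
        rw [cnt_add_period hd.1 (Nat.dvd_lcm_left d d'),
          cnt_add_period hd'.1 (Nat.dvd_lcm_right d d')])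
      (fun n => by
        rw [abs_mul]
        calc _ ≤ (1:ℝ) * 1 := by
              gcongr
              · exact abs_cnt_sub_le hd.1 h n
              · exact abs_cnt_sub_le hd'.1 h n
          _ = 1 := one_mul _) a L
    have hS : ∑ n ∈ range (Nat.lcm d d'), ((cnt h d n - h / d) * (cnt h d' n - h / d'))
        = (1 / (Nat.gcd d d' : ℕ)) * Kh h (Nat.gcd d d') := by
      have h4 : ∀ n, (cnt h d n - h / d) * (cnt h d' n - h / d')
          = cnt h d n * cnt h d' n - (h / d') * cnt h d n - (h / d) * cnt h d' n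
            + (h / d) * (h / d') := by
        intro n; ring
      simp_rw [h4]
      rw [Finset.sum_add_distrib, Finset.sum_sub_distrib, Finset.sum_sub_distrib,
        sum_range_cnt_mul hd.1 hd'.1, ← Finset.mul_sum, ← Finset.mul_sum,
        sum_range_cnt hd.1 (Nat.dvd_lcm_left d d'), sum_range_cnt hd'.1 (Nat.dvd_lcm_right d d')]
      simp only [sum_const, card_range, nsmul_eq_mul]
      unfold Kh
      have hl : ((Nat.lcm d d' : ℕ) : ℝ) = d * d' / ((Nat.gcd d d' : ℕ) : ℝ) := by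
        rw [← hgl]; field_simp
      rw [hl]
      field_simp
      ring
    rw [hS] at hp
    have h5 : (L:ℝ) / (Nat.lcm d d' : ℕ) * (1 / (Nat.gcd d d' : ℕ) * Kh h (Nat.gcd d d'))
        = L * ((1 / (d:ℝ)) * (1 / (d':ℝ)) * Kh h (Nat.gcd d d')) := by
      have hl : ((Nat.lcm d d' : ℕ) : ℝ) = d * d' / ((Nat.gcd d d' : ℕ) : ℝ) := by
        rw [← hgl]; field_simp
      rw [hl]
      field_simp
    rw [h5] at hp
    refine hp.trans ?_
    have h6 : ((Nat.lcm d d' : ℕ) : ℝ) ≤ y ^ 2 := by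
      have h7 : ((Nat.lcm d d' : ℕ) : ℝ) ≤ d * d' := by
        exact_mod_cast Nat.le_of_dvd (Nat.mul_pos hd.1 hd'.1) (Nat.lcm_dvd_mul d d')
      calc _ ≤ (d:ℝ) * d' := h7
        _ ≤ y * y := by gcongr
        _ = y ^ 2 := by ring
    linarith
  -- split main term and error
  have h4 : ∑ d ∈ Ioc 0 D, ∑ d' ∈ Ioc 0 D, lam w y d * lam w y d' * ∑ n ∈ Ico a (a + L),
        ((cnt h d n - h / d) * (cnt h d' n - h / d'))
      ≤ ∑ d ∈ Ioc 0 D, ∑ d' ∈ Ioc 0 D, (L * ((lam w y d * (1 / (d:ℝ) * (d:ℝ) ^ (-(0:ℝ)))) *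
          (lam w y d' * (1 / (d':ℝ) * (d':ℝ) ^ (-(0:ℝ)))) * Kh h (Nat.gcd d d')) + 2 * y ^ 2) := by
    refine Finset.sum_le_sum fun d hd => Finset.sum_le_sum fun d' hd' => ?_
    have h5 := h3 d hd d' hd'
    set Q := ∑ n ∈ Ico a (a + L), ((cnt h d n - h / d) * (cnt h d' n - h / d')) with hQ
    set R := L * ((1 / (d:ℝ)) * (1 / (d':ℝ)) * Kh h (Nat.gcd d d')) with hR
    have h6 : lam w y d * lam w y d' * Q = lam w y d * lam w y d' * R
        + lam w y d * lam w y d' * (Q - R) := by ring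
    have h7 : lam w y d * lam w y d' * (Q - R) ≤ 2 * y ^ 2 := by
      refine (le_abs_self _).trans ?_
      rw [abs_mul, abs_mul]
      calc |lam w y d| * |lam w y d'| * |Q - R| ≤ 1 * 1 * (2 * y ^ 2) := by
            gcongr
            · exact abs_lam_le_one hw hwy d
            · exact abs_lam_le_one hw hwy d'
        _ = 2 * y ^ 2 := by ring
    have h8 : lam w y d * lam w y d' * R = L * ((lam w y d * (1 / (d:ℝ) * (d:ℝ) ^ (-(0:ℝ)))) *
          (lam w y d' * (1 / (d':ℝ) * (d':ℝ) ^ (-(0:ℝ)))) * Kh h (Nat.gcd d d')) := by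
      rw [hR, neg_zero, Real.rpow_zero, Real.rpow_zero]; ring
    rw [h6, h8]
    linarith
  refine h4.trans ?_
  have h5 : ∑ d ∈ Ioc 0 D, ∑ d' ∈ Ioc 0 D, (L * ((lam w y d * (1 / (d:ℝ) * (d:ℝ) ^ (-(0:ℝ)))) *
          (lam w y d' * (1 / (d':ℝ) * (d':ℝ) ^ (-(0:ℝ)))) * Kh h (Nat.gcd d d')) + 2 * y ^ 2)
      = L * ∑ d ∈ Ioc 0 D, ∑ d' ∈ Ioc 0 D, ((lam w y d * (1 / (d:ℝ) * (d:ℝ) ^ (-(0:ℝ)))) *
          (lam w y d' * (1 / (d':ℝ) * (d':ℝ) ^ (-(0:ℝ)))) * Kh h (Nat.gcd d d'))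
        + (D:ℝ) ^ 2 * (2 * y ^ 2) := by
    simp_rw [Finset.sum_add_distrib]
    rw [Finset.mul_sum]
    congr 1
    · refine Finset.sum_congr rfl fun d _ => ?_
      rw [Finset.mul_sum]
    · simp
      ring
  rw [h5]
  have h6 := abs_quad_le (x := fun d => lam w y d * (1 / (d:ℝ) * (d:ℝ) ^ (-(0:ℝ))))
    (K := Kh h) (N := D) (A := (h:ℝ)) (by positivity) (fun e he _ => abs_Kh_le he)
  have h7 := (le_abs_self _).trans h6
  have h8 := sum_sigma_Yq_sq_le hw hwy (le_refl (0:ℝ))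
  rw [zero_mul, add_zero, mul_one] at h8
  have h9 : ∑ q ∈ Ioc 0 D, (σ 1 q : ℝ) * (∑ d ∈ (Ioc 0 D).filter (fun d => q ∣ d),
      lam w y d * (1 / (d:ℝ) * (d:ℝ) ^ (-(0:ℝ)))) ^ 2 ≤
      (8 / Real.log (y / w)) ^ 2 * (Real.exp 14 * (1 + Real.log y)) := h8
  have h10 : (D:ℝ) ^ 2 * (2 * y ^ 2) ≤ 2 * y ^ 4 := by
    calc (D:ℝ) ^ 2 * (2 * y ^ 2) ≤ y ^ 2 * (2 * y ^ 2) := by gcongr
      _ = 2 * y ^ 4 := by ring
  refine add_le_add ?_ h10
  refine mul_le_mul_of_nonneg_left ?_ (by positivity)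
  refine h7.trans ?_
  exact mul_le_mul_of_nonneg_left h9 (by positivity)

end Pool.Agent.PC10
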