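import Mathlib
import Pool.Agent.PairCorr.ZetaBasic
import Pool.Agent.PC10.Variance

/-!
# Integral representation of `(ρ^s - 1)(ζ(s) M(s) - 1)/s`
-/

namespace Pool.Agent.PC10

open MeasureTheory Set Complex Pool.Agent.PairCorr

lemma cpow_mul_of_pos {a b : ℝ} (ha : 0 < a) (hb : 0 < b) (s : ℂ) :
    ((a * b : ℝ) : ℂ) ^ s = (a:ℂ) ^ s * (b:ℂ) ^ s := by
  rw [Complex.ofReal_mul, Complex.mul_cpow_ofReal_nonneg ha.le hb.le]

lemma cpow_inv_of_pos {a : ℝ} (ha : 0 < a) (s : ℂ) :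
    ((a⁻¹ : ℝ) : ℂ) ^ s = ((a:ℂ) ^ s)⁻¹ := by
  have h := cpow_mul_of_pos (inv_pos.mpr ha) ha s
  rw [inv_mul_cancel₀ ha.ne', Complex.ofReal_one, Complex.one_cpow] at h
  exact eq_inv_of_mul_eq_one_left h.symm

/-- The basic sawtooth transform. -/
lemma integral_fract_mul {a x0 : ℝ} (ha : 0 < a) (hx0 : 0 < x0) (hax : a * x0 ≤ 1) {s : ℂ}
    (hs : 0 < s.re) (hs1 : s ≠ 1) :
    ∫ x in Ioi x0, ((Int.fract (a * x) : ℝ) : ℂ) * (x:ℂ) ^ (-s - 1)
      = - ((a:ℂ) ^ s * riemannZeta s / s) - a * (x0:ℂ) ^ (1 - s) / (1 - s) := by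
  have hs0 : s ≠ 0 := by rintro rfl; simp at hs
  have h1s : (1:ℂ) - s ≠ 0 := sub_ne_zero.mpr (Ne.symm hs1)
  have hs1' : s - 1 ≠ 0 := sub_ne_zero.mpr hs1
  have hx1 : x0 ≤ a⁻¹ := by rw [le_inv_comm₀ hx0 ha, ← one_div, le_div_iff₀ hx0]; exact hax
  have hmeas : Measurable (fun x : ℝ => ((Int.fract (a * x) : ℝ) : ℂ)) :=
    measurable_ofReal.comp (measurable_fract.comp (measurable_const_mul a))
  have hint : IntegrableOn (fun x : ℝ => ((Int.fract (a * x) : ℝ) : ℂ) * (x:ℂ) ^ (-s - 1))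
      (Ioi x0) := by
    have h1 : IntegrableOn (fun x : ℝ => (x : ℂ) ^ (-s - 1)) (Ioi x0) :=
      integrableOn_Ioi_cpow_of_lt (by simp; linarith) hx0
    refine Integrable.bdd_mul (c := 1) h1 hmeas.aestronglyMeasurable ?_
    refine Filter.Eventually.of_forall fun x => ?_
    rw [Complex.norm_real, Real.norm_eq_abs, abs_of_nonneg (Int.fract_nonneg _)]
    exact (Int.fract_lt_one _).le
  have hsplit : Ioi x0 = Ioc x0 a⁻¹ ∪ Ioi a⁻¹ := (Ioc_union_Ioi_eq_Ioi hx1).symm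
  rw [hsplit, setIntegral_union (Ioc_disjoint_Ioi le_rfl) measurableSet_Ioi
    (hint.mono_set (by rw [hsplit]; exact subset_union_left))
    (hint.mono_set (by rw [hsplit]; exact subset_union_right))]
  -- the first piece
  have hA : ∫ x in Ioc x0 a⁻¹, ((Int.fract (a * x) : ℝ) : ℂ) * (x:ℂ) ^ (-s - 1)
      = a * (((a⁻¹ : ℝ) : ℂ) ^ (1 - s) - (x0:ℂ) ^ (1 - s)) / (1 - s) := by
    rw [integral_Ioc_eq_integral_Ioo]
    have h1 : ∫ x in Ioo x0 a⁻¹, ((Int.fract (a * x) : ℝ) : ℂ) * (x:ℂ) ^ (-s - 1)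
        = ∫ x in Ioo x0 a⁻¹, (a:ℂ) * (x:ℂ) ^ (-s) := by
      refine setIntegral_congr_fun measurableSet_Ioo fun x hx => ?_
      have hx0' : 0 < x := hx0.trans hx.1
      have h2 : Int.fract (a * x) = a * x := by
        rw [Int.fract_eq_self]
        constructor
        · positivity
        · have := mul_lt_mul_of_pos_left hx.2 ha
          rwa [mul_inv_cancel₀ ha.ne'] at this
      simp only [h2]
      have hxc : (x:ℂ) ≠ 0 := by exact_mod_cast hx0'.ne'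
      rw [Complex.cpow_sub _ _ hxc, Complex.cpow_one]
      push_cast
      field_simp
    rw [h1, ← integral_Ioc_eq_integral_Ioo, ← intervalIntegral.integral_of_le hx1,
      intervalIntegral.integral_const_mul, integral_cpow]
    · have : -s + 1 = 1 - s := by ring
      rw [this]
      ring
    · right
      constructor
      · intro h; apply hs1; linear_combination -h
      · rw [uIcc_of_le hx1]
        intro h
        linarith [h.1]
  have hB : ∫ x in Ioi a⁻¹, ((Int.fract (a * x) : ℝ) : ℂ) * (x:ℂ) ^ (-s - 1)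
      = (a:ℂ) ^ s * fractInt s := by
    have h1 := integral_comp_mul_left_Ioi
      (fun u : ℝ => ((Int.fract u : ℝ) : ℂ) * ((a⁻¹ * u : ℝ) : ℂ) ^ (-s - 1)) a⁻¹ ha
    have h2 : ∀ x : ℝ, a⁻¹ * (a * x) = x := fun x => by field_simp
    simp only [h2] at h1
    rw [h1, mul_inv_cancel₀ ha.ne']
    unfold fractInt
    have h3 : ∫ u in Ioi (1:ℝ), ((Int.fract u : ℝ) : ℂ) * ((a⁻¹ * u : ℝ) : ℂ) ^ (-s - 1)
        = ((a⁻¹ : ℝ) : ℂ) ^ (-s - 1) * ∫ x in Ioi (1:ℝ), ((Int.fract x : ℝ) : ℂ) * (x : ℂ) ^ (-s - 1) := by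
      rw [← integral_const_mul]
      refine setIntegral_congr_fun measurableSet_Ioi fun u hu => ?_
      rw [cpow_mul_of_pos (inv_pos.mpr ha) (lt_trans one_pos hu)]
      ring
    rw [h3, cpow_inv_of_pos ha]
    have hac : (a:ℂ) ≠ 0 := by exact_mod_cast ha.ne'
    have h4 : ((a:ℂ) ^ (-s - 1))⁻¹ = (a:ℂ) ^ s * a := by
      rw [← Complex.cpow_neg, neg_sub, sub_neg_eq_add, add_comm, Complex.cpow_add _ _ hac,
        Complex.cpow_one]
    rw [h4, Complex.real_smul]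
    push_cast
    field_simp
  rw [hA, hB, cpow_inv_of_pos ha]
  have hac : (a:ℂ) ≠ 0 := by exact_mod_cast ha.ne'
  have h4 : ((a:ℂ) ^ (1 - s))⁻¹ = (a:ℂ) ^ s / a := by
    rw [← Complex.cpow_neg, neg_sub, Complex.cpow_sub _ _ hac, Complex.cpow_one]
  rw [h4, zeta_eq_of_re_pos hs hs1]
  field_simp
  ring

/-- Summatory function of `a_n` over `2 ≤ n ≤ N`. -/
noncomputable def Asum (w y : ℝ) (N : ℕ) : ℝ :=
  ∑ n ∈ (Finset.Ioc 0 N).filter (fun n => 2 ≤ n), av w y n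

/-- The error function `D(x) = B (ρ-1) x - ∑_{x < n ≤ ρx, n ≥ 2} a_n`. -/
noncomputable def Dfun (w y ρ x : ℝ) : ℝ :=
  Bv w y * ((ρ - 1) * x) - (Asum w y ⌊ρ * x⌋₊ - Asum w y ⌊x⌋₊)

lemma sum_av_Ioc_zero (w y : ℝ) (N : ℕ) :
    ∑ n ∈ Finset.Ioc 0 N, av w y n = ∑ d ∈ Finset.Ioc 0 ⌊y⌋₊, lam w y d * ((N / d : ℕ) : ℝ) := by
  unfold av
  simp_rw [Finset.sum_filter]
  rw [Finset.sum_comm]
  refine Finset.sum_congr rfl fun d _ => ?_
  have h := sum_dvd_Ioc (d := d) 0 N (Nat.zero_le _)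
  simp only [Nat.zero_div, Nat.cast_zero, sub_zero] at h
  rw [← h, Finset.mul_sum]
  refine Finset.sum_congr rfl fun m _ => ?_
  split_ifs <;> simp

lemma Asum_eq {w y : ℝ} (hw : 1 ≤ w) (hwy : w < y) (N : ℕ) :
    Asum w y N = ∑ d ∈ Finset.Ioc 0 ⌊y⌋₊, lam w y d * ((N / d : ℕ) : ℝ)
      - (if 1 ≤ N then 1 else 0) := by
  rw [← sum_av_Ioc_zero, Asum]
  by_cases hN : 1 ≤ N
  · have h1 : Finset.Ioc 0 N = insert 1 ((Finset.Ioc 0 N).filter (fun n => 2 ≤ n)) := by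
      ext x; simp; omega
    rw [if_pos hN]
    conv_rhs => rw [h1]
    rw [Finset.sum_insert (by simp), av_one hw hwy]
    ring
  · have : N = 0 := by omega
    subst this
    simp

lemma floor_div_eq (x : ℝ) (d : ℕ) : ((⌊x⌋₊ / d : ℕ) : ℝ) = ⌊x / d⌋₊ := by
  rw [Nat.floor_div_natCast]

lemma Dfun_eq {w y : ℝ} (hw : 1 ≤ w) (hwy : w < y) {ρ x : ℝ} (hρ : 1 ≤ ρ) (hx : 0 < x) :
    Dfun w y ρ x = ∑ d ∈ Finset.Ioc 0 ⌊y⌋₊, lam w y d *
      (Int.fract (ρ / d * x) - Int.fract (1 / d * x))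
      + (if x < 1 ∧ 1 ≤ ρ * x then 1 else 0) := by
  unfold Dfun
  rw [Asum_eq hw hwy, Asum_eq hw hwy]
  have h1 : ∀ N : ℝ, 0 ≤ N → ∀ d : ℕ, ((⌊N⌋₊ / d : ℕ) : ℝ) = N / d - Int.fract (N / d) := by
    intro N hN d
    rw [floor_div_eq, Int.fract, ← natCast_floor_eq_intCast_floor (by positivity)]
    ring
  have hρx : 0 ≤ ρ * x := by positivity
  simp_rw [h1 _ hρx, h1 _ hx.le]
  have h2 : Bv w y * ((ρ - 1) * x) = ∑ d ∈ Finset.Ioc 0 ⌊y⌋₊, lam w y d * ((ρ - 1) * x / d) := by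
    unfold Bv
    rw [Finset.sum_mul]
    refine Finset.sum_congr rfl fun d _ => ?_
    ring
  have hle : x ≤ ρ * x := le_mul_of_one_le_left hx.le hρ
  have h3 : ((if 1 ≤ ⌊ρ * x⌋₊ then (1:ℝ) else 0) - (if 1 ≤ ⌊x⌋₊ then (1:ℝ) else 0))
      = if x < 1 ∧ 1 ≤ ρ * x then 1 else 0 := by
    simp only [Nat.one_le_floor_iff]
    by_cases h4 : x < 1 <;> by_cases h5 : 1 ≤ ρ * x
    · rw [if_pos h5, if_neg (not_le.mpr h4), if_pos ⟨h4, h5⟩]; ring
    · rw [if_neg h5, if_neg (not_le.mpr h4), if_neg (fun h => h5 h.2)]; ring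
    · rw [if_pos h5, if_pos (not_lt.mp h4), if_neg (fun h => h4 h.1)]; ring
    · exfalso; exact h5 (le_trans (not_lt.mp h4) hle)
  rw [← h3, h2]
  have h6 : ∀ a b c d e : ℝ, a - (b - c - (d - e)) = (a - b + d) + (c - e) := by
    intro a b c d e; ring
  rw [h6, ← Finset.sum_sub_distrib, ← Finset.sum_add_distrib]
  congr 1
  refine Finset.sum_congr rfl fun d _ => ?_
  have h7 : ρ / (d:ℝ) * x = ρ * x / d := by ring
  have h8 : 1 / (d:ℝ) * x = x / d := by ring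
  rw [h7, h8]
  ring


lemma integrableOn_fract_mul_cpow' {a x0 : ℝ} (hx0 : 0 < x0) {s : ℂ} (hs : 0 < s.re) :
    IntegrableOn (fun x : ℝ => ((Int.fract (a * x) : ℝ) : ℂ) * (x:ℂ) ^ (-s - 1)) (Ioi x0) := by
  have hmeas : Measurable (fun x : ℝ => ((Int.fract (a * x) : ℝ) : ℂ)) :=
    measurable_ofReal.comp (measurable_fract.comp (measurable_const_mul a))
  have h1 : IntegrableOn (fun x : ℝ => (x : ℂ) ^ (-s - 1)) (Ioi x0) :=
    integrableOn_Ioi_cpow_of_lt (by simp; linarith) hx0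
  refine Integrable.bdd_mul (c := 1) h1 hmeas.aestronglyMeasurable ?_
  refine Filter.Eventually.of_forall fun x => ?_
  rw [Complex.norm_real, Real.norm_eq_abs, abs_of_nonneg (Int.fract_nonneg _)]
  exact (Int.fract_lt_one _).le

lemma integral_ind {ρ : ℝ} (hρ : 1 ≤ ρ) (hρ2 : ρ < 2) {s : ℂ} (hs0 : s ≠ 0) :
    IntegrableOn (fun x : ℝ => (((if x < 1 ∧ 1 ≤ ρ * x then 1 else 0 : ℝ)) : ℂ)
      * (x:ℂ) ^ (-s - 1)) (Ioi (1/2)) ∧
    ∫ x in Ioi (1/2:ℝ), (((if x < 1 ∧ 1 ≤ ρ * x then 1 else 0 : ℝ)) : ℂ) * (x:ℂ) ^ (-s - 1)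
      = ((ρ:ℂ) ^ s - 1) / s := by
  have hρ0 : 0 < ρ := by linarith
  have hsub : Ico ρ⁻¹ 1 ⊆ Ioi (1/2:ℝ) := by
    intro x hx
    have : (1/2:ℝ) < ρ⁻¹ := by rw [one_div]; exact inv_strictAnti₀ hρ0 hρ2
    exact lt_of_lt_of_le this hx.1
  have hfun : (fun x : ℝ => (((if x < 1 ∧ 1 ≤ ρ * x then 1 else 0 : ℝ)) : ℂ) * (x:ℂ) ^ (-s - 1))
      = indicator (Ico ρ⁻¹ 1) (fun x : ℝ => (x:ℂ) ^ (-s - 1)) := by
    funext x
    by_cases hx : x ∈ Ico ρ⁻¹ 1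
    · rw [indicator_of_mem hx, if_pos]
      · simp
      · refine ⟨hx.2, ?_⟩
        have := mul_le_mul_of_nonneg_left hx.1 hρ0.le
        rwa [mul_inv_cancel₀ hρ0.ne'] at this
    · rw [indicator_of_notMem hx, if_neg]
      · simp
      · intro h
        apply hx
        refine ⟨?_, h.1⟩
        rw [inv_le_iff_one_le_mul₀' hρ0]
        exact h.2
  have hinv1 : ρ⁻¹ ≤ 1 := inv_le_one_of_one_le₀ hρ
  have hinv0 : 0 < ρ⁻¹ := inv_pos.mpr hρ0
  rw [hfun]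
  constructor
  · rw [IntegrableOn, integrable_indicator_iff measurableSet_Ico]
    rw [IntegrableOn, Measure.restrict_restrict measurableSet_Ico, inter_eq_left.mpr hsub]
    have : IntegrableOn (fun x : ℝ => (x:ℂ) ^ (-s - 1)) (Icc ρ⁻¹ 1) := by
      apply ContinuousOn.integrableOn_Icc
      intro x hx
      apply ContinuousAt.continuousWithinAt
      apply Complex.continuousAt_ofReal_cpow_const
      right
      have : 0 < x := lt_of_lt_of_le hinv0 hx.1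
      exact this.ne'
    exact this.mono_set Ico_subset_Icc_self
  · rw [setIntegral_indicator measurableSet_Ico, inter_comm, inter_eq_left.mpr hsub,
      integral_Ico_eq_integral_Ioo, ← integral_Ioc_eq_integral_Ioo,
      ← intervalIntegral.integral_of_le hinv1, integral_cpow]
    · have h1 : -s - 1 + 1 = -s := by ring
      rw [h1, cpow_inv_of_pos hρ0, Complex.cpow_neg (ρ:ℂ), inv_inv, Complex.ofReal_one,
        Complex.one_cpow]
      field_simp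
      ring
    · right
      constructor
      · intro h; apply hs0; linear_combination -h
      · rw [uIcc_of_le hinv1]
        intro h
        linarith [h.1]

/-- Representation formula. -/
theorem repr_formula {w y : ℝ} (hw : 1 ≤ w) (hwy : w < y) {ρ : ℝ} (hρ : 1 ≤ ρ) (hρ2 : ρ < 2)
    {s : ℂ} (hs : 0 < s.re) (hs1 : s ≠ 1) :
    ∫ x in Ioi (1/2:ℝ), ((Dfun w y ρ x : ℝ) : ℂ) * (x:ℂ) ^ (-s - 1)
      = - (((ρ:ℂ) ^ s - 1) / s * (riemannZeta s * moll (lam w y) ⌊y⌋₊ s - 1))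
        - Bv w y * (ρ - 1) * ((1/2:ℝ) : ℂ) ^ (1 - s) / (1 - s) := by
  have hs0 : s ≠ 0 := by rintro rfl; simp at hs
  have hρ0 : 0 < ρ := by linarith
  have h1s : (1:ℂ) - s ≠ 0 := sub_ne_zero.mpr (Ne.symm hs1)
  have h1 : ∫ x in Ioi (1/2:ℝ), ((Dfun w y ρ x : ℝ) : ℂ) * (x:ℂ) ^ (-s - 1)
      = ∫ x in Ioi (1/2:ℝ), ((∑ d ∈ Finset.Ioc 0 ⌊y⌋₊, (lam w y d : ℂ) *
        ((((Int.fract (ρ / d * x) : ℝ) : ℂ) * (x:ℂ) ^ (-s - 1))
          - (((Int.fract (1 / d * x) : ℝ) : ℂ) * (x:ℂ) ^ (-s - 1))))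
        + (((if x < 1 ∧ 1 ≤ ρ * x then 1 else 0 : ℝ)) : ℂ) * (x:ℂ) ^ (-s - 1)) := by
    refine setIntegral_congr_fun measurableSet_Ioi fun x hx => ?_
    have hx0 : 0 < x := lt_trans (by norm_num) hx
    rw [Dfun_eq hw hwy hρ hx0, Complex.ofReal_add, add_mul, Complex.ofReal_sum, Finset.sum_mul]
    congr 1
    refine Finset.sum_congr rfl fun d _ => ?_
    push_cast
    ring
  have hterm : ∀ d ∈ Finset.Ioc 0 ⌊y⌋₊, IntegrableOn (fun x : ℝ => (lam w y d : ℂ) *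
        ((((Int.fract (ρ / d * x) : ℝ) : ℂ) * (x:ℂ) ^ (-s - 1))
          - (((Int.fract (1 / d * x) : ℝ) : ℂ) * (x:ℂ) ^ (-s - 1)))) (Ioi (1/2)) := by
    intro d _
    exact ((integrableOn_fract_mul_cpow' (by norm_num) hs).sub
      (integrableOn_fract_mul_cpow' (by norm_num) hs)).const_mul _
  rw [h1, integral_add (integrable_finsetSum _ hterm) (integral_ind hρ hρ2 hs0).1,
    integral_finsetSum _ hterm, (integral_ind hρ hρ2 hs0).2]
  have h2 : ∀ d ∈ Finset.Ioc 0 ⌊y⌋₊, ∫ x in Ioi (1/2:ℝ), (lam w y d : ℂ) *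
        ((((Int.fract (ρ / d * x) : ℝ) : ℂ) * (x:ℂ) ^ (-s - 1))
          - (((Int.fract (1 / d * x) : ℝ) : ℂ) * (x:ℂ) ^ (-s - 1)))
      = - (((ρ:ℂ) ^ s - 1) / s * (riemannZeta s * ((lam w y d : ℂ) * (d:ℂ) ^ (-s))))
        - ((lam w y d / d : ℝ) : ℂ) * ((ρ - 1) * ((1/2:ℝ) : ℂ) ^ (1 - s) / (1 - s)) := by
    intro d hd
    simp only [Finset.mem_Ioc] at hd
    have hd0 : (0:ℝ) < d := by exact_mod_cast hd.1
    have hd1 : (1:ℝ) ≤ d := by exact_mod_cast hd.1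
    have hdc : (d:ℂ) ≠ 0 := by exact_mod_cast hd0.ne'
    rw [integral_const_mul, integral_sub (integrableOn_fract_mul_cpow' (by norm_num) hs)
      (integrableOn_fract_mul_cpow' (by norm_num) hs)]
    rw [integral_fract_mul (a := ρ / d) (by positivity) (by norm_num) (by
        rw [div_mul_eq_mul_div, div_le_one hd0]; linarith) hs hs1,
      integral_fract_mul (a := 1 / d) (by positivity) (by norm_num) (by
        rw [div_mul_eq_mul_div, div_le_one hd0]; linarith) hs hs1]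
    have h3 : ((ρ / d : ℝ) : ℂ) ^ s = (ρ:ℂ) ^ s * (d:ℂ) ^ (-s) := by
      rw [div_eq_mul_inv, cpow_mul_of_pos hρ0 (inv_pos.mpr hd0), cpow_inv_of_pos hd0,
        Complex.cpow_neg]
      push_cast
      rfl
    have h4 : ((1 / d : ℝ) : ℂ) ^ s = (d:ℂ) ^ (-s) := by
      rw [one_div, cpow_inv_of_pos hd0, Complex.cpow_neg]
      push_cast
      rfl
    rw [h3, h4]
    push_cast
    field_simp
    ring
  rw [Finset.sum_congr rfl h2, Finset.sum_sub_distrib, Finset.sum_neg_distrib,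
    ← Finset.mul_sum, ← Finset.mul_sum, ← Finset.sum_mul, ← Complex.ofReal_sum]
  have h5 : ∑ d ∈ Finset.Ioc 0 ⌊y⌋₊, (lam w y d : ℂ) * (d:ℂ) ^ (-s)
      = moll (lam w y) ⌊y⌋₊ s := by
    unfold moll
    have : Finset.Ioc 0 ⌊y⌋₊ = Finset.Icc 1 ⌊y⌋₊ := by ext; simp; omega
    rw [this]
  rw [h5]
  have h6 : ∑ d ∈ Finset.Ioc 0 ⌊y⌋₊, lam w y d / d = Bv w y := rfl
  rw [h6]
  ring

end Pool.Agent.PC10
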