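import Mathlib

/-!
# A Bessel type inequality for the Fourier transform of functions in `L¹ ∩ L²`
-/

namespace Pool.Agent.PC10

open MeasureTheory FourierTransform Real

lemma integral_mul_fourier_eq {f g : ℝ → ℂ} (hf : Integrable f) (hg : Integrable g) :
    ∫ ξ, 𝓕 f ξ * g ξ = ∫ x, f x * 𝓕 g x := by
  have := VectorFourier.integral_fourierIntegral_smul_eq_flip (L := innerₗ ℝ)
    (μ := volume) (ν := volume) (f := f) (g := g)
    Real.continuous_fourierChar continuous_inner hf hg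
  simp only [flip_innerₗ] at this
  exact this

/-- The Gaussian kernel. -/
noncomputable def gk (b z : ℝ) : ℝ := (π / b) ^ (1 / 2 : ℝ) * exp (-π ^ 2 * z ^ 2 / b)

lemma fourier_gauss_mod {b : ℝ} (hb : 0 < b) (y x : ℝ) :
    𝓕 (fun v : ℝ => Complex.exp (-(b:ℂ) * (v:ℂ) ^ 2 + 2 * π * Complex.I * ((y * v : ℝ) : ℂ))) x
      = ((gk b (y - x) : ℝ) : ℂ) := by
  have h := fourier_gaussian_innerProductSpace' (b := (b:ℂ)) (V := ℝ) (by simpa using hb) y x
  have h2 : (fun v : ℝ => Complex.exp (-(b:ℂ) * (v:ℂ) ^ 2 + 2 * π * Complex.I * ((y * v : ℝ) : ℂ)))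
      = fun v : ℝ => Complex.exp (-(b:ℂ) * ((‖v‖ : ℝ) : ℂ) ^ 2 +
          2 * π * Complex.I * ((inner ℝ y v : ℝ) : ℂ)) := by
    funext v
    congr 2
    · congr 1
      rw [← Complex.ofReal_pow, ← Complex.ofReal_pow]
      simp
    · congr 2
      simp [mul_comm]
  rw [h2, h]
  unfold gk
  rw [Complex.ofReal_mul, Complex.ofReal_cpow (by positivity)]
  simp
  left
  congr 3
  rw [← Complex.ofReal_sub, ← Complex.ofReal_pow, ← Complex.ofReal_pow, sq_abs]
  push_cast
  ring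

lemma gk_nonneg {b : ℝ} (hb : 0 < b) (z : ℝ) : 0 ≤ gk b z := by unfold gk; positivity

lemma integrable_gk {b : ℝ} (hb : 0 < b) : Integrable (gk b) := by
  unfold gk
  apply Integrable.const_mul
  have : (fun z : ℝ => exp (-π ^ 2 * z ^ 2 / b)) = fun z => exp (-(π ^ 2 / b) * z ^ 2) := by
    funext z; congr 1; ring
  rw [this]
  exact integrable_exp_neg_mul_sq (by positivity)

lemma integral_gk {b : ℝ} (hb : 0 < b) : ∫ z, gk b z = 1 := by
  unfold gk
  rw [integral_const_mul]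
  have : (fun z : ℝ => exp (-π ^ 2 * z ^ 2 / b)) = fun z => exp (-(π ^ 2 / b) * z ^ 2) := by
    funext z; congr 1; ring
  rw [this, integral_gaussian, ← sqrt_eq_rpow, ← sqrt_mul (by positivity)]
  have : π / b * (π / (π ^ 2 / b)) = 1 := by field_simp
  rw [this, sqrt_one]

lemma lintegral_gk {b : ℝ} (hb : 0 < b) : ∫⁻ z, ENNReal.ofReal (gk b z) = 1 := by
  rw [← ofReal_integral_eq_lintegral_ofReal (integrable_gk hb)
    (Filter.Eventually.of_forall (gk_nonneg hb)), integral_gk hb, ENNReal.ofReal_one]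

lemma gk_symm (b z : ℝ) : gk b (-z) = gk b z := by unfold gk; rw [neg_sq]

lemma continuous_gk (b : ℝ) : Continuous (gk b) := by
  unfold gk; fun_prop

/-- Schur bound. -/
lemma schur_bound {F : ℝ → ℂ} (hF : AEStronglyMeasurable F) {b : ℝ} (hb : 0 < b) :
    ∫⁻ y, ‖F y‖ₑ * ∫⁻ x, ‖F x‖ₑ * ENNReal.ofReal (gk b (y - x)) ≤ ∫⁻ x, ‖F x‖ₑ ^ 2 := by
  have hFm : AEMeasurable (fun x => ‖F x‖ₑ) := hF.enorm
  have h1 : ∀ a c : ENNReal, a * c ≤ (a ^ 2 + c ^ 2) / 2 := by
    intro a c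
    rcases eq_or_ne a ⊤ with rfl | ha
    · simp
      rw [ENNReal.top_div]; simp
    rcases eq_or_ne c ⊤ with rfl | hc
    · simp
      rw [ENNReal.top_div]; simp
    lift a to NNReal using ha
    lift c to NNReal using hc
    rw [ENNReal.le_div_iff_mul_le (by simp) (by simp)]
    norm_cast
    rw [← NNReal.coe_le_coe]
    push_cast
    nlinarith [sq_nonneg ((a:ℝ) - c)]
  have hmeas : ∀ y, AEMeasurable (fun x => ENNReal.ofReal (gk b (y - x))) := by
    intro y
    exact ((continuous_gk b).comp (continuous_const.sub continuous_id)).measurable.ennreal_ofReal.aemeasurable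
  have hm2 : AEMeasurable (Function.uncurry fun y x => ENNReal.ofReal (gk b (y - x)))
      (volume.prod volume) := by
    exact ((continuous_gk b).comp (continuous_fst.sub continuous_snd)).measurable.ennreal_ofReal.aemeasurable
  calc ∫⁻ y, ‖F y‖ₑ * ∫⁻ x, ‖F x‖ₑ * ENNReal.ofReal (gk b (y - x))
      = ∫⁻ y, ∫⁻ x, (‖F y‖ₑ * ‖F x‖ₑ) * ENNReal.ofReal (gk b (y - x)) := by
        refine lintegral_congr fun y => ?_
        have hm3 : AEMeasurable (fun x => ‖F x‖ₑ * ENNReal.ofReal (gk b (y - x))) :=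
          hFm.mul (hmeas y)
        rw [← lintegral_const_mul'' _ hm3]
        refine lintegral_congr fun x => by ring
    _ ≤ ∫⁻ y, ∫⁻ x, ((‖F y‖ₑ ^ 2 + ‖F x‖ₑ ^ 2) / 2) * ENNReal.ofReal (gk b (y - x)) := by
        gcongr with y x
        exact h1 _ _
    _ = ∫⁻ y, ((∫⁻ x, ‖F y‖ₑ ^ 2 / 2 * ENNReal.ofReal (gk b (y - x)))
          + ∫⁻ x, ‖F x‖ₑ ^ 2 / 2 * ENNReal.ofReal (gk b (y - x))) := by
        refine lintegral_congr fun y => ?_
        rw [← lintegral_add_left' ((hmeas y).const_mul _)]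
        refine lintegral_congr fun x => ?_
        rw [ENNReal.add_div, add_mul]
    _ = (∫⁻ y, ∫⁻ x, ‖F y‖ₑ ^ 2 / 2 * ENNReal.ofReal (gk b (y - x)))
          + ∫⁻ y, ∫⁻ x, ‖F x‖ₑ ^ 2 / 2 * ENNReal.ofReal (gk b (y - x)) := by
        apply lintegral_add_left'
        have : AEMeasurable (Function.uncurry fun y x => ‖F y‖ₑ ^ 2 / 2 *
            ENNReal.ofReal (gk b (y - x))) (volume.prod volume) := by
          refine AEMeasurable.mul ?_ hm2
          have := (hFm.pow_const 2).div_const (2:ENNReal)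
          exact this.comp_fst
        exact this.lintegral_prod_right'
    _ = (∫⁻ y, ‖F y‖ₑ ^ 2 / 2) + ∫⁻ x, ‖F x‖ₑ ^ 2 / 2 := by
        congr 1
        · refine lintegral_congr fun y => ?_
          rw [lintegral_const_mul'' _ (hmeas y)]
          rw [lintegral_sub_left_eq_self (fun z => ENNReal.ofReal (gk b z)) y, lintegral_gk hb,
            mul_one]
        · rw [lintegral_lintegral_swap]
          · refine lintegral_congr fun x => ?_
            have hmeas' : AEMeasurable (fun y => ENNReal.ofReal (gk b (y - x))) :=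
              ((continuous_gk b).comp
                (continuous_id.sub continuous_const)).measurable.ennreal_ofReal.aemeasurable
            rw [lintegral_const_mul'' _ hmeas']
            rw [lintegral_sub_right_eq_self (fun z => ENNReal.ofReal (gk b z)) x, lintegral_gk hb,
              mul_one]
          · refine AEMeasurable.mul ?_ hm2
            have := (hFm.pow_const 2).div_const (2:ENNReal)
            exact this.comp_snd
    _ = ∫⁻ x, ‖F x‖ₑ ^ 2 := by
        rw [← lintegral_add_left' ((hFm.pow_const 2).div_const 2)]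
        refine lintegral_congr fun x => ?_
        exact ENNReal.add_halves _

/-- Gaussian-weighted Bessel inequality. -/
theorem bessel_gauss {F : ℝ → ℂ} (hF : Integrable F) {b : ℝ} (hb : 0 < b) :
    ∫⁻ ξ, ‖𝓕 F ξ‖ₑ ^ 2 * ENNReal.ofReal (exp (-b * ξ ^ 2)) ≤ ∫⁻ x, ‖F x‖ₑ ^ 2 := by
  have hcont : Continuous (𝓕 F) :=
    VectorFourier.fourierIntegral_continuous Real.continuous_fourierChar continuous_inner hF
  have hbd : ∀ ξ, ‖𝓕 F ξ‖ ≤ ∫ x, ‖F x‖ := fun ξ =>
    VectorFourier.norm_fourierIntegral_le_integral_norm _ _ _ _ _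
  set g : ℝ → ℂ := fun ξ => ((exp (-b * ξ ^ 2) : ℝ) : ℂ) with hg
  have hgi : Integrable g := (integrable_exp_neg_mul_sq hb).ofReal
  set g1 : ℝ → ℂ := fun ξ => g ξ * (starRingEnd ℂ) (𝓕 F ξ) with hg1
  have hg1i : Integrable g1 := by
    refine hgi.mul_bdd (c := ∫ x, ‖F x‖) ?_ ?_
    · exact (Complex.continuous_conj.comp hcont).aestronglyMeasurable
    · exact Filter.Eventually.of_forall fun ξ => by rw [RCLike.norm_conj]; exact hbd ξ
  have hI : ∫ ξ, 𝓕 F ξ * g1 ξ = ∫ y, F y * 𝓕 g1 y := integral_mul_fourier_eq hF hg1i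
  have hconj : ∀ ξ, (starRingEnd ℂ) (𝓕 F ξ) = 𝓕 (fun x => (starRingEnd ℂ) (F x)) (-ξ) := by
    intro ξ
    rw [Real.fourier_real_eq_integral_exp_smul, Real.fourier_real_eq_integral_exp_smul,
      ← integral_conj]
    refine integral_congr_ae (Filter.Eventually.of_forall fun x => ?_)
    simp only [smul_eq_mul, map_mul, ← Complex.exp_conj, Complex.conj_I, Complex.conj_ofReal]
    congr 2
    push_cast
    ring
  have hF' : Integrable (fun x => (starRingEnd ℂ) (F x)) := by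
    have := (Complex.conjLIE.toContinuousLinearEquiv.toContinuousLinearMap).integrable_comp hF
    exact this
  have hg1F : ∀ y, 𝓕 g1 y = ∫ x, (starRingEnd ℂ) (F x) * ((gk b (y - x) : ℝ) : ℂ) := by
    intro y
    rw [Real.fourier_real_eq_integral_exp_smul]
    have h1 : ∫ v : ℝ, Complex.exp (↑(-2 * π * v * y) * Complex.I) • g1 v
        = ∫ v : ℝ, 𝓕 (fun x => (starRingEnd ℂ) (F x)) v *
          Complex.exp (-(b:ℂ) * (v:ℂ) ^ 2 + 2 * π * Complex.I * ((y * v : ℝ) : ℂ)) := by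
      rw [← integral_neg_eq_self]
      refine integral_congr_ae (Filter.Eventually.of_forall fun v => ?_)
      simp only [smul_eq_mul, hg1, hg]
      rw [hconj, neg_neg, mul_comm (𝓕 (fun x => (starRingEnd ℂ) (F x)) v), ← mul_assoc,
        Complex.ofReal_exp, ← Complex.exp_add]
      congr 2
      push_cast
      ring
    rw [h1]
    have hint : Integrable (fun v : ℝ =>
        Complex.exp (-(b:ℂ) * (v:ℂ) ^ 2 + 2 * π * Complex.I * ((y * v : ℝ) : ℂ))) := by
      have := integrable_cexp_quadratic (b := (b:ℂ)) (by simpa using hb)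
        (2 * π * Complex.I * y) 0
      refine this.congr (Filter.Eventually.of_forall fun v => ?_)
      simp only
      congr 1
      push_cast
      ring
    rw [integral_mul_fourier_eq hF' hint]
    refine integral_congr_ae (Filter.Eventually.of_forall fun x => ?_)
    simp only
    rw [fourier_gauss_mod hb]
  have hreal : ∫ ξ, 𝓕 F ξ * g1 ξ = ((∫ ξ, ‖𝓕 F ξ‖ ^ 2 * exp (-b * ξ ^ 2) : ℝ) : ℂ) := by
    rw [← integral_complex_ofReal]
    refine integral_congr_ae (Filter.Eventually.of_forall fun ξ => ?_)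
    simp only [hg1, hg]
    push_cast
    rw [← Complex.mul_conj']
    ring
  have hint2 : Integrable (fun ξ => ‖𝓕 F ξ‖ ^ 2 * exp (-b * ξ ^ 2)) := by
    refine (integrable_exp_neg_mul_sq hb).bdd_mul (c := (∫ x, ‖F x‖) ^ 2) ?_ ?_
    · exact (hcont.norm.pow 2).aestronglyMeasurable
    · refine Filter.Eventually.of_forall fun ξ => ?_
      rw [norm_pow, norm_norm]
      exact pow_le_pow_left₀ (norm_nonneg _) (hbd ξ) 2
  have hL : ∫⁻ ξ, ‖𝓕 F ξ‖ₑ ^ 2 * ENNReal.ofReal (exp (-b * ξ ^ 2))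
      = ‖∫ ξ, 𝓕 F ξ * g1 ξ‖ₑ := by
    rw [hreal]
    have hnn : 0 ≤ ∫ ξ, ‖𝓕 F ξ‖ ^ 2 * exp (-b * ξ ^ 2) :=
      integral_nonneg fun ξ => by positivity
    rw [← ofReal_norm, Complex.norm_real, Real.norm_of_nonneg hnn,
      ofReal_integral_eq_lintegral_ofReal hint2
        (Filter.Eventually.of_forall fun ξ => by positivity)]
    refine lintegral_congr fun ξ => ?_
    rw [ENNReal.ofReal_mul (by positivity), ENNReal.ofReal_pow (norm_nonneg _), ofReal_norm]
  rw [hL, hI]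
  refine (enorm_integral_le_lintegral_enorm _).trans ?_
  refine le_trans ?_ (schur_bound hF.1 hb)
  refine lintegral_mono fun y => ?_
  simp only
  rw [enorm_mul, hg1F y]
  gcongr
  refine (enorm_integral_le_lintegral_enorm _).trans (le_of_eq ?_)
  refine lintegral_congr fun x => ?_
  rw [enorm_mul]
  congr 1
  · rw [← ofReal_norm, RCLike.norm_conj, ofReal_norm]
  · rw [← ofReal_norm, Complex.norm_real, Real.norm_of_nonneg (gk_nonneg hb _)]

/-- Bessel inequality on a bounded interval (with a constant `e`). -/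
theorem bessel_interval {F : ℝ → ℂ} (hF : Integrable F) {R : ℝ} (hR : 0 < R) :
    ∫⁻ ξ in Set.Icc (-R) R, ‖𝓕 F ξ‖ₑ ^ 2 ≤ ENNReal.ofReal (exp 1) * ∫⁻ x, ‖F x‖ₑ ^ 2 := by
  have h := bessel_gauss hF (b := 1 / R ^ 2) (by positivity)
  calc ∫⁻ ξ in Set.Icc (-R) R, ‖𝓕 F ξ‖ₑ ^ 2
      ≤ ∫⁻ ξ in Set.Icc (-R) R, ENNReal.ofReal (exp 1) *
        (‖𝓕 F ξ‖ₑ ^ 2 * ENNReal.ofReal (exp (-(1 / R ^ 2) * ξ ^ 2))) := by
        refine setLIntegral_mono' measurableSet_Icc fun ξ hξ => ?_
        rw [mul_comm (‖𝓕 F ξ‖ₑ ^ 2), ← mul_assoc, ← ENNReal.ofReal_mul (by positivity),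
          ← Real.exp_add]
        have h1 : (1:ENNReal) ≤ ENNReal.ofReal (exp (1 + -(1 / R ^ 2) * ξ ^ 2)) := by
          rw [← ENNReal.ofReal_one]
          apply ENNReal.ofReal_le_ofReal
          apply Real.one_le_exp
          have h2 : ξ ^ 2 ≤ R ^ 2 := sq_le_sq' hξ.1 hξ.2
          have h3 : 1 / R ^ 2 * ξ ^ 2 ≤ 1 := by
            rw [one_div, inv_mul_le_iff₀ (by positivity)]
            simpa using h2
          linarith
        calc ‖𝓕 F ξ‖ₑ ^ 2 = 1 * ‖𝓕 F ξ‖ₑ ^ 2 := by rw [one_mul]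
          _ ≤ _ := by gcongr
    _ ≤ ∫⁻ ξ, ENNReal.ofReal (exp 1) *
        (‖𝓕 F ξ‖ₑ ^ 2 * ENNReal.ofReal (exp (-(1 / R ^ 2) * ξ ^ 2))) :=
        setLIntegral_le_lintegral _ _
    _ = ENNReal.ofReal (exp 1) * ∫⁻ ξ, ‖𝓕 F ξ‖ₑ ^ 2 *
        ENNReal.ofReal (exp (-(1 / R ^ 2) * ξ ^ 2)) := by
        rw [lintegral_const_mul' _ _ ENNReal.ofReal_ne_top]
    _ ≤ _ := by gcongr

end Pool.Agent.PC10
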