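import Mathlib
import Pool.Agent.PC10.Bessel

/-!
# Mellin form of the Bessel inequality
-/

namespace Pool.Agent.PC10

open MeasureTheory Set FourierTransform Real

lemma exp_neg_image : (fun u : ℝ => exp (-u)) '' univ = Ioi 0 := by
  ext x
  simp only [mem_image, mem_univ, true_and, mem_Ioi]
  constructor
  · rintro ⟨u, rfl⟩; exact exp_pos _
  · intro hx; exact ⟨-log x, by rw [neg_neg, exp_log hx]⟩

lemma lintegral_exp_neg (g : ℝ → ENNReal) :
    ∫⁻ x in Ioi (0:ℝ), g x = ∫⁻ u, ENNReal.ofReal (exp (-u)) * g (exp (-u)) := by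
  rw [← exp_neg_image, lintegral_image_eq_lintegral_abs_deriv_mul (f' := fun u => -exp (-u))
    MeasurableSet.univ]
  · rw [Measure.restrict_univ]
    refine lintegral_congr fun u => ?_
    rw [abs_neg, abs_of_pos (exp_pos _)]
  · intro x _
    have := ((Real.hasDerivAt_exp (-x)).comp x (hasDerivAt_neg x)).hasDerivWithinAt (s := univ)
    simpa using! this
  · intro a _ b _ hab
    simpa using hab

/-- The function whose Fourier transform is the Mellin transform. -/
noncomputable def Fm (f : ℝ → ℂ) (σ : ℝ) (u : ℝ) : ℂ := (exp (σ * u) : ℝ) • f (exp (-u))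

lemma mellin_eq_Fm (f : ℝ → ℂ) (σ t : ℝ) :
    mellin f (-(σ + t * Complex.I)) = 𝓕 (Fm f σ) (-(t / (2 * π))) := by
  rw [mellin_eq_fourier]
  have h1 : (fun u : ℝ => exp (-(-(σ + t * Complex.I) : ℂ).re * u) • f (exp (-u))) = Fm f σ := by
    funext u
    unfold Fm
    simp
  have h2 : (-(σ + t * Complex.I) : ℂ).im / (2 * π) = -(t / (2 * π)) := by
    simp
    ring_nf
  rw [h1, h2]

lemma measurable_Fm {f : ℝ → ℂ} (hf : Measurable f) (σ : ℝ) : Measurable (Fm f σ) := by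
  unfold Fm
  have h1 : Measurable (fun u : ℝ => f (exp (-u))) := hf.comp (by fun_prop)
  have h2 : Measurable (fun u : ℝ => exp (σ * u)) := by fun_prop
  exact h2.smul h1

lemma lintegral_Fm (f : ℝ → ℂ) (σ : ℝ) :
    ∫⁻ u, ‖Fm f σ u‖ₑ = ∫⁻ x in Ioi (0:ℝ), ‖f x‖ₑ * ENNReal.ofReal (x ^ (-σ - 1)) := by
  rw [lintegral_exp_neg]
  refine lintegral_congr fun u => ?_
  unfold Fm
  rw [enorm_smul, Real.enorm_of_nonneg (exp_pos _).le, mul_comm ‖f (exp (-u))‖ₑ, ← mul_assoc,
    ← ENNReal.ofReal_mul (exp_pos _).le]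
  congr 2
  rw [← Real.exp_mul, ← Real.exp_add]
  congr 1
  ring

lemma lintegral_Fm_sq (f : ℝ → ℂ) (σ : ℝ) :
    ∫⁻ u, ‖Fm f σ u‖ₑ ^ 2
      = ∫⁻ x in Ioi (0:ℝ), ‖f x‖ₑ ^ 2 * ENNReal.ofReal (x ^ (-2 * σ - 1)) := by
  rw [lintegral_exp_neg]
  refine lintegral_congr fun u => ?_
  unfold Fm
  rw [enorm_smul, Real.enorm_of_nonneg (exp_pos _).le, mul_pow, mul_comm (‖f (exp (-u))‖ₑ ^ 2),
    ← mul_assoc, ← ENNReal.ofReal_mul (exp_pos _).le, ← ENNReal.ofReal_pow (exp_pos _).le]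
  congr 2
  rw [← Real.exp_mul, ← Real.exp_add, ← Real.exp_nat_mul]
  congr 1
  push_cast
  ring

lemma integrableOn_bdd_rpow {g : ℝ → ℝ} (hg : Measurable g) {Cb : ℝ} (hb : ∀ x, ‖g x‖ ≤ Cb)
    {x0 a : ℝ} (hx0 : 0 < x0) (ha : a < -1) :
    IntegrableOn (fun x => g x * x ^ a) (Ioi x0) := by
  have h1 := integrableOn_Ioi_rpow_of_lt ha hx0
  exact Integrable.bdd_mul (c := Cb) h1 hg.aestronglyMeasurable (Filter.Eventually.of_forall hb)

lemma integrable_Fm {f : ℝ → ℂ} (hf : Measurable f) {Cb : ℝ} (hb : ∀ x, ‖f x‖ ≤ Cb)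
    (hsupp : ∀ x, x ≤ 1/2 → f x = 0) {σ : ℝ} (hσ : 0 < σ) : Integrable (Fm f σ) := by
  refine ⟨(measurable_Fm hf σ).aestronglyMeasurable, ?_⟩
  rw [HasFiniteIntegral, lintegral_Fm]
  have hint : IntegrableOn (fun x => ‖f x‖ * x ^ (-σ - 1)) (Ioi (1/2)) :=
    integrableOn_bdd_rpow hf.norm (fun x => by rw [norm_norm]; exact hb x) (by norm_num)
      (by linarith)
  have h1 : ∫⁻ x in Ioi (0:ℝ), ‖f x‖ₑ * ENNReal.ofReal (x ^ (-σ - 1))
      = ∫⁻ x in Ioi (1/2:ℝ), ‖‖f x‖ * x ^ (-σ - 1)‖ₑ := by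
    have hsub : Ioi (1/2:ℝ) ⊆ Ioi 0 := Ioi_subset_Ioi (by norm_num)
    rw [← lintegral_indicator measurableSet_Ioi, ← lintegral_indicator measurableSet_Ioi]
    refine lintegral_congr fun x => ?_
    by_cases hx : 1/2 < x
    · have hx0 : 0 < x := by linarith
      rw [indicator_of_mem (show x ∈ Ioi (0:ℝ) from hx0),
        indicator_of_mem (show x ∈ Ioi (1/2:ℝ) from hx), enorm_mul, enorm_norm,
        Real.enorm_of_nonneg (by positivity)]
    · push Not at hx
      rw [indicator_of_notMem (show x ∉ Ioi (1/2:ℝ) from not_lt.mpr hx)]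
      rw [indicator_apply]
      split_ifs
      · rw [hsupp x hx]; simp
      · rfl
  rw [h1]
  exact hint.2

theorem mellin_bessel {f : ℝ → ℂ} (hf : Measurable f) {Cb : ℝ} (hb : ∀ x, ‖f x‖ ≤ Cb)
    (hsupp : ∀ x, x ≤ 1/2 → f x = 0) {σ T : ℝ} (hσ : 0 < σ) (hT : 0 < T) :
    IntervalIntegrable (fun t : ℝ => ‖mellin f (-(σ + t * Complex.I))‖ ^ 2) volume (-T) T ∧
    ∫ t in (-T)..T, ‖mellin f (-(σ + t * Complex.I))‖ ^ 2
      ≤ 2 * π * exp 1 * ∫ x in Ioi (1/2:ℝ), ‖f x‖ ^ 2 * x ^ (-2 * σ - 1) := by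
  have hF := integrable_Fm hf hb hsupp hσ
  have hcont : Continuous (𝓕 (Fm f σ)) :=
    VectorFourier.fourierIntegral_continuous Real.continuous_fourierChar continuous_inner hF
  have hπ : 0 < 2 * π := by positivity
  simp_rw [mellin_eq_Fm]
  constructor
  · apply Continuous.intervalIntegrable
    fun_prop
  · set G : ℝ → ℝ := fun ξ => ‖𝓕 (Fm f σ) ξ‖ ^ 2 with hG
    have hGc : Continuous G := hcont.norm.pow 2
    have h1 : ∫ t in (-T)..T, ‖𝓕 (Fm f σ) (-(t / (2 * π)))‖ ^ 2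
        = 2 * π * ∫ ξ in (-(T / (2 * π)))..(T / (2 * π)), G ξ := by
      have h2 : (fun t : ℝ => ‖𝓕 (Fm f σ) (-(t / (2 * π)))‖ ^ 2)
          = fun t => G ((-t) / (2 * π)) := by
        funext t
        simp only [hG]
        congr 3
        ring
      rw [h2, intervalIntegral.integral_comp_neg (fun t => G (t / (2 * π))), neg_neg,
        intervalIntegral.integral_comp_div _ hπ.ne', smul_eq_mul, neg_div]
    rw [h1, mul_assoc (2 * π) (exp 1)]
    refine mul_le_mul_of_nonneg_left ?_ hπ.le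
    have hR : 0 < T / (2 * π) := by positivity
    have h3 := bessel_interval hF hR
    have hle : -(T / (2 * π)) ≤ T / (2 * π) := by linarith
    rw [intervalIntegral.integral_of_le hle, ← integral_Icc_eq_integral_Ioc]
    have hGi : IntegrableOn G (Icc (-(T / (2 * π))) (T / (2 * π))) :=
      hGc.continuousOn.integrableOn_Icc
    have h4 : ENNReal.ofReal (∫ ξ in Icc (-(T / (2 * π))) (T / (2 * π)), G ξ)
        = ∫⁻ ξ in Icc (-(T / (2 * π))) (T / (2 * π)), ‖𝓕 (Fm f σ) ξ‖ₑ ^ 2 := by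
      rw [ofReal_integral_eq_lintegral_ofReal hGi
        (Filter.Eventually.of_forall fun ξ => by simp only [hG]; positivity)]
      refine lintegral_congr fun ξ => ?_
      simp only [hG]
      rw [ENNReal.ofReal_pow (norm_nonneg _), ofReal_norm]
    have hint : IntegrableOn (fun x => ‖f x‖ ^ 2 * x ^ (-2 * σ - 1)) (Ioi (1/2)) :=
      integrableOn_bdd_rpow (hf.norm.pow_const 2) (Cb := Cb ^ 2) (fun x => by
        rw [norm_pow, norm_norm]; exact pow_le_pow_left₀ (norm_nonneg _) (hb x) 2) (by norm_num)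
        (by linarith)
    have h5 : ∫⁻ x, ‖Fm f σ x‖ₑ ^ 2
        = ENNReal.ofReal (∫ x in Ioi (1/2:ℝ), ‖f x‖ ^ 2 * x ^ (-2 * σ - 1)) := by
      rw [lintegral_Fm_sq, ofReal_integral_eq_lintegral_ofReal hint
        ((ae_restrict_iff' measurableSet_Ioi).mpr (Filter.Eventually.of_forall fun x hx => by
          have : (0:ℝ) < x := lt_trans (by norm_num) hx
          simp only [Pi.zero_apply]
          positivity)),
        ← lintegral_indicator measurableSet_Ioi, ← lintegral_indicator measurableSet_Ioi]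
      refine lintegral_congr fun x => ?_
      by_cases hx : 1/2 < x
      · have hx0 : 0 < x := by linarith
        rw [indicator_of_mem (show x ∈ Ioi (0:ℝ) from hx0),
          indicator_of_mem (show x ∈ Ioi (1/2:ℝ) from hx),
          ENNReal.ofReal_mul (by positivity), ENNReal.ofReal_pow (norm_nonneg _), ofReal_norm]
      · push Not at hx
        rw [indicator_of_notMem (show x ∉ Ioi (1/2:ℝ) from not_lt.mpr hx)]
        rw [indicator_apply]
        split_ifs
        · rw [hsupp x hx]; simp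
        · rfl
    rw [h5, ← ENNReal.ofReal_mul (exp_pos 1).le, ← h4] at h3
    refine (ENNReal.ofReal_le_ofReal_iff ?_).mp h3
    have : 0 ≤ ∫ x in Ioi (1/2:ℝ), ‖f x‖ ^ 2 * x ^ (-2 * σ - 1) :=
      setIntegral_nonneg measurableSet_Ioi fun x hx => by
        have : (0:ℝ) < x := lt_trans (by norm_num) hx
        positivity
    positivity

end Pool.Agent.PC10
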