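import Mathlib
import Pool.Agent.PC10.Repr

/-!
# Pointwise and mean square bounds for `D(x)`
-/

namespace Pool.Agent.PC10

open MeasureTheory Set

lemma measurable_Dfun (w y ρ : ℝ) : Measurable (Dfun w y ρ) := by
  unfold Dfun
  have h1 : Measurable (fun x : ℝ => Asum w y ⌊ρ * x⌋₊) :=
    (measurable_from_nat (f := Asum w y)).comp (Nat.measurable_floor.comp (measurable_const_mul ρ))
  have h2 : Measurable (fun x : ℝ => Asum w y ⌊x⌋₊) :=
    (measurable_from_nat (f := Asum w y)).comp Nat.measurable_floor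
  exact (((measurable_const_mul (ρ - 1)).const_mul _)).sub (h1.sub h2)

lemma abs_Dfun_le {w y : ℝ} (hw : 1 ≤ w) (hwy : w < y) {ρ x : ℝ} (hρ : 1 ≤ ρ) (hx : 0 < x) :
    |Dfun w y ρ x| ≤ y + 1 := by
  rw [Dfun_eq hw hwy hρ hx]
  refine (abs_add_le _ _).trans ?_
  have h1 : |∑ d ∈ Finset.Ioc 0 ⌊y⌋₊, lam w y d *
      (Int.fract (ρ / d * x) - Int.fract (1 / d * x))| ≤ y := by
    refine (Finset.abs_sum_le_sum_abs _ _).trans ?_
    have h2 : ∀ d ∈ Finset.Ioc 0 ⌊y⌋₊, |lam w y d *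
      (Int.fract (ρ / d * x) - Int.fract (1 / d * x))| ≤ 1 := by
      intro d _
      rw [abs_mul]
      have h3 : |Int.fract (ρ / d * x) - Int.fract (1 / d * x)| ≤ 1 := by
        rw [abs_le]
        have a1 := Int.fract_nonneg (ρ / (d:ℝ) * x)
        have a2 := Int.fract_nonneg (1 / (d:ℝ) * x)
        have a3 := (Int.fract_lt_one (ρ / (d:ℝ) * x)).le
        have a4 := (Int.fract_lt_one (1 / (d:ℝ) * x)).le
        constructor <;> linarith
      calc _ ≤ (1:ℝ) * 1 := by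
            gcongr
            exact abs_lam_le_one hw hwy d
        _ = 1 := one_mul _
    refine (Finset.sum_le_sum h2).trans ?_
    simp only [Finset.sum_const, Nat.card_Ioc, Nat.sub_zero, nsmul_eq_mul, mul_one]
    exact Nat.floor_le (by linarith)
  have h2 : |(if x < 1 ∧ 1 ≤ ρ * x then (1:ℝ) else 0)| ≤ 1 := by
    split_ifs <;> simp
  linarith

lemma Bv_eq_Yq {w y : ℝ} : Bv w y = Yq w y 0 1 := by
  unfold Bv Yq
  rw [Finset.filter_true_of_mem (fun d _ => one_dvd d)]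
  refine Finset.sum_congr rfl fun d _ => ?_
  rw [neg_zero, Real.rpow_zero]
  ring

lemma abs_Bv_le {w y : ℝ} (hw : 1 ≤ w) (hwy : w < y) : |Bv w y| ≤ 8 / Real.log (y / w) := by
  rw [Bv_eq_Yq]
  have h := abs_Yq_le hw hwy (le_refl (0:ℝ)) (q := 1) squarefree_one
  simpa [eulerFac] using h

lemma Asum_of_lt {w y : ℝ} (hw : 1 ≤ w) (hwy : w < y) {N : ℕ} (hN : (N:ℝ) ≤ w) :
    Asum w y N = 0 := by
  unfold Asum
  refine Finset.sum_eq_zero fun n hn => ?_
  simp only [Finset.mem_filter, Finset.mem_Ioc] at hn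
  apply av_eq_zero hw hwy hn.2
  have : (n:ℝ) ≤ N := by exact_mod_cast hn.1.2
  linarith

/-- On `(0, w/ρ]` the function `D` is linear. -/
lemma Dfun_of_le {w y : ℝ} (hw : 1 ≤ w) (hwy : w < y) {ρ x : ℝ} (hρ : 1 ≤ ρ) (hx : 0 < x)
    (hxw : ρ * x ≤ w) : Dfun w y ρ x = Bv w y * ((ρ - 1) * x) := by
  unfold Dfun
  have hle : x ≤ ρ * x := le_mul_of_one_le_left hx.le hρ
  rw [Asum_of_lt hw hwy ((Nat.floor_le (by positivity)).trans hxw),
    Asum_of_lt hw hwy ((Nat.floor_le hx.le).trans (hle.trans hxw))]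
  ring

lemma Asum_succ (w y : ℝ) {N : ℕ} (hN : 1 ≤ N) :
    Asum w y (N + 1) = Asum w y N + av w y (N + 1) := by
  unfold Asum
  have : (Finset.Ioc 0 (N + 1)).filter (fun n => 2 ≤ n)
      = insert (N + 1) ((Finset.Ioc 0 N).filter (fun n => 2 ≤ n)) := by
    ext x; simp; omega
  rw [this, Finset.sum_insert (by simp)]
  ring

lemma Asum_sub {w y : ℝ} {a b : ℕ} (ha : 1 ≤ a) (hab : a ≤ b) :
    Asum w y b - Asum w y a = ∑ n ∈ Finset.Ioc a b, av w y n := by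
  unfold Asum
  have : (Finset.Ioc 0 b).filter (fun n => 2 ≤ n)
      = (Finset.Ioc 0 a).filter (fun n => 2 ≤ n) ∪ Finset.Ioc a b := by
    ext x; simp; omega
  rw [this, Finset.sum_union]
  · ring
  · rw [Finset.disjoint_left]
    intro x hx hx2
    simp at hx hx2
    omega

/-- For `(ρ-1) x ≤ 1` there is at most one integer in the window. -/
lemma Dfun_sq_le_small {w y : ℝ} (hw : 1 ≤ w) {ρ x : ℝ} (hρ : 1 ≤ ρ) (hx : 0 < x)
    (hx1 : (ρ - 1) * x ≤ 1) {N : ℕ} (hN : x ≤ N) :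
    Dfun w y ρ x ^ 2 ≤ 2 * (Bv w y ^ 2 * ((ρ - 1) * x) ^ 2)
      + 2 * ∑ n ∈ Finset.Ioc 0 (N + 1), (Ico ((n:ℝ) / ρ) n).indicator (fun _ => av w y n ^ 2) x := by
  have hρ0 : 0 < ρ := by linarith
  have hle : x ≤ ρ * x := le_mul_of_one_le_left hx.le hρ
  have hfl1 : ⌊x⌋₊ ≤ ⌊ρ * x⌋₊ := Nat.floor_le_floor hle
  have hfl2 : ⌊ρ * x⌋₊ ≤ ⌊x⌋₊ + 1 := by
    have : ρ * x ≤ x + 1 := by linarith
    calc ⌊ρ * x⌋₊ ≤ ⌊x + 1⌋₊ := Nat.floor_le_floor this
      _ = ⌊x⌋₊ + 1 := Nat.floor_add_one hx.le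
  have hnn : ∀ n ∈ Finset.Ioc 0 (N + 1),
      0 ≤ (Ico ((n:ℝ) / ρ) n).indicator (fun _ => av w y n ^ 2) x := by
    intro n _
    apply indicator_nonneg
    intro _ _; positivity
  have hS : (Asum w y ⌊ρ * x⌋₊ - Asum w y ⌊x⌋₊) ^ 2
      ≤ ∑ n ∈ Finset.Ioc 0 (N + 1), (Ico ((n:ℝ) / ρ) n).indicator (fun _ => av w y n ^ 2) x := by
    rcases Nat.lt_or_ge ⌊x⌋₊ 1 with h0 | h0
    · -- floor x = 0 : window only contains 1
      have h1 : ⌊x⌋₊ = 0 := by omega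
      have h2 : ⌊ρ * x⌋₊ ≤ 1 := by omega
      have h3 : Asum w y ⌊ρ * x⌋₊ = 0 := by
        unfold Asum
        refine Finset.sum_eq_zero fun n hn => ?_
        simp at hn; omega
      have h4 : Asum w y ⌊x⌋₊ = 0 := by rw [h1]; simp [Asum]
      rw [h3, h4]
      simpa using Finset.sum_nonneg hnn
    · rcases Nat.eq_or_lt_of_le hfl1 with heq | hlt
      · rw [← heq, sub_self]
        simpa using Finset.sum_nonneg hnn
      · have h1 : ⌊ρ * x⌋₊ = ⌊x⌋₊ + 1 := by omega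
        rw [h1, Asum_succ w y h0, add_sub_cancel_left]
        have hmem : ⌊x⌋₊ + 1 ∈ Finset.Ioc 0 (N + 1) := by
          simp only [Finset.mem_Ioc]
          refine ⟨by omega, ?_⟩
          have : ⌊x⌋₊ ≤ N := Nat.floor_le_of_le hN
          omega
        refine le_trans ?_ (Finset.single_le_sum hnn hmem)
        rw [indicator_of_mem]
        constructor
        · rw [div_le_iff₀ hρ0, ← h1, mul_comm]
          exact Nat.floor_le (by positivity)
        · push_cast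
          exact Nat.lt_floor_add_one x
  unfold Dfun
  set u := Bv w y * ((ρ - 1) * x) with hu
  set v := Asum w y ⌊ρ * x⌋₊ - Asum w y ⌊x⌋₊ with hv
  have h5 : (u - v) ^ 2 ≤ 2 * u ^ 2 + 2 * v ^ 2 := by nlinarith [sq_nonneg (u + v)]
  have h6 : u ^ 2 = Bv w y ^ 2 * ((ρ - 1) * x) ^ 2 := by rw [hu, mul_pow]
  rw [← h6]
  linarith

end Pool.Agent.PC10
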