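import Mathlib
import Pool.Agent.PC10.Energy1

/-!
# Mean square of `D` over dyadic intervals
-/

namespace Pool.Agent.PC10

open MeasureTheory Set

lemma level_set_interval {h : ℕ → ℕ} (hmono : Monotone h) (A B k : ℕ) :
    ∃ a L : ℕ, (Finset.Ico A B).filter (fun n => h n = k) = Finset.Ico a (a + L) := by
  set S := (Finset.Ico A B).filter (fun n => h n = k) with hS
  rcases S.eq_empty_or_nonempty with he | hne
  · exact ⟨0, 0, by rw [he]; simp⟩
  · refine ⟨S.min' hne, S.max' hne + 1 - S.min' hne, ?_⟩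
    have h1 : S.min' hne ∈ S := S.min'_mem hne
    have h2 : S.max' hne ∈ S := S.max'_mem hne
    have h12 : S.min' hne ≤ S.max' hne := S.min'_le _ h2
    have hmem : ∀ n, n ∈ S ↔ (A ≤ n ∧ n < B) ∧ h n = k := by
      intro n; rw [hS]; simp
    rw [hmem] at h1 h2
    ext n
    rw [Finset.mem_Ico]
    constructor
    · intro hn
      have a1 := S.min'_le n hn
      have a2 := S.le_max' n hn
      omega
    · intro hn
      have a2 : n ≤ S.max' hne := by omega
      rw [hmem]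
      have b1 := hmono hn.1
      have b2 := hmono a2
      refine ⟨⟨?_, ?_⟩, ?_⟩
      · exact h1.1.1.trans hn.1
      · exact lt_of_le_of_lt a2 h2.1.2
      · apply le_antisymm
        · exact b2.trans h2.2.le
        · exact h1.2.symm.le.trans b1

/-- The window length. -/
noncomputable def hwin (ρ τ : ℝ) (n : ℕ) : ℕ := ⌊ρ * (n + τ)⌋₊ - n

lemma le_floor_win {ρ τ : ℝ} (hρ : 1 ≤ ρ) (hτ : 0 ≤ τ) (n : ℕ) : n ≤ ⌊ρ * (n + τ)⌋₊ := by
  apply Nat.le_floor
  have h1 : (n:ℝ) ≤ n + τ := by linarith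
  have h2 : (n:ℝ) + τ ≤ ρ * (n + τ) := le_mul_of_one_le_left (by positivity) hρ
  linarith

lemma hwin_mono {ρ τ : ℝ} (hρ : 1 ≤ ρ) (hτ : 0 ≤ τ) : Monotone (hwin ρ τ) := by
  apply monotone_nat_of_le_succ
  intro n
  unfold hwin
  have h1 : ⌊ρ * (n + τ)⌋₊ + 1 ≤ ⌊ρ * ((n + 1 : ℕ) + τ)⌋₊ := by
    rw [← Nat.floor_add_one (by positivity)]
    apply Nat.floor_le_floor
    push_cast
    nlinarith
  have h2 := le_floor_win hρ hτ n
  omega

lemma hwin_cast {ρ τ : ℝ} (hρ : 1 ≤ ρ) (hτ : 0 ≤ τ) (n : ℕ) :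
    ((hwin ρ τ n : ℕ) : ℝ) = ⌊ρ * (n + τ)⌋₊ - n := by
  unfold hwin
  rw [Nat.cast_sub (le_floor_win hρ hτ n)]

lemma Dfun_sq_le_win {w y : ℝ} {ρ τ : ℝ} (hρ : 1 ≤ ρ) (hτ : 0 ≤ τ) (hτ1 : τ < 1) {n : ℕ}
    (hn : 1 ≤ n) :
    Dfun w y ρ (n + τ) ^ 2 ≤ 2 * (∑ m ∈ Finset.Ioc n (n + hwin ρ τ n), av w y m
      - hwin ρ τ n * Bv w y) ^ 2 + 2 * Bv w y ^ 2 := by
  have hfl : ⌊(n:ℝ) + τ⌋₊ = n := by
    rw [Nat.floor_eq_iff (by positivity)]
    constructor <;> linarith
  have hle := le_floor_win hρ hτ n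
  have h1 : n + hwin ρ τ n = ⌊ρ * (n + τ)⌋₊ := by unfold hwin; omega
  have h2 : Dfun w y ρ (n + τ) = Bv w y * ((ρ - 1) * (n + τ))
      - ∑ m ∈ Finset.Ioc n (n + hwin ρ τ n), av w y m := by
    unfold Dfun
    rw [hfl, Asum_sub hn hle, h1]
  have hcast := hwin_cast hρ hτ n
  set e := (ρ - 1) * (n + τ) - (hwin ρ τ n : ℝ) with he
  have hnt : (0:ℝ) ≤ ρ * (n + τ) := by positivity
  have he1 : |e| ≤ 1 := by
    rw [he, hcast, abs_le]
    have a1 := Nat.floor_le hnt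
    have a2 := (Nat.lt_floor_add_one (ρ * ((n:ℝ) + τ))).le
    constructor <;> linarith
  have h3 : Dfun w y ρ (n + τ) = - (∑ m ∈ Finset.Ioc n (n + hwin ρ τ n), av w y m
      - hwin ρ τ n * Bv w y) + Bv w y * e := by
    rw [h2, he]; ring
  rw [h3]
  set G := ∑ m ∈ Finset.Ioc n (n + hwin ρ τ n), av w y m - hwin ρ τ n * Bv w y with hG
  have h4 : (Bv w y * e) ^ 2 ≤ Bv w y ^ 2 := by
    rw [mul_pow]
    have : e ^ 2 ≤ 1 := by rw [← sq_abs]; exact pow_le_one₀ (abs_nonneg _) he1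
    nlinarith [sq_nonneg (Bv w y)]
  nlinarith [sq_nonneg (G + Bv w y * e)]

/-- `Q = (8/log(y/w))² e¹⁴ (1 + log y)`. -/
noncomputable def Qc (w y : ℝ) : ℝ := (8 / Real.log (y / w)) ^ 2 * (Real.exp 14 * (1 + Real.log y))

lemma Qc_nonneg {w y : ℝ} (hw : 1 ≤ w) (hwy : w < y) : 0 ≤ Qc w y := by
  unfold Qc
  have : 0 ≤ Real.log y := Real.log_nonneg (by linarith)
  positivity

lemma sum_win_sq_le {w y : ℝ} (hw : 1 ≤ w) (hwy : w < y) {ρ τ : ℝ} (hρ : 1 ≤ ρ) (hτ : 0 ≤ τ)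
    (X K : ℕ) (hK : ∀ n ∈ Finset.Ico X (2 * X), hwin ρ τ n < K) :
    ∑ n ∈ Finset.Ico X (2 * X), (∑ m ∈ Finset.Ioc n (n + hwin ρ τ n), av w y m
      - hwin ρ τ n * Bv w y) ^ 2 ≤ K * Qc w y * X + 2 * y ^ 4 * K := by
  have hy1 : 1 ≤ y := by linarith
  have hQ := Qc_nonneg hw hwy
  have h1 : ∑ n ∈ Finset.Ico X (2 * X), (∑ m ∈ Finset.Ioc n (n + hwin ρ τ n), av w y m
      - hwin ρ τ n * Bv w y) ^ 2
      = ∑ k ∈ Finset.range K, ∑ n ∈ (Finset.Ico X (2 * X)).filter (fun n => hwin ρ τ n = k),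
        (∑ m ∈ Finset.Ioc n (n + k), av w y m - k * Bv w y) ^ 2 := by
    rw [← Finset.sum_fiberwise_of_maps_to (s := Finset.Ico X (2 * X)) (t := Finset.range K)
      (g := hwin ρ τ) (fun n hn => Finset.mem_range.mpr (hK n hn))]
    refine Finset.sum_congr rfl fun k _ => ?_
    refine Finset.sum_congr rfl fun n hn => ?_
    simp only [Finset.mem_filter] at hn
    rw [hn.2]
  rw [h1]
  have h2 : ∀ k ∈ Finset.range K,
      ∑ n ∈ (Finset.Ico X (2 * X)).filter (fun n => hwin ρ τ n = k),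
        (∑ m ∈ Finset.Ioc n (n + k), av w y m - k * Bv w y) ^ 2
      ≤ (((Finset.Ico X (2 * X)).filter (fun n => hwin ρ τ n = k)).card : ℝ) * (K * Qc w y)
        + 2 * y ^ 4 := by
    intro k hk
    obtain ⟨a, L, haL⟩ := level_set_interval (hwin_mono hρ hτ) X (2 * X) k
    rw [haL]
    have h3 := variance_le hw hwy k a L
    simp only [Nat.card_Ico, add_tsub_cancel_left]
    refine h3.trans ?_
    have hkK : (k:ℝ) ≤ K := by
      have := Finset.mem_range.mp hk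
      exact_mod_cast this.le
    have : (L:ℝ) * (k * ((8 / Real.log (y / w)) ^ 2 * (Real.exp 14 * (1 + Real.log y))))
        ≤ L * (K * Qc w y) := by
      unfold Qc at hQ ⊢
      gcongr
    linarith
  refine (Finset.sum_le_sum h2).trans ?_
  rw [Finset.sum_add_distrib, ← Finset.sum_mul]
  have h4 : ∑ k ∈ Finset.range K,
      (((Finset.Ico X (2 * X)).filter (fun n => hwin ρ τ n = k)).card : ℝ) = X := by
    have h5 := Finset.card_eq_sum_card_fiberwise (s := Finset.Ico X (2 * X))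
      (t := Finset.range K) (f := hwin ρ τ) (fun n hn => Finset.mem_range.mpr (hK n hn))
    rw [Nat.card_Ico] at h5
    have h6 : 2 * X - X = X := by omega
    rw [h6] at h5
    conv_rhs => rw [h5]
    push_cast
    rfl
  rw [h4]
  simp only [Finset.sum_const, Finset.card_range, nsmul_eq_mul]
  apply le_of_eq
  ring

/-- Mean square over dyadic intervals. -/
theorem integral_Dfun_sq_le {w y : ℝ} (hw : 1 ≤ w) (hwy : w < y) {ρ : ℝ} (hρ : 1 ≤ ρ)
    {X : ℕ} (hX : 1 ≤ X) :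
    ∫ x in (X:ℝ)..(2 * X : ℕ), Dfun w y ρ x ^ 2 ≤
      2 * (((ρ - 1) * (2 * X) + 3) * (Qc w y * X + 2 * y ^ 4)) + 2 * Bv w y ^ 2 * X := by
  have hy1 : 1 ≤ y := by linarith
  have hQ := Qc_nonneg hw hwy
  have hint : ∀ a b : ℝ, 0 < a → 0 < b →
      IntervalIntegrable (fun x => Dfun w y ρ x ^ 2) volume a b := by
    intro a b ha hb
    apply IntervalIntegrable.mono_fun (f := fun _ => (y + 1) ^ 2) intervalIntegrable_const
    · exact ((measurable_Dfun w y ρ).pow_const 2).aestronglyMeasurable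
    · refine (ae_restrict_iff' measurableSet_uIoc).mpr (Filter.Eventually.of_forall fun x hx => ?_)
      have hx0 : 0 < x := by
        rw [mem_uIoc] at hx
        rcases hx with h | h
        · exact ha.trans h.1
        · exact hb.trans h.1
      have hy10 : (0:ℝ) ≤ y + 1 := by linarith
      show ‖Dfun w y ρ x ^ 2‖ ≤ ‖(y + 1) ^ 2‖
      rw [norm_pow, norm_pow, Real.norm_eq_abs, Real.norm_eq_abs, abs_of_nonneg hy10]
      exact pow_le_pow_left₀ (abs_nonneg _) (abs_Dfun_le hw hwy hρ hx0) 2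
  have hXr : (1:ℝ) ≤ X := by exact_mod_cast hX
  have h1 : ∫ x in (X:ℝ)..(2 * X : ℕ), Dfun w y ρ x ^ 2
      = ∑ n ∈ Finset.Ico X (2 * X), ∫ τ in (0:ℝ)..1, Dfun w y ρ (n + τ) ^ 2 := by
    rw [← intervalIntegral.sum_integral_adjacent_intervals_Ico (a := fun k : ℕ => (k:ℝ))
      (by omega)]
    · refine Finset.sum_congr rfl fun n _ => ?_
      have := intervalIntegral.integral_comp_add_left (a := 0) (b := 1)
        (fun x => Dfun w y ρ x ^ 2) (n:ℝ)
      rw [this]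
      push_cast
      rw [add_zero]
    · intro k hk
      have hk0 : (0:ℝ) < k := by
        have : 1 ≤ k := hX.trans hk.1
        exact_mod_cast this
      exact hint _ _ hk0 (by push_cast; linarith)
  have hint2 : ∀ n ∈ Finset.Ico X (2 * X),
      IntervalIntegrable (fun τ => Dfun w y ρ (n + τ) ^ 2) volume 0 1 := by
    intro n hn
    simp only [Finset.mem_Ico] at hn
    have hn0 : (0:ℝ) < n := by
      have : 1 ≤ n := hX.trans hn.1
      exact_mod_cast this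
    have := (hint n (n + 1) hn0 (by linarith)).comp_add_left (n:ℝ)
    simpa using this
  rw [h1, ← intervalIntegral.integral_finsetSum hint2]
  set K : ℕ := ⌊(ρ - 1) * (2 * X)⌋₊ + 3 with hK
  have hρX : 0 ≤ (ρ - 1) * (2 * (X:ℝ)) := by
    have : 0 ≤ ρ - 1 := by linarith
    positivity
  have hKr : (K:ℝ) ≤ (ρ - 1) * (2 * X) + 3 := by
    rw [hK]; push_cast
    linarith [Nat.floor_le hρX]
  set c := 2 * (((ρ - 1) * (2 * X) + 3) * (Qc w y * X + 2 * y ^ 4)) + 2 * Bv w y ^ 2 * X with hc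
  have h2 : ∀ τ ∈ Ioo (0:ℝ) 1, ∑ n ∈ Finset.Ico X (2 * X), Dfun w y ρ (n + τ) ^ 2 ≤ c := by
    intro τ hτ
    have hwinK : ∀ n ∈ Finset.Ico X (2 * X), hwin ρ τ n < K := by
      intro n hn
      simp only [Finset.mem_Ico] at hn
      have a1 := hwin_cast hρ hτ.1.le n
      have a2 := Nat.floor_le (show (0:ℝ) ≤ ρ * (n + τ) by
        have := hτ.1.le
        positivity)
      have a3 : (n:ℝ) + 1 ≤ 2 * X := by
        have : n + 1 ≤ 2 * X := hn.2
        exact_mod_cast this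
      have a4 : ((hwin ρ τ n : ℕ) : ℝ) < K := by
        rw [a1, hK]
        push_cast
        have a5 := Nat.lt_floor_add_one ((ρ - 1) * (2 * (X:ℝ)))
        have a6 : (ρ - 1) * (n + τ) ≤ (ρ - 1) * (2 * X) := by
          apply mul_le_mul_of_nonneg_left _ (by linarith)
          linarith [hτ.2]
        have a7 := hτ.2
        nlinarith
      exact_mod_cast a4
    have h3 : ∑ n ∈ Finset.Ico X (2 * X), Dfun w y ρ (n + τ) ^ 2 ≤
        ∑ n ∈ Finset.Ico X (2 * X), (2 * (∑ m ∈ Finset.Ioc n (n + hwin ρ τ n), av w y m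
      - hwin ρ τ n * Bv w y) ^ 2 + 2 * Bv w y ^ 2) := by
      refine Finset.sum_le_sum fun n hn => ?_
      simp only [Finset.mem_Ico] at hn
      exact Dfun_sq_le_win hρ hτ.1.le hτ.2 (hX.trans hn.1)
    refine h3.trans ?_
    rw [Finset.sum_add_distrib, ← Finset.mul_sum]
    simp only [Finset.sum_const, Nat.card_Ico, nsmul_eq_mul]
    have h4 := sum_win_sq_le hw hwy hρ hτ.1.le X K hwinK
    have h5 : (((2 * X - X : ℕ)) : ℝ) = X := by
      have : 2 * X - X = X := by omega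
      rw [this]
    rw [h5]
    have h6 : (K:ℝ) * Qc w y * X + 2 * y ^ 4 * K ≤
        ((ρ - 1) * (2 * X) + 3) * (Qc w y * X + 2 * y ^ 4) := by
      have : (K:ℝ) * Qc w y * X + 2 * y ^ 4 * K = K * (Qc w y * X + 2 * y ^ 4) := by ring
      rw [this]
      gcongr
    rw [hc]
    linarith
  calc ∫ τ in (0:ℝ)..1, ∑ n ∈ Finset.Ico X (2 * X), Dfun w y ρ (n + τ) ^ 2
      ≤ ∫ _τ in (0:ℝ)..1, c := by
        have hs := IntervalIntegrable.sum _ hint2
        have hs2 : (∑ i ∈ Finset.Ico X (2 * X), fun τ : ℝ => Dfun w y ρ (i + τ) ^ 2)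
            = fun τ : ℝ => ∑ n ∈ Finset.Ico X (2 * X), Dfun w y ρ (n + τ) ^ 2 := by
          funext τ; simp
        rw [hs2] at hs
        exact intervalIntegral.integral_mono_on_of_le_Ioo (by norm_num) hs
          intervalIntegrable_const h2
    _ = c := by simp

end Pool.Agent.PC10
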