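import Mathlib
import Pool.Agent.PC10.Energy2

/-!
# The weighted energy of `D`
-/

namespace Pool.Agent.PC10

open MeasureTheory Set

lemma intervalIntegrable_Dfun_sq_rpow {w y : ℝ} (hw : 1 ≤ w) (hwy : w < y) {ρ : ℝ} (hρ : 1 ≤ ρ)
    (e : ℝ) {a b : ℝ} (ha : 0 < a) (hb : 0 < b) :
    IntervalIntegrable (fun x => Dfun w y ρ x ^ 2 * x ^ e) volume a b := by
  have hy10 : (0:ℝ) ≤ y + 1 := by linarith
  have h1 : IntervalIntegrable (fun x : ℝ => (y + 1) ^ 2 * x ^ e) volume a b := by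
    apply IntervalIntegrable.const_mul
    apply intervalIntegral.intervalIntegrable_rpow
    right
    rw [mem_uIcc]
    push Not
    constructor
    · intro h; linarith
    · intro h; linarith
  refine h1.mono_fun ?_ ?_
  · exact (((measurable_Dfun w y ρ).pow_const 2).mul (measurable_id.pow_const e)).aestronglyMeasurable
  · refine (ae_restrict_iff' measurableSet_uIoc).mpr (Filter.Eventually.of_forall fun x hx => ?_)
    have hx0 : 0 < x := by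
      rw [mem_uIoc] at hx
      rcases hx with h | h
      · exact ha.trans h.1
      · exact hb.trans h.1
    show ‖Dfun w y ρ x ^ 2 * x ^ e‖ ≤ ‖(y + 1) ^ 2 * x ^ e‖
    rw [norm_mul, norm_mul]
    gcongr
    rw [norm_pow, norm_pow, Real.norm_eq_abs, Real.norm_eq_abs, abs_of_nonneg hy10]
    exact pow_le_pow_left₀ (abs_nonneg _) (abs_Dfun_le hw hwy hρ hx0) 2

/-- Small region. -/
lemma energy_small {w y : ℝ} (hw : 1 ≤ w) (hwy : w < y) {ρ κ : ℝ} (hρ : 1 ≤ ρ) (hρ2 : ρ ≤ 2)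
    (hκ : 0 ≤ κ) (hκ1 : κ ≤ 1) {N : ℕ} (hN : (ρ - 1) * N ≤ 1) {a : ℝ} (ha : 1 / 2 ≤ a)
    (haN : a ≤ N) :
    ∫ x in a..N, Dfun w y ρ x ^ 2 * x ^ (-2 - κ) ≤
      4 * Bv w y ^ 2 * (ρ - 1) ^ 2 * N
        + 8 * (ρ - 1) * ∑ n ∈ Finset.Ioc 0 (N + 1), av w y n ^ 2 * (n:ℝ) ^ (-(1 + κ)) := by
  have ha0 : 0 < a := by linarith
  have hN0 : (0:ℝ) < N := by linarith
  have hρ0 : 0 < ρ := by linarith
  have hρ1 : 0 ≤ ρ - 1 := by linarith
  -- pointwise bound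
  have hpt : ∀ x ∈ Icc a N, Dfun w y ρ x ^ 2 * x ^ (-2 - κ) ≤
      4 * (Bv w y ^ 2 * (ρ - 1) ^ 2) + 2 * ∑ n ∈ Finset.Ioc 0 (N + 1),
        (Ico ((n:ℝ) / ρ) n).indicator (fun x : ℝ => av w y n ^ 2 * x ^ (-2 - κ)) x := by
    intro x hx
    have hx0 : 0 < x := by linarith [hx.1]
    have hx1 : (ρ - 1) * x ≤ 1 :=
      (mul_le_mul_of_nonneg_left hx.2 hρ1).trans hN
    have h1 := Dfun_sq_le_small (w := w) (y := y) hw hρ hx0 hx1 hx.2
    have hxe : 0 ≤ x ^ (-2 - κ) := by positivity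
    have h2 := mul_le_mul_of_nonneg_right h1 hxe
    refine h2.trans ?_
    rw [add_mul]
    have h3 : 2 * (Bv w y ^ 2 * ((ρ - 1) * x) ^ 2) * x ^ (-2 - κ) ≤
        4 * (Bv w y ^ 2 * (ρ - 1) ^ 2) := by
      have h4 : x ^ 2 * x ^ (-2 - κ) = x ^ (-κ) := by
        rw [← Real.rpow_natCast, ← Real.rpow_add hx0]
        congr 1; push_cast; ring
      have h5 : x ^ (-κ) ≤ 2 := by
        rw [Real.rpow_neg hx0.le, ← Real.inv_rpow hx0.le]
        have h6 : x⁻¹ ≤ 2 := by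
          rw [inv_le_comm₀ hx0 (by norm_num)]; linarith [hx.1]
        calc (x⁻¹) ^ κ ≤ 2 ^ κ := by gcongr
          _ ≤ 2 ^ (1:ℝ) := by gcongr; norm_num
          _ = 2 := Real.rpow_one 2
      calc 2 * (Bv w y ^ 2 * ((ρ - 1) * x) ^ 2) * x ^ (-2 - κ)
          = 2 * (Bv w y ^ 2 * (ρ - 1) ^ 2) * (x ^ 2 * x ^ (-2 - κ)) := by ring
        _ = 2 * (Bv w y ^ 2 * (ρ - 1) ^ 2) * x ^ (-κ) := by rw [h4]
        _ ≤ 2 * (Bv w y ^ 2 * (ρ - 1) ^ 2) * 2 := by gcongr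
        _ = _ := by ring
    have h7 : (2 * ∑ n ∈ Finset.Ioc 0 (N + 1),
        (Ico ((n:ℝ) / ρ) n).indicator (fun _ => av w y n ^ 2) x) * x ^ (-2 - κ)
        = 2 * ∑ n ∈ Finset.Ioc 0 (N + 1),
        (Ico ((n:ℝ) / ρ) n).indicator (fun x : ℝ => av w y n ^ 2 * x ^ (-2 - κ)) x := by
      rw [mul_assoc, Finset.sum_mul]
      congr 1
      refine Finset.sum_congr rfl fun n _ => ?_
      by_cases h : x ∈ Ico ((n:ℝ) / ρ) n
      · rw [indicator_of_mem h, indicator_of_mem h]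
      · rw [indicator_of_notMem h, indicator_of_notMem h, zero_mul]
    rw [h7]
    linarith
  -- integral of the indicator pieces
  have hIco : ∀ n ∈ Finset.Ioc 0 (N + 1), IntegrableOn (fun x : ℝ => av w y n ^ 2 * x ^ (-2 - κ))
      (Ico ((n:ℝ) / ρ) n) := by
    intro n hn
    simp only [Finset.mem_Ioc] at hn
    have hn0 : (0:ℝ) < n := by exact_mod_cast hn.1
    have : ContinuousOn (fun x : ℝ => av w y n ^ 2 * x ^ (-2 - κ)) (Icc ((n:ℝ) / ρ) n) := by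
      apply ContinuousOn.mul continuousOn_const
      intro x hx
      apply ContinuousAt.continuousWithinAt
      apply Real.continuousAt_rpow_const
      left
      have : 0 < (n:ℝ) / ρ := by positivity
      linarith [hx.1]
    exact this.integrableOn_Icc.mono_set Ico_subset_Icc_self
  have hInd : ∀ n ∈ Finset.Ioc 0 (N + 1), Integrable
      ((Ico ((n:ℝ) / ρ) n).indicator (fun x : ℝ => av w y n ^ 2 * x ^ (-2 - κ))) :=
    fun n hn => (integrable_indicator_iff measurableSet_Ico).mpr (hIco n hn)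
  have hIval : ∀ n ∈ Finset.Ioc 0 (N + 1),
      ∫ x in a..N, (Ico ((n:ℝ) / ρ) n).indicator (fun x : ℝ => av w y n ^ 2 * x ^ (-2 - κ)) x
        ≤ 4 * (ρ - 1) * (av w y n ^ 2 * (n:ℝ) ^ (-(1 + κ))) := by
    intro n hn
    have hn' := hn
    simp only [Finset.mem_Ioc] at hn'
    have hn0 : (0:ℝ) < n := by exact_mod_cast hn'.1
    have hnn : ∀ x : ℝ, 0 ≤ (Ico ((n:ℝ) / ρ) n).indicator
        (fun x : ℝ => av w y n ^ 2 * x ^ (-2 - κ)) x := by
      intro x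
      apply indicator_nonneg
      intro z hz
      have : 0 < (n:ℝ) / ρ := by positivity
      have hz0 : 0 < z := lt_of_lt_of_le this hz.1
      positivity
    rw [intervalIntegral.integral_of_le haN]
    have h1 : ∫ x in Ioc a N, (Ico ((n:ℝ) / ρ) n).indicator
        (fun x : ℝ => av w y n ^ 2 * x ^ (-2 - κ)) x ≤
        ∫ x, (Ico ((n:ℝ) / ρ) n).indicator (fun x : ℝ => av w y n ^ 2 * x ^ (-2 - κ)) x :=
      setIntegral_le_integral (hInd n hn) (Filter.Eventually.of_forall hnn)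
    refine h1.trans ?_
    rw [integral_indicator measurableSet_Ico]
    have h2 : ∀ x ∈ Ico ((n:ℝ) / ρ) n, av w y n ^ 2 * x ^ (-2 - κ) ≤
        av w y n ^ 2 * ((n:ℝ) / ρ) ^ (-2 - κ) := by
      intro x hx
      exact mul_le_mul_of_nonneg_left
        (Real.rpow_le_rpow_of_nonpos (by positivity) hx.1 (by linarith)) (sq_nonneg _)
    have h3 : ∫ x in Ico ((n:ℝ) / ρ) n, av w y n ^ 2 * x ^ (-2 - κ) ≤
        ∫ _x in Ico ((n:ℝ) / ρ) n, av w y n ^ 2 * ((n:ℝ) / ρ) ^ (-2 - κ) := by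
      apply setIntegral_mono_on (hIco n hn) _ measurableSet_Ico h2
      exact continuousOn_const.integrableOn_Icc.mono_set Ico_subset_Icc_self
    refine h3.trans ?_
    have hle : (n:ℝ) / ρ ≤ n := div_le_self hn0.le hρ
    rw [setIntegral_const, measureReal_def, Real.volume_Ico,
      ENNReal.toReal_ofReal (by linarith), smul_eq_mul]
    have h4 : (n:ℝ) - n / ρ = (ρ - 1) * n / ρ := by field_simp
    have h5 : ((n:ℝ) / ρ) ^ (-2 - κ) = (n:ℝ) ^ (-2 - κ) * ρ ^ (2 + κ) := by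
      rw [Real.div_rpow hn0.le hρ0.le, div_eq_mul_inv, ← Real.rpow_neg hρ0.le]
      congr 2; ring
    have h6 : (n:ℝ) ^ (-(1 + κ)) = n * (n:ℝ) ^ (-2 - κ) := by
      rw [← Real.rpow_one_add' hn0.le (by linarith)]
      congr 1; ring
    have h7 : ρ ^ (2 + κ) = ρ * ρ ^ (1 + κ) := by
      rw [← Real.rpow_one_add' hρ0.le (by linarith)]
      congr 1; ring
    have h8 : ρ ^ (1 + κ) ≤ 4 := by
      calc ρ ^ (1 + κ) ≤ 2 ^ (1 + κ) := by gcongr
        _ ≤ 2 ^ (2:ℝ) := Real.rpow_le_rpow_of_exponent_le (by norm_num) (by linarith)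
        _ = 4 := by norm_num
    rw [h4, h5, h6, h7]
    have h9 : (ρ - 1) * n / ρ * (av w y n ^ 2 * ((n:ℝ) ^ (-2 - κ) * (ρ * ρ ^ (1 + κ))))
        = (ρ - 1) * (av w y n ^ 2 * (n * (n:ℝ) ^ (-2 - κ))) * ρ ^ (1 + κ) := by
      field_simp
    rw [h9]
    have h10 : 0 ≤ (ρ - 1) * (av w y n ^ 2 * (n * (n:ℝ) ^ (-2 - κ))) := by positivity
    nlinarith
  have hsumint : IntervalIntegrable (fun x => ∑ n ∈ Finset.Ioc 0 (N + 1),
        (Ico ((n:ℝ) / ρ) n).indicator (fun x : ℝ => av w y n ^ 2 * x ^ (-2 - κ)) x)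
        volume a N := by
    apply IntegrableOn.intervalIntegrable
    exact (integrable_finsetSum _ hInd).integrableOn
  calc ∫ x in a..N, Dfun w y ρ x ^ 2 * x ^ (-2 - κ)
      ≤ ∫ x in a..N, (4 * (Bv w y ^ 2 * (ρ - 1) ^ 2) + 2 * ∑ n ∈ Finset.Ioc 0 (N + 1),
        (Ico ((n:ℝ) / ρ) n).indicator (fun x : ℝ => av w y n ^ 2 * x ^ (-2 - κ)) x) := by
        apply intervalIntegral.integral_mono_on haN
          (intervalIntegrable_Dfun_sq_rpow hw hwy hρ _ ha0 hN0)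
          (intervalIntegrable_const.add (hsumint.const_mul 2)) hpt
    _ = (N - a) * (4 * (Bv w y ^ 2 * (ρ - 1) ^ 2)) + 2 * ∑ n ∈ Finset.Ioc 0 (N + 1),
        ∫ x in a..N, (Ico ((n:ℝ) / ρ) n).indicator (fun x : ℝ => av w y n ^ 2 * x ^ (-2 - κ)) x := by
        rw [intervalIntegral.integral_add intervalIntegrable_const (hsumint.const_mul 2),
          intervalIntegral.integral_const, smul_eq_mul, intervalIntegral.integral_const_mul,
          intervalIntegral.integral_finsetSum]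
        intro n hn
        exact (hInd n hn).intervalIntegrable
    _ ≤ N * (4 * (Bv w y ^ 2 * (ρ - 1) ^ 2)) + 2 * ∑ n ∈ Finset.Ioc 0 (N + 1),
        (4 * (ρ - 1) * (av w y n ^ 2 * (n:ℝ) ^ (-(1 + κ)))) := by
        gcongr with n hn
        · linarith
        · exact hIval n hn
    _ = _ := by
        rw [← Finset.mul_sum]; ring

/-- Dyadic region. -/
lemma energy_dyadic {w y : ℝ} (hw : 1 ≤ w) (hwy : w < y) {ρ κ T : ℝ} (hρ : 1 ≤ ρ)
    (hκ : 0 ≤ κ) (hT : 1 ≤ T) (hρT : ρ - 1 ≤ 1 / T) {X : ℕ} (hX : T ≤ X) :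
    ∫ x in (X:ℝ)..(2 * X : ℕ), Dfun w y ρ x ^ 2 * x ^ (-2 - κ) ≤
      10 * Qc w y / T + 20 * y ^ 4 / T ^ 2 + 2 * Bv w y ^ 2 / T := by
  have hXr : (1:ℝ) ≤ X := hT.trans hX
  have hX1 : 1 ≤ X := by exact_mod_cast hXr
  have hX0 : (0:ℝ) < X := by linarith
  have hT0 : 0 < T := by linarith
  have hy1 : 1 ≤ y := by linarith
  have hQ := Qc_nonneg hw hwy
  have h2X : (X:ℝ) ≤ (2 * X : ℕ) := by push_cast; linarith
  have h2X0 : (0:ℝ) < (2 * X : ℕ) := by linarith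
  have hρ1 : 0 ≤ ρ - 1 := by linarith
  have h1 : ∫ x in (X:ℝ)..(2 * X : ℕ), Dfun w y ρ x ^ 2 * x ^ (-2 - κ) ≤
      ∫ x in (X:ℝ)..(2 * X : ℕ), Dfun w y ρ x ^ 2 * (1 / (X:ℝ) ^ 2) := by
    have hi0 := intervalIntegrable_Dfun_sq_rpow hw hwy hρ 0 hX0 h2X0
    simp only [Real.rpow_zero, mul_one] at hi0
    apply intervalIntegral.integral_mono_on h2X
      (intervalIntegrable_Dfun_sq_rpow hw hwy hρ _ hX0 h2X0) (hi0.mul_const _)
    intro x hx
    have hx0 : 0 < x := by linarith [hx.1]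
    gcongr
    calc x ^ (-2 - κ) ≤ (X:ℝ) ^ (-2 - κ) :=
          Real.rpow_le_rpow_of_nonpos hX0 hx.1 (by linarith)
      _ ≤ (X:ℝ) ^ (-2:ℝ) := Real.rpow_le_rpow_of_exponent_le hXr (by linarith)
      _ = 1 / (X:ℝ) ^ 2 := by
          rw [Real.rpow_neg hX0.le, one_div]
          congr 1
          exact_mod_cast Real.rpow_natCast (X:ℝ) 2
  refine h1.trans ?_
  rw [intervalIntegral.integral_mul_const]
  have h2 := integral_Dfun_sq_le hw hwy hρ hX1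
  have h3 : (ρ - 1) * (2 * X) + 3 ≤ 5 * (X / T) := by
    have h4 : (ρ - 1) * (2 * X) ≤ 1 / T * (2 * X) := by gcongr
    have h5 : 1 ≤ (X:ℝ) / T := by rw [le_div_iff₀ hT0]; linarith
    have h6 : 1 / T * (2 * (X:ℝ)) = 2 * (X / T) := by ring
    linarith
  have h4 : 2 * (((ρ - 1) * (2 * X) + 3) * (Qc w y * X + 2 * y ^ 4)) + 2 * Bv w y ^ 2 * X ≤
      2 * ((5 * (X / T)) * (Qc w y * X + 2 * y ^ 4)) + 2 * Bv w y ^ 2 * X := by
    gcongr
  have h5 := mul_le_mul_of_nonneg_right (h2.trans h4) (show (0:ℝ) ≤ 1 / (X:ℝ) ^ 2 by positivity)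
  refine h5.trans ?_
  have h6 : (2 * ((5 * (X / T)) * (Qc w y * X + 2 * y ^ 4)) + 2 * Bv w y ^ 2 * X) * (1 / (X:ℝ) ^ 2)
      = 10 * Qc w y / T + 20 * y ^ 4 / (T * X) + 2 * Bv w y ^ 2 / X := by
    field_simp
    ring
  rw [h6]
  have h7 : 20 * y ^ 4 / (T * X) ≤ 20 * y ^ 4 / T ^ 2 := by
    rw [sq]; gcongr
  have h8 : 2 * Bv w y ^ 2 / X ≤ 2 * Bv w y ^ 2 / T := by gcongr
  linarith

/-- Sum over dyadic blocks. -/
lemma energy_large {w y : ℝ} (hw : 1 ≤ w) (hwy : w < y) {ρ κ T : ℝ} (hρ : 1 ≤ ρ)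
    (hκ : 0 ≤ κ) (hT : 1 ≤ T) (hρT : ρ - 1 ≤ 1 / T) {X : ℕ} (hX : T ≤ X) (J : ℕ) :
    ∫ x in (X:ℝ)..(2 ^ J * X : ℕ), Dfun w y ρ x ^ 2 * x ^ (-2 - κ) ≤
      J * (10 * Qc w y / T + 20 * y ^ 4 / T ^ 2 + 2 * Bv w y ^ 2 / T) := by
  have hXr : (1:ℝ) ≤ X := hT.trans hX
  have hX1 : 1 ≤ X := by exact_mod_cast hXr
  induction J with
  | zero => simp
  | succ J ih =>
    have hpos : ∀ j : ℕ, (0:ℝ) < (2 ^ j * X : ℕ) := by
      intro j; push_cast; positivity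
    rw [← intervalIntegral.integral_add_adjacent_intervals
      (intervalIntegrable_Dfun_sq_rpow hw hwy hρ _ (by linarith) (hpos J))
      (intervalIntegrable_Dfun_sq_rpow hw hwy hρ _ (hpos J) (hpos (J+1)))]
    have hTX : T ≤ ((2 ^ J * X : ℕ) : ℝ) := by
      refine hX.trans ?_
      have : X ≤ 2 ^ J * X := Nat.le_mul_of_pos_left _ (by positivity)
      exact_mod_cast this
    have h1 := energy_dyadic (w := w) (y := y) hw hwy hρ hκ hT hρT hTX
    have h2 : 2 ^ (J + 1) * X = 2 * (2 ^ J * X) := by ring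
    rw [h2]
    push_cast at ih h1 ⊢
    linarith

end Pool.Agent.PC10
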