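import Mathlib
import Pool.Agent.PC10.Energy3

/-!
# Choice of parameters and the basic energy bound
-/

namespace Pool.Agent.PC10

open MeasureTheory Set Real

/-- Parameters. -/
noncomputable def wT (T : ℝ) : ℝ := T ^ (1 / 16 : ℝ)
noncomputable def yT (T : ℝ) : ℝ := T ^ (1 / 8 : ℝ)
noncomputable def rT (T : ℝ) : ℝ := exp (1 / (2 * T))
noncomputable def kT (T : ℝ) : ℝ := 2 / log T
noncomputable def NT (T : ℝ) : ℕ := ⌈T⌉₊
noncomputable def JT (T : ℝ) : ℕ := ⌈3 * log T / log 2⌉₊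
noncomputable def XT (T : ℝ) : ℕ := 2 ^ JT T * NT T

section
variable {T : ℝ} (hT : exp 16 ≤ T)
include hT

lemma hT0 : 0 < T := (exp_pos _).trans_le hT
lemma hT16 : 16 ≤ log T := by
  have := Real.log_le_log (exp_pos 16) hT
  rwa [log_exp] at this
lemma hT1000 : 1000 ≤ T := by
  have h1 : (2:ℝ) ≤ exp 1 := by
    have := add_one_le_exp (1:ℝ); linarith
  have h2 : exp 16 = exp 1 ^ 16 := by rw [← exp_nat_mul]; norm_num
  have h3 : (2:ℝ) ^ 16 ≤ exp 1 ^ 16 := pow_le_pow_left₀ (by norm_num) h1 16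
  rw [h2] at hT
  norm_num at h3
  linarith
lemma hlogw : log (wT T) = log T / 16 := by
  rw [wT, log_rpow (hT0 hT)]; ring
lemma hlogy : log (yT T) = log T / 8 := by
  rw [yT, log_rpow (hT0 hT)]; ring
lemma wT_eq : wT T = exp (log T / 16) := by
  rw [← hlogw hT, exp_log]; unfold wT; have := hT0 hT; positivity
lemma yT_eq : yT T = exp (log T / 8) := by
  rw [← hlogy hT, exp_log]; unfold yT; have := hT0 hT; positivity
lemma two_le_wT : 2 ≤ wT T := by
  rw [wT_eq hT]
  have := hT16 hT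
  have h1 := add_one_le_exp (log T / 16)
  linarith
lemma one_le_wT : 1 ≤ wT T := by linarith [two_le_wT hT]
lemma wT_lt_yT : wT T < yT T := by
  rw [wT_eq hT, yT_eq hT]
  have := hT16 hT
  exact exp_lt_exp.mpr (by linarith)
lemma hlogyw : log (yT T / wT T) = log T / 16 := by
  have h1 := one_le_wT hT
  have h2 := wT_lt_yT hT
  rw [log_div (by linarith) (by linarith), hlogw hT, hlogy hT]; ring
lemma one_le_rT : 1 ≤ rT T := by
  unfold rT
  have := hT0 hT
  rw [← exp_zero]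
  exact exp_le_exp.mpr (by positivity)
lemma rT_sub_le : rT T - 1 ≤ 1 / (2 * T) + (1 / (2 * T)) ^ 2 := by
  unfold rT
  have h0 := hT0 hT
  have h1 := hT1000 hT
  have h2 : 1 / (2 * T) ≤ 1 := by
    rw [div_le_one (by linarith)]; linarith
  have h3 : 0 ≤ 1 / (2 * T) := by positivity
  have h4 := Real.abs_exp_sub_one_sub_id_le (x := 1 / (2 * T)) (by rw [abs_of_nonneg h3]; exact h2)
  have := (abs_le.mp h4).2
  linarith
lemma rT_sub_le' : rT T - 1 ≤ 1 / T := by
  have h0 := hT0 hT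
  have h1 := hT1000 hT
  refine (rT_sub_le hT).trans ?_
  have h2 : 1 / (2 * T) ≤ 1 := by
    rw [div_le_one (by linarith)]; linarith
  have h3 : 0 ≤ 1 / (2 * T) := by positivity
  have h4 : (1 / (2 * T)) ^ 2 ≤ 1 / (2 * T) := by nlinarith
  have h5 : 1 / T = 1 / (2 * T) + 1 / (2 * T) := by field_simp; norm_num
  linarith
lemma rT_lt_two : rT T < 2 := by
  have h0 := hT0 hT
  have h1 := hT1000 hT
  have h2 := rT_sub_le' hT
  have h3 : 1 / T < 1 := by rw [div_lt_one h0]; linarith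
  linarith
lemma NT_le : (NT T : ℝ) ≤ T + 1 := by
  exact (Nat.ceil_lt_add_one (hT0 hT).le).le
lemma le_NT : T ≤ (NT T : ℝ) := Nat.le_ceil T
lemma rT_NT : (rT T - 1) * NT T ≤ 1 := by
  have h0 := hT0 hT
  have h1 := hT1000 hT
  have h2 := rT_sub_le hT
  have h3 := NT_le hT
  have h4 : 0 ≤ rT T - 1 := by linarith [one_le_rT hT]
  have h5 : (rT T - 1) * NT T ≤ (1 / (2 * T) + (1 / (2 * T)) ^ 2) * (T + 1) := by gcongr
  refine h5.trans ?_
  have h6 : (1 / (2 * T) + (1 / (2 * T)) ^ 2) * (T + 1) = 1 / 2 + (1 / 2) / T + (1/4) / T + (1/4) / T ^ 2 := by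
    field_simp; ring
  rw [h6]
  have h7 : (1/2) / T ≤ (1/2) / 1000 := by gcongr
  have h8 : (1/4) / T ≤ (1/4) / 1000 := by gcongr
  have h9 : (1/4) / T ^ 2 ≤ (1/4) / 1000 ^ 2 := by gcongr
  norm_num at h7 h8 h9 ⊢
  linarith
lemma kT_pos : 0 < kT T := by
  unfold kT; have := hT16 hT; positivity
lemma kT_le : kT T ≤ 1 := by
  unfold kT; have := hT16 hT
  rw [div_le_one (by linarith)]; linarith
lemma JT_le : (JT T : ℝ) ≤ 6 * log T := by
  unfold JT
  have h16 := hT16 hT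
  have h2 := Real.log_two_gt_d9
  have h3 : 0 ≤ 3 * log T / log 2 := by positivity
  have h4 := (Nat.ceil_lt_add_one h3).le
  refine h4.trans ?_
  have h5 : 3 * log T / log 2 ≤ 3 * log T / 0.69 := by
    gcongr; linarith
  have h6 : 3 * log T / 0.69 ≤ 5 * log T := by
    rw [div_le_iff₀ (by norm_num)]; nlinarith
  linarith
lemma two_pow_JT : T ^ 3 ≤ (2:ℝ) ^ JT T ∧ (2:ℝ) ^ JT T ≤ 2 * T ^ 3 := by
  have h0 := hT0 hT
  have h16 := hT16 hT
  have h2 : 0 < log 2 := Real.log_pos (by norm_num)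
  have h3 : 0 ≤ 3 * log T / log 2 := by positivity
  have key : ∀ n : ℕ, (2:ℝ) ^ n = exp (n * log 2) := by
    intro n; rw [exp_nat_mul, exp_log (by norm_num)]
  have hT3 : T ^ 3 = exp (3 * log T) := by
    have : exp (3 * log T) = exp (log T) ^ 3 := by rw [← exp_nat_mul]; norm_num
    rw [this, exp_log h0]
  constructor
  · rw [key, hT3]
    apply exp_le_exp.mpr
    have := Nat.le_ceil (3 * log T / log 2)
    rw [div_le_iff₀ h2] at this
    exact this
  · rw [key, hT3]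
    have h4 := (Nat.ceil_lt_add_one h3).le
    have h5 : (JT T : ℝ) * log 2 ≤ (3 * log T / log 2 + 1) * log 2 := by
      unfold JT; gcongr
    have h6 : (3 * log T / log 2 + 1) * log 2 = 3 * log T + log 2 := by
      field_simp
    rw [h6] at h5
    calc exp ((JT T : ℝ) * log 2) ≤ exp (3 * log T + log 2) := exp_le_exp.mpr h5
      _ = 2 * exp (3 * log T) := by rw [exp_add, exp_log (by norm_num)]; ring
lemma le_XT : T ^ 4 ≤ (XT T : ℝ) := by
  have h0 := hT0 hT
  unfold XT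
  push_cast
  calc T ^ 4 = T ^ 3 * T := by ring
    _ ≤ 2 ^ JT T * (NT T : ℝ) := by
        gcongr
        · exact (two_pow_JT hT).1
        · exact le_NT hT
lemma XT_le : (XT T : ℝ) ≤ 4 * T ^ 4 := by
  have h0 := hT0 hT
  have h1 := hT1000 hT
  unfold XT
  push_cast
  calc 2 ^ JT T * (NT T : ℝ) ≤ (2 * T ^ 3) * (2 * T) := by
        gcongr
        · exact (two_pow_JT hT).2
        · linarith [NT_le hT]
    _ = 4 * T ^ 4 := by ring
lemma XT_pos : (0:ℝ) < XT T := lt_of_lt_of_le (pow_pos (hT0 hT) 4) (le_XT hT)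
lemma log_XT_le : log (XT T) ≤ 5 * log T := by
  have h0 := hT0 hT
  have h1 := hT1000 hT
  have h2 := Real.log_le_log (XT_pos hT) ((XT_le hT).trans (show 4 * T ^ 4 ≤ T ^ 5 by nlinarith [pow_pos h0 4]))
  rw [log_pow] at h2
  exact_mod_cast h2

lemma abs_Bv_le_T : |Bv (wT T) (yT T)| ≤ 8 := by
  have h := abs_Bv_le (one_le_wT hT) (wT_lt_yT hT)
  rw [hlogyw hT] at h
  have := hT16 hT
  refine h.trans ?_
  rw [div_le_iff₀ (by linarith)]
  linarith

lemma NT1_le (N : ℕ) : ∑ n ∈ Finset.Ioc 0 N, (av (wT T) (yT T) n) ^ 2 * (n:ℝ) ^ (-(1 + kT T)) ≤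
    6400 * exp 15 := by
  have h := sum_av_sq_le (one_le_wT hT) (wT_lt_yT hT) (kT_pos hT) N
  rw [hlogyw hT, hlogy hT] at h
  have h16 := hT16 hT
  have hL : 0 < log T := by linarith
  have h1 : kT T * (log T / 8) = 1 / 4 := by
    unfold kT; field_simp; norm_num
  have h2 : yT T ^ kT T = exp (1 / 4) := by
    rw [yT_eq hT, ← exp_mul, mul_comm, h1]
  rw [h1, h2] at h
  refine h.trans ?_
  have h3 : 1 + 1 / kT T ≤ log T := by
    unfold kT
    rw [one_div_div]
    linarith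
  have h4 : (8 * (1 + 1 / 4) / (log T / 16)) ^ 2 = 25600 / log T ^ 2 := by
    field_simp; norm_num
  have h5 : exp 14 * (1 + log T / 8) ≤ exp 14 * (log T / 4) := by gcongr; linarith
  rw [h4]
  calc (1 + 1 / kT T) * (exp (1 / 4) * (25600 / log T ^ 2 * (exp 14 * (1 + log T / 8))))
      ≤ log T * (exp (1 / 4) * (25600 / log T ^ 2 * (exp 14 * (log T / 4)))) := by gcongr
    _ = 6400 * (exp (1/4) * exp 14) := by field_simp; norm_num
    _ ≤ 6400 * exp 15 := by
        rw [← exp_add]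
        gcongr
        norm_num

lemma Qc_le_T : Qc (wT T) (yT T) ≤ 4096 * exp 14 / log T := by
  unfold Qc
  rw [hlogyw hT, hlogy hT]
  have h16 := hT16 hT
  have hL : 0 < log T := by linarith
  have h5 : exp 14 * (1 + log T / 8) ≤ exp 14 * (log T / 4) := by gcongr; linarith
  calc (8 / (log T / 16)) ^ 2 * (exp 14 * (1 + log T / 8)) ≤
        (8 / (log T / 16)) ^ 2 * (exp 14 * (log T / 4)) := by gcongr
    _ = 4096 * exp 14 / log T := by field_simp; norm_num

lemma yT_pow_four : yT T ^ 4 = exp (log T / 2) := by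
  rw [yT_eq hT, ← exp_nat_mul]; congr 1; push_cast; ring

lemma log_mul_exp_le : log T * (yT T ^ 4 / T) ≤ 4 := by
  rw [yT_pow_four hT]
  have h0 := hT0 hT
  have h16 := hT16 hT
  have h1 : exp (log T / 2) / T = exp (-(log T / 2)) := by
    nth_rewrite 2 [← exp_log h0]
    rw [← exp_sub]; congr 1; ring
  rw [h1]
  have h2 : log T / 2 ≤ exp (log T / 2) := by
    have := add_one_le_exp (log T / 2); linarith
  rw [exp_neg, ← div_eq_mul_inv, div_le_iff₀ (exp_pos _)]
  linarith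

/-- The basic energy. -/
noncomputable def E0 (T : ℝ) : ℝ :=
  ∫ x in (wT T / 2)..(XT T), Dfun (wT T) (yT T) (rT T) x ^ 2 * x ^ (-2 - kT T)

lemma E0_le : E0 T ≤ 10 ^ 7 * exp 15 / T := by
  have h0 := hT0 hT
  have h1000 := hT1000 hT
  have h16 := hT16 hT
  have hL : 0 < log T := by linarith
  have hw := one_le_wT hT
  have hw2 := two_le_wT hT
  have hwy := wT_lt_yT hT
  have hr := one_le_rT hT
  have hr2 := rT_lt_two hT
  have hk := kT_pos hT
  have hk1 := kT_le hT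
  have hN : (0:ℝ) < NT T := h0.trans_le (le_NT hT)
  have hrN := rT_NT hT
  have hrT := rT_sub_le' hT
  have hr1 : 0 ≤ rT T - 1 := by linarith
  have hwN : wT T / 2 ≤ NT T := by
    have h1 : wT T ≤ T := by
      rw [wT_eq hT]
      nth_rewrite 2 [← exp_log h0]
      exact exp_le_exp.mpr (by linarith)
    have := le_NT hT
    linarith
  unfold E0
  rw [← intervalIntegral.integral_add_adjacent_intervals
    (intervalIntegrable_Dfun_sq_rpow hw hwy hr _ (by linarith) hN)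
    (intervalIntegrable_Dfun_sq_rpow hw hwy hr _ hN (XT_pos hT))]
  have hS := energy_small hw hwy hr hr2.le hk.le hk1 hrN (a := wT T / 2) (by linarith) hwN
  have hLg := energy_large (κ := kT T) hw hwy hr hk.le (by linarith) hrT (le_NT hT) (JT T)
  have hB := abs_Bv_le_T hT
  have hB2 : Bv (wT T) (yT T) ^ 2 ≤ 64 := by
    rw [← sq_abs]
    calc |Bv (wT T) (yT T)| ^ 2 ≤ 8 ^ 2 := by gcongr
      _ = 64 := by norm_num
  have hN1 := NT1_le hT (NT T + 1)
  have s1 : 4 * Bv (wT T) (yT T) ^ 2 * (rT T - 1) ^ 2 * NT T ≤ 256 / T := by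
    calc 4 * Bv (wT T) (yT T) ^ 2 * (rT T - 1) ^ 2 * NT T
        = 4 * Bv (wT T) (yT T) ^ 2 * (rT T - 1) * ((rT T - 1) * NT T) := by ring
      _ ≤ 4 * 64 * (1 / T) * 1 := by gcongr
      _ = 256 / T := by ring
  have s2 : 8 * (rT T - 1) * ∑ n ∈ Finset.Ioc 0 (NT T + 1),
      av (wT T) (yT T) n ^ 2 * (n:ℝ) ^ (-(1 + kT T)) ≤ 51200 * exp 15 / T := by
    calc _ ≤ 8 * (1 / T) * (6400 * exp 15) := by gcongr
      _ = _ := by ring
  have hBL : Bv (wT T) (yT T) ^ 2 ≤ 64 * (16 / log T) := by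
    have h := abs_Bv_le hw hwy
    rw [hlogyw hT] at h
    have h' : |Bv (wT T) (yT T)| ≤ 128 / log T := by
      refine h.trans (le_of_eq ?_); field_simp; norm_num
    rw [← sq_abs]
    calc |Bv (wT T) (yT T)| ^ 2 = |Bv (wT T) (yT T)| * |Bv (wT T) (yT T)| := by ring
      _ ≤ 8 * (128 / log T) := by gcongr
      _ = _ := by ring
  have s3 : (JT T : ℝ) * (10 * Qc (wT T) (yT T) / T + 20 * yT T ^ 4 / T ^ 2
      + 2 * Bv (wT T) (yT T) ^ 2 / T) ≤ (6 * 40960 * exp 14 + 480 + 12288) / T := by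
    have hQ := Qc_le_T hT
    have hQ0 := Qc_nonneg hw hwy
    calc (JT T : ℝ) * (10 * Qc (wT T) (yT T) / T + 20 * yT T ^ 4 / T ^ 2
      + 2 * Bv (wT T) (yT T) ^ 2 / T)
        ≤ (6 * log T) * (10 * (4096 * exp 14 / log T) / T + 20 * yT T ^ 4 / T ^ 2
          + 2 * (64 * (16 / log T)) / T) := by
          gcongr
          exact JT_le hT
      _ = (6 * 40960 * exp 14 + 120 * (log T * (yT T ^ 4 / T)) + 12288) / T := by
          field_simp
          ring
      _ ≤ (6 * 40960 * exp 14 + 120 * 4 + 12288) / T := by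
          gcongr
          exact log_mul_exp_le hT
      _ = _ := by norm_num
  have hXeq : ((2 ^ JT T * NT T : ℕ) : ℝ) = (XT T : ℝ) := rfl
  rw [hXeq] at hLg
  have hE : exp 14 ≤ exp 15 := exp_le_exp.mpr (by norm_num)
  have hE1 : 1 ≤ exp 15 := one_le_exp (by norm_num)
  have s4 : 256 / T + 51200 * exp 15 / T + (6 * 40960 * exp 14 + 480 + 12288) / T
      ≤ 10 ^ 7 * exp 15 / T := by
    rw [← add_div, ← add_div]
    gcongr
    nlinarith
  linarith [hS.trans (add_le_add s1 s2), hLg.trans s3]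

end

end Pool.Agent.PC10
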