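import Mathlib
import Pool.Agent.PC10.Params
import Pool.Agent.PC10.MellinBessel

/-!
# Weighted mean squares of `D` on the half line
-/

namespace Pool.Agent.PC10

open MeasureTheory Set Real

/-- `∫_{1/2}^∞ D(x)² x^{-2σ-1} dx`. -/
noncomputable def Jw (T σ : ℝ) : ℝ :=
  ∫ x in Ioi (1/2:ℝ), Dfun (wT T) (yT T) (rT T) x ^ 2 * x ^ (-2 * σ - 1)

section
variable {T : ℝ} (hT : exp 16 ≤ T)
include hT

lemma integrableOn_Jw {σ : ℝ} (hσ : 0 < σ) {a : ℝ} (ha : 0 < a) :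
    IntegrableOn (fun x => Dfun (wT T) (yT T) (rT T) x ^ 2 * x ^ (-2 * σ - 1)) (Ioi a) := by
  have h1 : IntegrableOn (fun x : ℝ => x ^ (-2 * σ - 1)) (Ioi a) :=
    integrableOn_Ioi_rpow_of_lt (by linarith) ha
  refine Integrable.bdd_mul (c := (yT T + 1) ^ 2) h1
    ((measurable_Dfun _ _ _).pow_const 2).aestronglyMeasurable ?_
  refine (ae_restrict_iff' measurableSet_Ioi).mpr (Filter.Eventually.of_forall fun x hx => ?_)
  have hx0 : 0 < x := ha.trans hx
  rw [norm_pow, Real.norm_eq_abs]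
  exact pow_le_pow_left₀ (abs_nonneg _)
    (abs_Dfun_le (one_le_wT hT) (wT_lt_yT hT) (one_le_rT hT) hx0) 2

lemma wT_le_T : wT T ≤ T := by
  rw [wT_eq hT]
  nth_rewrite 2 [← exp_log (hT0 hT)]
  exact exp_le_exp.mpr (by linarith [hT16 hT])

/-- Region 1. -/
lemma Jw_region1 {σ : ℝ} (hσ : 1 / 4 ≤ σ) (hσ5 : σ ≤ 5) :
    ∫ x in (1/2:ℝ)..(wT T / 2), Dfun (wT T) (yT T) (rT T) x ^ 2 * x ^ (-2 * σ - 1)
      ≤ 32768 * exp (-(log T * (7 / 8))) / T := by
  have h0 := hT0 hT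
  have h16 := hT16 hT
  have hw := one_le_wT hT
  have hw2 := two_le_wT hT
  have hwy := wT_lt_yT hT
  have hr := one_le_rT hT
  have hr2 := rT_lt_two hT
  have hle : (1/2:ℝ) ≤ wT T / 2 := by linarith
  have hB := abs_Bv_le_T hT
  have hB2 : Bv (wT T) (yT T) ^ 2 ≤ 64 := by
    rw [← sq_abs]
    calc |Bv (wT T) (yT T)| ^ 2 ≤ 8 ^ 2 := by gcongr
      _ = 64 := by norm_num
  have hr1 : 0 ≤ rT T - 1 := by linarith
  have hrT := rT_sub_le' hT
  have hpt : ∀ x ∈ Icc (1/2:ℝ) (wT T / 2),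
      Dfun (wT T) (yT T) (rT T) x ^ 2 * x ^ (-2 * σ - 1) ≤ 64 * (1 / T) ^ 2 * (512 * wT T) := by
    intro x hx
    have hx0 : 0 < x := by linarith [hx.1]
    have hD : Dfun (wT T) (yT T) (rT T) x = Bv (wT T) (yT T) * ((rT T - 1) * x) := by
      apply Dfun_of_le hw hwy hr hx0
      nlinarith [hx.2]
    rw [hD]
    have hxx : x ^ 2 * x ^ (-2 * σ - 1) = x ^ (1 - 2 * σ) := by
      rw [← Real.rpow_natCast, ← Real.rpow_add hx0]
      congr 1; push_cast; ring
    have hxb : x ^ (1 - 2 * σ) ≤ 512 * wT T := by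
      rcases le_total 1 x with h1 | h1
      · calc x ^ (1 - 2 * σ) ≤ x ^ (1:ℝ) := Real.rpow_le_rpow_of_exponent_le h1 (by linarith)
          _ = x := Real.rpow_one x
          _ ≤ 512 * wT T := by linarith [hx.2]
      · have h2 : x ^ (1 - 2 * σ) ≤ x ^ (-9:ℝ) :=
          Real.rpow_le_rpow_of_exponent_ge hx0 h1 (by linarith)
        have h3 : x ^ (-9:ℝ) ≤ (1/2:ℝ) ^ (-9:ℝ) :=
          Real.rpow_le_rpow_of_nonpos (by norm_num) hx.1 (by norm_num)
        have h4 : (1/2:ℝ) ^ (-9:ℝ) = 512 := by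
          rw [one_div, Real.inv_rpow (by norm_num), Real.rpow_neg (by norm_num), inv_inv]
          have : ((9:ℕ):ℝ) = 9 := by norm_num
          rw [← this, Real.rpow_natCast]; norm_num
        rw [h4] at h3
        linarith
    calc (Bv (wT T) (yT T) * ((rT T - 1) * x)) ^ 2 * x ^ (-2 * σ - 1)
        = Bv (wT T) (yT T) ^ 2 * (rT T - 1) ^ 2 * (x ^ 2 * x ^ (-2 * σ - 1)) := by ring
      _ = Bv (wT T) (yT T) ^ 2 * (rT T - 1) ^ 2 * x ^ (1 - 2 * σ) := by rw [hxx]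
      _ ≤ 64 * (1 / T) ^ 2 * (512 * wT T) := by gcongr
  have h1 : ∫ x in (1/2:ℝ)..(wT T / 2), Dfun (wT T) (yT T) (rT T) x ^ 2 * x ^ (-2 * σ - 1)
      ≤ ∫ x in (1/2:ℝ)..(wT T / 2), 64 * (1 / T) ^ 2 * (512 * wT T) :=
    intervalIntegral.integral_mono_on hle
      (intervalIntegrable_Dfun_sq_rpow hw hwy hr _ (by norm_num) (by linarith))
      intervalIntegrable_const hpt
  refine h1.trans ?_
  rw [intervalIntegral.integral_const, smul_eq_mul]
  have hT2 : 1 / T = exp (-log T) := by rw [exp_neg, exp_log h0, one_div]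
  have h2 : (wT T / 2 - 1 / 2) * (64 * (1 / T) ^ 2 * (512 * wT T)) ≤
      (wT T / 2) * (64 * (1 / T) ^ 2 * (512 * wT T)) := by
    gcongr; linarith
  refine h2.trans ?_
  have h3 : (wT T / 2) * (64 * (1 / T) ^ 2 * (512 * wT T)) = 16384 * (wT T * wT T * (1 / T)) / T := by
    field_simp; norm_num
  have h4 : wT T * wT T * (1 / T) = exp (-(log T * (7 / 8))) := by
    rw [hT2, wT_eq hT, ← exp_add, ← exp_add]; congr 1; ring
  rw [h3, h4]
  gcongr
  norm_num

/-- Region 3. -/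
lemma Jw_region3 {σ : ℝ} (hσ : 1 / 4 ≤ σ) :
    ∫ x in Ioi (XT T : ℝ), Dfun (wT T) (yT T) (rT T) x ^ 2 * x ^ (-2 * σ - 1)
      ≤ 8 * exp (-(log T * (3 / 4))) / T := by
  have h0 := hT0 hT
  have h16 := hT16 hT
  have h1000 := hT1000 hT
  have hw := one_le_wT hT
  have hwy := wT_lt_yT hT
  have hr := one_le_rT hT
  have hX := XT_pos hT
  have hX4 := le_XT hT
  have hy1 : 1 ≤ yT T := by linarith
  have h1 : ∫ x in Ioi (XT T : ℝ), Dfun (wT T) (yT T) (rT T) x ^ 2 * x ^ (-2 * σ - 1)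
      ≤ ∫ x in Ioi (XT T : ℝ), (yT T + 1) ^ 2 * x ^ (-2 * σ - 1) := by
    apply setIntegral_mono_on (integrableOn_Jw hT (by linarith) hX)
      ((integrableOn_Ioi_rpow_of_lt (by linarith) hX).const_mul _) measurableSet_Ioi
    intro x hx
    have hx0 : 0 < x := hX.trans hx
    have := abs_Dfun_le hw hwy hr hx0
    rw [← sq_abs]
    gcongr
  refine h1.trans ?_
  rw [integral_const_mul, integral_Ioi_rpow_of_lt (by linarith) hX]
  have h2 : -(XT T : ℝ) ^ (-2 * σ - 1 + 1) / (-2 * σ - 1 + 1) = (XT T : ℝ) ^ (-2 * σ) / (2 * σ) := by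
    rw [show -2 * σ - 1 + 1 = -(2 * σ) by ring, show -2 * σ = -(2 * σ) by ring]
    rw [neg_div_neg_eq]
  rw [h2]
  have h3 : (XT T : ℝ) ^ (-2 * σ) ≤ exp (-(2 * log T)) := by
    calc (XT T : ℝ) ^ (-2 * σ) ≤ (T ^ 4) ^ (-2 * σ) :=
          Real.rpow_le_rpow_of_nonpos (by positivity) hX4 (by linarith)
      _ = exp (-(8 * σ * log T)) := by
          rw [Real.rpow_def_of_pos (by positivity), log_pow]; congr 1; push_cast; ring
      _ ≤ exp (-(2 * log T)) := by
          apply exp_le_exp.mpr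
          nlinarith
  have h4 : (yT T + 1) ^ 2 ≤ 4 * exp (log T / 4) := by
    calc (yT T + 1) ^ 2 ≤ (2 * yT T) ^ 2 := by gcongr; linarith
      _ = 4 * (yT T * yT T) := by ring
      _ = 4 * exp (log T / 4) := by rw [yT_eq hT, ← exp_add]; congr 2; ring
  have hT2 : 1 / T = exp (-log T) := by rw [exp_neg, exp_log h0, one_div]
  calc (yT T + 1) ^ 2 * ((XT T : ℝ) ^ (-2 * σ) / (2 * σ))
      ≤ (4 * exp (log T / 4)) * (exp (-(2 * log T)) / (1 / 2)) := by
        gcongr; linarith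
    _ = 8 * (exp (log T / 4) * exp (-(2 * log T))) := by ring
    _ = 8 * (exp (-(log T * (3 / 4))) * (1 / T)) := by
        rw [hT2, ← exp_add, ← exp_add]; congr 2; ring
    _ = _ := by ring

/-- Region 2, right of the critical line. -/
lemma Jw_region2 {σ : ℝ} (hσ : 1 / 2 ≤ σ) :
    ∫ x in (wT T / 2)..(XT T), Dfun (wT T) (yT T) (rT T) x ^ 2 * x ^ (-2 * σ - 1)
      ≤ 2 * exp 10 * exp (-((min σ 1 - 1 / 2) * log T / 8)) * E0 T := by
  have h0 := hT0 hT
  have h16 := hT16 hT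
  have h1000 := hT1000 hT
  have hw := one_le_wT hT
  have hw2 := two_le_wT hT
  have hwT := wT_le_T hT
  have hwy := wT_lt_yT hT
  have hr := one_le_rT hT
  have hX := XT_pos hT
  have hX4 := le_XT hT
  have hTX : T ≤ XT T := by
    refine le_trans ?_ hX4
    nlinarith [pow_pos h0 2, pow_pos h0 3, pow_le_pow_left₀ (by norm_num : (0:ℝ) ≤ 1000) h1000 3]
  have hle : wT T / 2 ≤ XT T := by linarith
  have hk := kT_pos hT
  unfold E0
  rw [← intervalIntegral.integral_const_mul]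
  apply intervalIntegral.integral_mono_on hle
    (intervalIntegrable_Dfun_sq_rpow hw hwy hr _ (by linarith) hX)
    ((intervalIntegrable_Dfun_sq_rpow hw hwy hr _ (by linarith) hX).const_mul _)
  intro x hx
  have hwx : 0 < wT T / 2 := by linarith
  have hx0 : 0 < x := hwx.trans_le hx.1
  have hx1 : 1 ≤ x := by linarith [hx.1]
  have hsplit : x ^ (-2 * σ - 1) = x ^ (kT T) * x ^ (-(2 * σ - 1)) * x ^ (-2 - kT T) := by
    rw [← Real.rpow_add hx0, ← Real.rpow_add hx0]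
    congr 1; ring
  have hXk : x ^ kT T ≤ exp 10 := by
    calc x ^ kT T ≤ (XT T : ℝ) ^ kT T := by gcongr; exact hx.2
      _ = exp (log (XT T) * kT T) := by rw [Real.rpow_def_of_pos hX]
      _ ≤ exp ((5 * log T) * kT T) := by gcongr; exact log_XT_le hT
      _ = exp 10 := by unfold kT; congr 1; field_simp; norm_num
  have hmin : min σ 1 ≤ σ := min_le_left _ _
  have hmin1 : min σ 1 ≤ 1 := min_le_right _ _
  have hmin2 : 1/2 ≤ min σ 1 := le_min hσ (by norm_num)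
  have hw3 : x ^ (-(2 * σ - 1)) ≤ 2 * exp (-((min σ 1 - 1 / 2) * log T / 8)) := by
    calc x ^ (-(2 * σ - 1)) ≤ x ^ (-(2 * min σ 1 - 1)) :=
          Real.rpow_le_rpow_of_exponent_le hx1 (by linarith)
      _ ≤ (wT T / 2) ^ (-(2 * min σ 1 - 1)) :=
          Real.rpow_le_rpow_of_nonpos hwx hx.1 (by linarith)
      _ = (wT T) ^ (-(2 * min σ 1 - 1)) * 2 ^ (2 * min σ 1 - 1) := by
          rw [Real.div_rpow (by linarith) (by norm_num), Real.rpow_neg (x := 2) (by norm_num)]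
          rw [div_inv_eq_mul]
      _ ≤ (wT T) ^ (-(2 * min σ 1 - 1)) * 2 := by
          gcongr
          calc (2:ℝ) ^ (2 * min σ 1 - 1) ≤ 2 ^ (1:ℝ) :=
                Real.rpow_le_rpow_of_exponent_le (by norm_num) (by linarith)
            _ = 2 := Real.rpow_one 2
      _ = 2 * exp (-((min σ 1 - 1 / 2) * log T / 8)) := by
          rw [wT_eq hT, ← exp_mul, mul_comm]; congr 2; ring
  rw [hsplit]
  calc Dfun (wT T) (yT T) (rT T) x ^ 2 * (x ^ (kT T) * x ^ (-(2 * σ - 1)) * x ^ (-2 - kT T))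
      ≤ Dfun (wT T) (yT T) (rT T) x ^ 2 * (exp 10 * (2 * exp (-((min σ 1 - 1 / 2) * log T / 8)))
        * x ^ (-2 - kT T)) := by gcongr
    _ = _ := by ring

/-- Region 2, left of the critical line. -/
lemma Jw_region2' {σ : ℝ} (hσ : σ ≤ 1 / 2) :
    ∫ x in (wT T / 2)..(XT T), Dfun (wT T) (yT T) (rT T) x ^ 2 * x ^ (-2 * σ - 1)
      ≤ exp 10 * exp (10 * (1 / 2 - σ) * log T) * E0 T := by
  have h0 := hT0 hT
  have h16 := hT16 hT
  have h1000 := hT1000 hT
  have hw := one_le_wT hT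
  have hw2 := two_le_wT hT
  have hwT := wT_le_T hT
  have hwy := wT_lt_yT hT
  have hr := one_le_rT hT
  have hX := XT_pos hT
  have hX4 := le_XT hT
  have hTX : T ≤ XT T := by
    refine le_trans ?_ hX4
    nlinarith [pow_pos h0 2, pow_pos h0 3, pow_le_pow_left₀ (by norm_num : (0:ℝ) ≤ 1000) h1000 3]
  have hle : wT T / 2 ≤ XT T := by linarith
  have hk := kT_pos hT
  unfold E0
  rw [← intervalIntegral.integral_const_mul]
  apply intervalIntegral.integral_mono_on hle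
    (intervalIntegrable_Dfun_sq_rpow hw hwy hr _ (by linarith) hX)
    ((intervalIntegrable_Dfun_sq_rpow hw hwy hr _ (by linarith) hX).const_mul _)
  intro x hx
  have hwx : 0 < wT T / 2 := by linarith
  have hx0 : 0 < x := hwx.trans_le hx.1
  have hx1 : 1 ≤ x := by linarith [hx.1]
  have hsplit : x ^ (-2 * σ - 1) = x ^ (kT T) * x ^ (1 - 2 * σ) * x ^ (-2 - kT T) := by
    rw [← Real.rpow_add hx0, ← Real.rpow_add hx0]
    congr 1; ring
  have hXk : x ^ kT T ≤ exp 10 := by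
    calc x ^ kT T ≤ (XT T : ℝ) ^ kT T := by gcongr; exact hx.2
      _ = exp (log (XT T) * kT T) := by rw [Real.rpow_def_of_pos hX]
      _ ≤ exp ((5 * log T) * kT T) := by gcongr; exact log_XT_le hT
      _ = exp 10 := by unfold kT; congr 1; field_simp; norm_num
  have hw3 : x ^ (1 - 2 * σ) ≤ exp (10 * (1 / 2 - σ) * log T) := by
    calc x ^ (1 - 2 * σ) ≤ (XT T : ℝ) ^ (1 - 2 * σ) := by
          apply Real.rpow_le_rpow hx0.le hx.2 (by linarith)
      _ = exp (log (XT T) * (1 - 2 * σ)) := by rw [Real.rpow_def_of_pos hX]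
      _ ≤ exp ((5 * log T) * (1 - 2 * σ)) := by
          apply exp_le_exp.mpr
          apply mul_le_mul_of_nonneg_right (log_XT_le hT) (by linarith)
      _ = exp (10 * (1 / 2 - σ) * log T) := by congr 1; ring
  rw [hsplit]
  calc Dfun (wT T) (yT T) (rT T) x ^ 2 * (x ^ (kT T) * x ^ (1 - 2 * σ) * x ^ (-2 - kT T))
      ≤ Dfun (wT T) (yT T) (rT T) x ^ 2 * (exp 10 * exp (10 * (1 / 2 - σ) * log T)
        * x ^ (-2 - kT T)) := by gcongr
    _ = _ := by ring

lemma Jw_split {σ : ℝ} (hσ : 0 < σ) : Jw T σ =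
    (∫ x in (1/2:ℝ)..(wT T / 2), Dfun (wT T) (yT T) (rT T) x ^ 2 * x ^ (-2 * σ - 1))
    + (∫ x in (wT T / 2)..(XT T), Dfun (wT T) (yT T) (rT T) x ^ 2 * x ^ (-2 * σ - 1))
    + ∫ x in Ioi (XT T : ℝ), Dfun (wT T) (yT T) (rT T) x ^ 2 * x ^ (-2 * σ - 1) := by
  have hw := one_le_wT hT
  have hwy := wT_lt_yT hT
  have hr := one_le_rT hT
  have hX := XT_pos hT
  unfold Jw
  rw [intervalIntegral.integral_add_adjacent_intervals
    (intervalIntegrable_Dfun_sq_rpow hw hwy hr _ (by norm_num) (by linarith))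
    (intervalIntegrable_Dfun_sq_rpow hw hwy hr _ (by linarith) hX),
    intervalIntegral.integral_interval_add_Ioi (integrableOn_Jw hT hσ (by norm_num))
      (integrableOn_Jw hT hσ hX)]

lemma Jw_le_right {σ : ℝ} (hσ : 1 / 2 ≤ σ) (hσ5 : σ ≤ 5) :
    Jw T σ ≤ 10 ^ 8 * exp 25 * exp (-((min σ 1 - 1 / 2) * log T / 8)) / T := by
  have h0 := hT0 hT
  have h16 := hT16 hT
  have hmin1 : min σ 1 ≤ 1 := min_le_right _ _
  have hmin2 : 1/2 ≤ min σ 1 := le_min hσ (by norm_num)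
  rw [Jw_split hT (by linarith)]
  have h1 := Jw_region1 hT (by linarith : 1/4 ≤ σ) hσ5
  have h2 := Jw_region2 hT hσ
  have h3 := Jw_region3 hT (by linarith : 1/4 ≤ σ)
  have hE := E0_le hT
  set e := exp (-((min σ 1 - 1 / 2) * log T / 8)) with he
  have e1 : exp (-(log T * (7 / 8))) ≤ e := by
    apply exp_le_exp.mpr; nlinarith
  have e3 : exp (-(log T * (3 / 4))) ≤ e := by
    apply exp_le_exp.mpr; nlinarith
  have hE25 : exp 10 * exp 15 = exp 25 := by rw [← exp_add]; norm_num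
  have he0 : 0 < e := exp_pos _
  have h2' : 2 * exp 10 * e * E0 T ≤ 2 * 10 ^ 7 * exp 25 * e / T := by
    calc 2 * exp 10 * e * E0 T ≤ 2 * exp 10 * e * (10 ^ 7 * exp 15 / T) := by gcongr
      _ = 2 * 10 ^ 7 * (exp 10 * exp 15) * e / T := by ring
      _ = _ := by rw [hE25]
  have h1' : 32768 * exp (-(log T * (7 / 8))) / T ≤ 32768 * e / T := by gcongr
  have h3' : 8 * exp (-(log T * (3 / 4))) / T ≤ 8 * e / T := by gcongr
  have h25 : 1 ≤ exp 25 := one_le_exp (by norm_num)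
  have hfin : 32768 * e / T + 2 * 10 ^ 7 * exp 25 * e / T + 8 * e / T
      ≤ 10 ^ 8 * exp 25 * e / T := by
    rw [← add_div, ← add_div]
    gcongr
    nlinarith
  linarith

lemma Jw_le_left {σ : ℝ} (hσ : 1 / 4 ≤ σ) (hσ2 : σ ≤ 1 / 2) :
    Jw T σ ≤ 10 ^ 8 * exp 25 * exp (10 * (1 / 2 - σ) * log T) / T := by
  have h0 := hT0 hT
  have h16 := hT16 hT
  rw [Jw_split hT (by linarith)]
  have h1 := Jw_region1 hT hσ (by linarith)
  have h2 := Jw_region2' hT hσ2
  have h3 := Jw_region3 hT hσ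
  have hE := E0_le hT
  set e := exp (10 * (1 / 2 - σ) * log T) with he
  have e0 : 1 ≤ e := by
    have : 0 ≤ 1/2 - σ := by linarith
    exact one_le_exp (mul_nonneg (mul_nonneg (by norm_num) this) (by linarith))
  have e1 : exp (-(log T * (7 / 8))) ≤ e := by
    refine le_trans ?_ e0
    rw [← exp_zero]
    apply exp_le_exp.mpr; nlinarith
  have e3 : exp (-(log T * (3 / 4))) ≤ e := by
    refine le_trans ?_ e0
    rw [← exp_zero]
    apply exp_le_exp.mpr; nlinarith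
  have hE25 : exp 10 * exp 15 = exp 25 := by rw [← exp_add]; norm_num
  have he0 : 0 < e := exp_pos _
  have h2' : exp 10 * e * E0 T ≤ 10 ^ 7 * exp 25 * e / T := by
    calc exp 10 * e * E0 T ≤ exp 10 * e * (10 ^ 7 * exp 15 / T) := by gcongr
      _ = 10 ^ 7 * (exp 10 * exp 15) * e / T := by ring
      _ = _ := by rw [hE25]
  have h1' : 32768 * exp (-(log T * (7 / 8))) / T ≤ 32768 * e / T := by gcongr
  have h3' : 8 * exp (-(log T * (3 / 4))) / T ≤ 8 * e / T := by gcongr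
  have h25 : 1 ≤ exp 25 := one_le_exp (by norm_num)
  have hfin : 32768 * e / T + 10 ^ 7 * exp 25 * e / T + 8 * e / T
      ≤ 10 ^ 8 * exp 25 * e / T := by
    rw [← add_div, ← add_div]
    gcongr
    nlinarith
  linarith

end

end Pool.Agent.PC10
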