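import Mathlib
import Pool.Agent.PairCorr.Defs
import Pool.Agent.PC10.Weighted
import Pool.Agent.PC10.Repr

/-!
# The mollified second moment near the critical line
-/

namespace Pool.Agent.PC10

open MeasureTheory Set Real

section
variable {T : ℝ} (hT : exp 16 ≤ T)
include hT

/-- The function whose Mellin transform is used. -/
noncomputable def fT (T : ℝ) (x : ℝ) : ℂ :=
  (Ioi (1/2:ℝ)).indicator (fun x => ((Dfun (wT T) (yT T) (rT T) x : ℝ) : ℂ)) x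

omit hT in
lemma measurable_fT : Measurable (fT T) := by
  unfold fT
  apply Measurable.indicator _ measurableSet_Ioi
  exact Complex.measurable_ofReal.comp (measurable_Dfun _ _ _)

lemma norm_fT_le (x : ℝ) : ‖fT T x‖ ≤ yT T + 1 := by
  have hy : 0 ≤ yT T + 1 := by linarith [one_le_wT hT, wT_lt_yT hT]
  unfold fT
  by_cases hx : x ∈ Ioi (1/2:ℝ)
  · rw [indicator_of_mem hx, Complex.norm_real, Real.norm_eq_abs]
    apply abs_Dfun_le (one_le_wT hT) (wT_lt_yT hT) (one_le_rT hT)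
    exact lt_trans (by norm_num) hx
  · rw [indicator_of_notMem hx, norm_zero]; exact hy

omit hT in
lemma fT_supp (x : ℝ) (hx : x ≤ 1/2) : fT T x = 0 := by
  unfold fT
  rw [indicator_of_notMem]
  simpa using hx

omit hT in
lemma norm_fT_sq {σ : ℝ} : ∫ x in Ioi (1/2:ℝ), ‖fT T x‖ ^ 2 * x ^ (-2 * σ - 1) = Jw T σ := by
  unfold Jw
  refine setIntegral_congr_fun measurableSet_Ioi fun x hx => ?_
  show ‖fT T x‖ ^ 2 * x ^ (-2 * σ - 1) = _
  unfold fT
  rw [indicator_of_mem hx, Complex.norm_real, Real.norm_eq_abs, sq_abs]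

omit hT in
lemma mellin_fT (s : ℂ) : mellin (fT T) (-s) =
    ∫ x in Ioi (1/2:ℝ), ((Dfun (wT T) (yT T) (rT T) x : ℝ) : ℂ) * (x:ℂ) ^ (-s - 1) := by
  unfold mellin
  have h1 : ∀ x : ℝ, (x:ℂ) ^ (-s - 1) • fT T x = (Ioi (1/2:ℝ)).indicator
      (fun x : ℝ => ((Dfun (wT T) (yT T) (rT T) x : ℝ) : ℂ) * (x:ℂ) ^ (-s - 1)) x := by
    intro x
    unfold fT
    by_cases hx : x ∈ Ioi (1/2:ℝ)
    · rw [indicator_of_mem hx, indicator_of_mem hx, smul_eq_mul, mul_comm]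
    · rw [indicator_of_notMem hx, indicator_of_notMem hx, smul_zero]
  simp_rw [h1]
  rw [setIntegral_indicator measurableSet_Ioi]
  congr 2
  ext x
  simp only [mem_inter_iff, mem_Ioi]
  constructor
  · exact fun h => h.2
  · exact fun h => ⟨lt_trans (by norm_num) h, h⟩

/-- The mollified zeta function minus one. -/
noncomputable def zM (T : ℝ) (s : ℂ) : ℂ :=
  riemannZeta s * PairCorr.moll (lam (wT T) (yT T)) ⌊yT T⌋₊ s - 1

lemma norm_div_le {σ t : ℝ} (hσ : 1/4 ≤ σ) (hσ5 : σ ≤ 5) (ht : |t| ≤ T) :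
    ‖(σ + t * Complex.I : ℂ)‖ ≤ 5 * T * ‖(rT T : ℂ) ^ (σ + t * Complex.I : ℂ) - 1‖ := by
  have h0 := hT0 hT
  have h1000 := hT1000 hT
  set s : ℂ := σ + t * Complex.I with hs
  have hns : ‖s‖ ≤ 5 + T := by
    rw [hs]
    refine (norm_add_le _ _).trans ?_
    rw [norm_mul, Complex.norm_I, mul_one, Complex.norm_real, Complex.norm_real,
      Real.norm_eq_abs, Real.norm_eq_abs, abs_of_nonneg (by linarith : 0 ≤ σ)]
    linarith
  have hrpos : 0 < rT T := by linarith [one_le_rT hT]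
  have hr : (rT T : ℂ) ^ s = Complex.exp (s / (2 * T)) := by
    rw [Complex.cpow_def_of_ne_zero (by exact_mod_cast hrpos.ne'), ← Complex.ofReal_log hrpos.le]
    unfold rT
    rw [Real.log_exp]
    congr 1
    push_cast
    ring
  set z : ℂ := s / (2 * T) with hz
  have hnz : ‖z‖ = ‖s‖ / (2 * T) := by
    rw [hz, norm_div]
    congr 1
    rw [norm_mul, Complex.norm_real, Complex.norm_ofNat, Real.norm_eq_abs, abs_of_pos h0]
  have hz6 : ‖z‖ ≤ 3/5 := by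
    rw [hnz, div_le_iff₀ (by linarith)]
    linarith
  have h2 := Complex.norm_exp_sub_one_sub_id_le (x := z) (by linarith)
  have h3 : ‖z‖ ≤ ‖Complex.exp z - 1‖ + ‖Complex.exp z - 1 - z‖ := by
    have : z = (Complex.exp z - 1) - (Complex.exp z - 1 - z) := by ring
    calc ‖z‖ = ‖(Complex.exp z - 1) - (Complex.exp z - 1 - z)‖ := by rw [← this]
      _ ≤ _ := norm_sub_le _ _
  have h4 : ‖z‖ * (2/5) ≤ ‖Complex.exp z - 1‖ := by
    nlinarith [norm_nonneg z]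
  rw [hr]
  have h5 : ‖s‖ = 2 * T * ‖z‖ := by rw [hnz]; field_simp
  rw [h5]
  nlinarith

lemma norm_zM_sq_le {σ t : ℝ} (hσ : 1/4 ≤ σ) (hσ5 : σ ≤ 5) (ht : |t| ≤ T)
    (hgood : 1 + t ^ 2 ≤ 16 * ‖(1:ℂ) - (σ + t * Complex.I)‖ ^ 2) :
    ‖zM T (σ + t * Complex.I)‖ ^ 2 ≤
      50 * T ^ 2 * ‖mellin (fT T) (-(σ + t * Complex.I))‖ ^ 2 + 13107200 * (1 + t ^ 2)⁻¹ := by
  have h0 := hT0 hT
  have h1000 := hT1000 hT
  have hdiv := norm_div_le hT hσ hσ5 ht
  set s : ℂ := σ + t * Complex.I with hs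
  have hsre : s.re = σ := by simp [hs]
  have hs1 : s ≠ 1 := by
    intro h
    rw [h] at hgood
    simp at hgood
    nlinarith [sq_nonneg t]
  have hs0 : s ≠ 0 := by
    intro h
    rw [h] at hsre
    simp at hsre
    linarith
  have hrep := repr_formula (one_le_wT hT) (wT_lt_yT hT) (one_le_rT hT) (rT_lt_two hT)
    (s := s) (by rw [hsre]; linarith) hs1
  rw [← mellin_fT] at hrep
  set F := mellin (fT T) (-s) with hF
  set R : ℂ := Bv (wT T) (yT T) * (rT T - 1) * ((1/2:ℝ) : ℂ) ^ (1 - s) / (1 - s) with hR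
  set q : ℂ := (rT T : ℂ) ^ s - 1 with hq
  have hq0 : q ≠ 0 := by
    intro h
    rw [h, norm_zero, mul_zero] at hdiv
    exact hs0 (norm_le_zero_iff.mp hdiv)
  have hz : q * zM T s = -(s * (F + R)) := by
    have : F = -(q / s * zM T s) - R := hrep
    rw [this]
    field_simp
    ring
  have hnorm : ‖zM T s‖ ≤ 5 * T * ‖F + R‖ := by
    have h1 : ‖q‖ * ‖zM T s‖ = ‖s‖ * ‖F + R‖ := by
      rw [← norm_mul, hz, norm_neg, norm_mul]
    have h2 : ‖q‖ * ‖zM T s‖ ≤ ‖q‖ * (5 * T * ‖F + R‖) := by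
      rw [h1]
      calc ‖s‖ * ‖F + R‖ ≤ (5 * T * ‖q‖) * ‖F + R‖ := by gcongr
        _ = _ := by ring
    exact le_of_mul_le_mul_left h2 (norm_pos_iff.mpr hq0)
  have hRn : ‖R‖ * ‖(1:ℂ) - s‖ ≤ 128 / T := by
    have h1s : (1:ℂ) - s ≠ 0 := sub_ne_zero.mpr (Ne.symm hs1)
    rw [hR, norm_div, div_mul_cancel₀ _ (norm_ne_zero_iff.mpr h1s), norm_mul, norm_mul,
      Complex.norm_real, Real.norm_eq_abs]
    have h1 : ‖((rT T : ℂ) - 1)‖ ≤ 1 / T := by
      rw [← Complex.ofReal_one, ← Complex.ofReal_sub, Complex.norm_real, Real.norm_eq_abs,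
        abs_of_nonneg (by linarith [one_le_rT hT])]
      exact rT_sub_le' hT
    have h2 : ‖((1/2:ℝ) : ℂ) ^ (1 - s)‖ ≤ 16 := by
      rw [Complex.norm_cpow_eq_rpow_re_of_pos (by norm_num)]
      have h3 : (1 - s).re = 1 - σ := by simp [hsre]
      rw [h3]
      calc (1/2:ℝ) ^ (1 - σ) ≤ (1/2:ℝ) ^ (-4:ℝ) :=
            Real.rpow_le_rpow_of_exponent_ge (by norm_num) (by norm_num) (by linarith)
        _ = 16 := by
            rw [one_div, Real.inv_rpow (by norm_num), Real.rpow_neg (by norm_num), inv_inv]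
            have : ((4:ℕ):ℝ) = 4 := by norm_num
            rw [← this, Real.rpow_natCast]; norm_num
    calc |Bv (wT T) (yT T)| * ‖((rT T : ℂ) - 1)‖ * ‖((1/2:ℝ) : ℂ) ^ (1 - s)‖
        ≤ 8 * (1 / T) * 16 := by
          gcongr
          exact abs_Bv_le_T hT
      _ = 128 / T := by ring
  have hn1s : 0 < ‖(1:ℂ) - s‖ := norm_pos_iff.mpr (sub_ne_zero.mpr (Ne.symm hs1))
  have ht2 : 0 < 1 + t ^ 2 := by positivity
  have hR2 : T ^ 2 * ‖R‖ ^ 2 ≤ 262144 * (1 + t ^ 2)⁻¹ := by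
    have h1 : (T * (‖R‖ * ‖(1:ℂ) - s‖)) ^ 2 ≤ 128 ^ 2 := by
      apply pow_le_pow_left₀ (by positivity)
      calc T * (‖R‖ * ‖(1:ℂ) - s‖) ≤ T * (128 / T) := by gcongr
        _ = 128 := by field_simp
    have h2 : T ^ 2 * ‖R‖ ^ 2 * (1 + t ^ 2) ≤ 262144 := by
      calc T ^ 2 * ‖R‖ ^ 2 * (1 + t ^ 2) ≤ T ^ 2 * ‖R‖ ^ 2 * (16 * ‖(1:ℂ) - s‖ ^ 2) := by gcongr
        _ = 16 * (T * (‖R‖ * ‖(1:ℂ) - s‖)) ^ 2 := by ring
        _ ≤ 16 * 128 ^ 2 := by gcongr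
        _ = 262144 := by norm_num
    rw [← div_eq_mul_inv, le_div_iff₀ ht2]
    exact h2
  have hFR : ‖F + R‖ ^ 2 ≤ 2 * ‖F‖ ^ 2 + 2 * ‖R‖ ^ 2 := by
    have h1 : ‖F + R‖ ≤ ‖F‖ + ‖R‖ := norm_add_le _ _
    have h2 : ‖F + R‖ ^ 2 ≤ (‖F‖ + ‖R‖) ^ 2 := pow_le_pow_left₀ (norm_nonneg _) h1 2
    nlinarith [sq_nonneg (‖F‖ - ‖R‖)]
  calc ‖zM T s‖ ^ 2 ≤ (5 * T * ‖F + R‖) ^ 2 := pow_le_pow_left₀ (norm_nonneg _) hnorm 2
    _ = 25 * T ^ 2 * ‖F + R‖ ^ 2 := by ring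
    _ ≤ 25 * T ^ 2 * (2 * ‖F‖ ^ 2 + 2 * ‖R‖ ^ 2) := by gcongr
    _ = 50 * T ^ 2 * ‖F‖ ^ 2 + 50 * (T ^ 2 * ‖R‖ ^ 2) := by ring
    _ ≤ 50 * T ^ 2 * ‖F‖ ^ 2 + 50 * (262144 * (1 + t ^ 2)⁻¹) := by gcongr
    _ = _ := by ring

omit hT in
lemma continuousOn_zM {σ a b : ℝ}
    (hgood : ∀ t ∈ Icc a b, (σ + t * Complex.I : ℂ) ≠ 1) :
    ContinuousOn (fun t : ℝ => ‖zM T (σ + t * Complex.I)‖ ^ 2) (Icc a b) := by
  apply ContinuousOn.pow
  apply ContinuousOn.norm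
  unfold zM
  apply ContinuousOn.sub _ continuousOn_const
  apply ContinuousOn.mul
  · intro t ht
    apply ContinuousAt.continuousWithinAt
    have h1 := (differentiableAt_riemannZeta (hgood t ht)).continuousAt
    exact ContinuousAt.comp (f := fun t : ℝ => (σ + t * Complex.I : ℂ)) h1
      (by fun_prop)
  · apply Continuous.continuousOn
    unfold PairCorr.moll
    apply continuous_finset_sum
    intro d hd
    simp only [Finset.mem_Icc] at hd
    apply Continuous.mul continuous_const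
    apply Continuous.const_cpow (by fun_prop)
    left
    exact_mod_cast (by omega : d ≠ 0)

lemma main_interval {σ a b : ℝ} (hσ : 1/4 ≤ σ) (hσ5 : σ ≤ 5) (ha : -T ≤ a) (hab : a ≤ b)
    (hb : b ≤ T)
    (hgood : ∀ t ∈ Icc a b, 1 + t ^ 2 ≤ 16 * ‖(1:ℂ) - (σ + t * Complex.I)‖ ^ 2) :
    ∫ t in a..b, ‖zM T (σ + t * Complex.I)‖ ^ 2 ≤
      50 * T ^ 2 * (2 * π * exp 1 * Jw T σ) + 13107200 * π := by
  have h0 := hT0 hT
  obtain ⟨hint, hbd⟩ := mellin_bessel (T := T) (σ := σ) (measurable_fT (T := T)) (norm_fT_le hT)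
    fT_supp (by linarith) h0
  rw [norm_fT_sq] at hbd
  have hne : ∀ t ∈ Icc a b, (σ + t * Complex.I : ℂ) ≠ 1 := by
    intro t ht h
    have := hgood t ht
    rw [h] at this
    simp at this
    nlinarith [sq_nonneg t]
  have hi1 : IntervalIntegrable (fun t : ℝ => ‖zM T (σ + t * Complex.I)‖ ^ 2) volume a b :=
    (continuousOn_zM hne).intervalIntegrable_of_Icc hab
  have hsub : uIcc a b ⊆ uIcc (-T) T := by
    rw [uIcc_of_le hab, uIcc_of_le (by linarith)]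
    exact Icc_subset_Icc ha hb
  have hi2 : IntervalIntegrable (fun t : ℝ => ‖mellin (fT T) (-(σ + t * Complex.I))‖ ^ 2)
      volume a b := hint.mono_set hsub
  have hi3 : IntervalIntegrable (fun t : ℝ => (1 + t ^ 2)⁻¹) volume a b :=
    integrable_inv_one_add_sq.intervalIntegrable
  have h1 : ∫ t in a..b, ‖zM T (σ + t * Complex.I)‖ ^ 2 ≤
      ∫ t in a..b, (50 * T ^ 2 * ‖mellin (fT T) (-(σ + t * Complex.I))‖ ^ 2
        + 13107200 * (1 + t ^ 2)⁻¹) := by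
    apply intervalIntegral.integral_mono_on hab hi1 ((hi2.const_mul _).add (hi3.const_mul _))
    intro t ht
    apply norm_zM_sq_le hT hσ hσ5 _ (hgood t ht)
    rw [abs_le]
    exact ⟨ha.trans ht.1, ht.2.trans hb⟩
  refine h1.trans ?_
  rw [intervalIntegral.integral_add (hi2.const_mul _) (hi3.const_mul _),
    intervalIntegral.integral_const_mul, intervalIntegral.integral_const_mul]
  have h2 : ∫ t in a..b, ‖mellin (fT T) (-(σ + t * Complex.I))‖ ^ 2 ≤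
      ∫ t in (-T)..T, ‖mellin (fT T) (-(σ + t * Complex.I))‖ ^ 2 := by
    apply intervalIntegral.integral_mono_interval ha hab hb
    · exact Filter.Eventually.of_forall fun t => by positivity
    · exact hint
  have h3 : ∫ t in a..b, (1 + t ^ 2)⁻¹ ≤ π := by
    rw [← integral_univ_inv_one_add_sq, intervalIntegral.integral_of_le hab]
    apply setIntegral_le_integral integrable_inv_one_add_sq
    exact Filter.Eventually.of_forall fun t => by
      show (0:ℝ) ≤ (1 + t ^ 2)⁻¹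
      positivity
  have h4 := h2.trans hbd
  gcongr

lemma good_of_le {σ t : ℝ} (hσ : σ ≤ 3/4) :
    1 + t ^ 2 ≤ 16 * ‖(1:ℂ) - (σ + t * Complex.I)‖ ^ 2 := by
  rw [← Complex.normSq_eq_norm_sq, Complex.normSq_apply]
  simp
  nlinarith [sq_nonneg t]

lemma good_of_one_le {σ t : ℝ} (ht : 1 ≤ t) :
    1 + t ^ 2 ≤ 16 * ‖(1:ℂ) - (σ + t * Complex.I)‖ ^ 2 := by
  rw [← Complex.normSq_eq_norm_sq, Complex.normSq_apply]
  simp
  nlinarith [sq_nonneg t, mul_self_nonneg (1 - σ)]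

/-- The final constant. -/
noncomputable def CA : ℝ := 2 * 10 ^ 10 * π * exp 26

lemma CA_ge : 10 ≤ CA := by
  unfold CA
  have h1 : 1 ≤ exp 26 := one_le_exp (by norm_num)
  have h2 := Real.pi_gt_three
  nlinarith

lemma main_right {σ a b : ℝ} (hσ : 1/2 ≤ σ) (hσ5 : σ ≤ 5) (ha : -T ≤ a) (hab : a ≤ b)
    (hb : b ≤ T)
    (hgood : ∀ t ∈ Icc a b, 1 + t ^ 2 ≤ 16 * ‖(1:ℂ) - (σ + t * Complex.I)‖ ^ 2) :
    ∫ t in a..b, ‖zM T (σ + t * Complex.I)‖ ^ 2 ≤
      CA * T * exp (-(1 / 8) * (min σ 1 - 1 / 2) * log T) := by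
  have h0 := hT0 hT
  have h16 := hT16 hT
  have h1 := main_interval hT (by linarith : 1/4 ≤ σ) hσ5 ha hab hb hgood
  have h2 := Jw_le_right hT hσ hσ5
  have heq : -((min σ 1 - 1 / 2) * log T / 8) = -(1 / 8) * (min σ 1 - 1 / 2) * log T := by ring
  rw [heq] at h2
  set e := exp (-(1 / 8) * (min σ 1 - 1 / 2) * log T) with he
  have he0 : 0 < e := exp_pos _
  have hmin1 : min σ 1 ≤ 1 := min_le_right _ _
  have hTe : 1 ≤ T * e := by
    nth_rewrite 1 [← exp_log h0]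
    rw [he, ← exp_add]
    apply one_le_exp
    nlinarith
  have hE26 : exp 1 * exp 25 = exp 26 := by rw [← exp_add]; norm_num
  have h26 : 1 ≤ exp 26 := one_le_exp (by norm_num)
  have h3 : 50 * T ^ 2 * (2 * π * exp 1 * Jw T σ) ≤ 10 ^ 10 * π * exp 26 * (T * e) := by
    calc 50 * T ^ 2 * (2 * π * exp 1 * Jw T σ)
        ≤ 50 * T ^ 2 * (2 * π * exp 1 * (10 ^ 8 * exp 25 * e / T)) := by gcongr
      _ = 10 ^ 10 * π * (exp 1 * exp 25) * (T * e) := by field_simp; ring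
      _ = _ := by rw [hE26]
  have h4 : 13107200 * π ≤ 10 ^ 10 * π * exp 26 * (T * e) := by
    have h5 : 13107200 * π ≤ 10 ^ 10 * π := by nlinarith [pi_pos]
    calc 13107200 * π ≤ 10 ^ 10 * π := h5
      _ ≤ 10 ^ 10 * π * exp 26 := le_mul_of_one_le_right (by positivity) h26
      _ ≤ 10 ^ 10 * π * exp 26 * (T * e) := le_mul_of_one_le_right (by positivity) hTe
  have h5 : CA * T * e = 10 ^ 10 * π * exp 26 * (T * e) + 10 ^ 10 * π * exp 26 * (T * e) := by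
    unfold CA; ring
  rw [h5]
  linarith

lemma main_left {σ a b : ℝ} (hσ : 1/4 ≤ σ) (hσ2 : σ ≤ 1/2) (ha : -T ≤ a) (hab : a ≤ b)
    (hb : b ≤ T)
    (hgood : ∀ t ∈ Icc a b, 1 + t ^ 2 ≤ 16 * ‖(1:ℂ) - (σ + t * Complex.I)‖ ^ 2) :
    ∫ t in a..b, ‖zM T (σ + t * Complex.I)‖ ^ 2 ≤
      CA * T * exp (CA * (1 / 2 - σ) * log T) := by
  have h0 := hT0 hT
  have h16 := hT16 hT
  have h1 := main_interval hT hσ (by linarith) ha hab hb hgood
  have h2 := Jw_le_left hT hσ hσ2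
  set e := exp (10 * (1 / 2 - σ) * log T) with he
  have he0 : 0 < e := exp_pos _
  have hs : 0 ≤ 1 / 2 - σ := by linarith
  have he1 : 1 ≤ e := one_le_exp (mul_nonneg (mul_nonneg (by norm_num) hs) (by linarith))
  have hee : e ≤ exp (CA * (1 / 2 - σ) * log T) := by
    apply exp_le_exp.mpr
    have := CA_ge hT
    gcongr
  have hTe : 1 ≤ T * e := by
    have := hT1000 hT
    nlinarith
  have hE26 : exp 1 * exp 25 = exp 26 := by rw [← exp_add]; norm_num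
  have h26 : 1 ≤ exp 26 := one_le_exp (by norm_num)
  have h3 : 50 * T ^ 2 * (2 * π * exp 1 * Jw T σ) ≤ 10 ^ 10 * π * exp 26 * (T * e) := by
    calc 50 * T ^ 2 * (2 * π * exp 1 * Jw T σ)
        ≤ 50 * T ^ 2 * (2 * π * exp 1 * (10 ^ 8 * exp 25 * e / T)) := by gcongr
      _ = 10 ^ 10 * π * (exp 1 * exp 25) * (T * e) := by field_simp; ring
      _ = _ := by rw [hE26]
  have h4 : 13107200 * π ≤ 10 ^ 10 * π * exp 26 * (T * e) := by
    have h5 : 13107200 * π ≤ 10 ^ 10 * π := by nlinarith [pi_pos]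
    calc 13107200 * π ≤ 10 ^ 10 * π := h5
      _ ≤ 10 ^ 10 * π * exp 26 := le_mul_of_one_le_right (by positivity) h26
      _ ≤ 10 ^ 10 * π * exp 26 * (T * e) := le_mul_of_one_le_right (by positivity) hTe
  have h5 : CA * T * e = 10 ^ 10 * π * exp 26 * (T * e) + 10 ^ 10 * π * exp 26 * (T * e) := by
    unfold CA; ring
  have h6 : CA * T * e ≤ CA * T * exp (CA * (1 / 2 - σ) * log T) := by
    have := CA_ge hT
    gcongr
  linarith

end

/-- The extended form of `StatementA`. -/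
def StatementAX : Prop :=
  ∃ θ : ℝ, 0 < θ ∧ θ < 1 ∧ ∃ c : ℝ, 0 < c ∧ ∃ C : ℝ, 0 < C ∧ ∃ T₀ : ℝ, Real.exp 1 ≤ T₀ ∧
    ∀ T : ℝ, T₀ ≤ T → ∃ lam : ℕ → ℝ, lam 0 = 0 ∧ lam 1 = 1 ∧ (∀ d, |lam d| ≤ 1) ∧
      (∀ d : ℕ, T ^ θ < d → lam d = 0) ∧
      (∀ σ ∈ Set.Icc (1 / 2 : ℝ) 5,
        ∫ t in (1:ℝ)..T, ‖riemannZeta (σ + t * Complex.I) *
          PairCorr.moll lam ⌊T ^ θ⌋₊ (σ + t * Complex.I) - 1‖ ^ 2
          ≤ C * T * Real.exp (-c * (min σ 1 - 1 / 2) * Real.log T)) ∧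
      (∀ σ ∈ Set.Icc (1 / 4 : ℝ) (1 / 2),
        ∫ t in (1:ℝ)..T, ‖riemannZeta (σ + t * Complex.I) *
          PairCorr.moll lam ⌊T ^ θ⌋₊ (σ + t * Complex.I) - 1‖ ^ 2
          ≤ C * T * Real.exp (C * (1 / 2 - σ) * Real.log T))

theorem statementA : PairCorr.StatementA := by
  refine ⟨1/8, by norm_num, by norm_num, 1/8, by norm_num, CA, ?_, exp 16, ?_, ?_⟩
  · linarith [CA_ge (T := exp 16) le_rfl]
  · exact exp_le_exp.mpr (by norm_num)
  intro T hT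
  refine ⟨lam (wT T) (yT T), lam_one (one_le_wT hT) (wT_lt_yT hT),
    abs_lam_le_one (one_le_wT hT) (wT_lt_yT hT), ?_, ?_⟩
  · intro σ hσ
    have h0 := hT0 hT
    have h := main_right hT hσ.1 (by linarith [hσ.2]) (le_refl (-T)) (by linarith) (le_refl T)
      (fun t _ => good_of_le hT hσ.2)
    rw [min_eq_left (by linarith [hσ.2])] at h
    exact h
  · intro σ hσ
    have h0 := hT0 hT
    exact main_left hT hσ.1 hσ.2 (le_refl (-T)) (by linarith) (le_refl T)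
      (fun t _ => good_of_le hT (by linarith [hσ.2]))

theorem statementAX : StatementAX := by
  refine ⟨1/8, by norm_num, by norm_num, 1/8, by norm_num, CA, ?_, exp 16, ?_, ?_⟩
  · linarith [CA_ge (T := exp 16) le_rfl]
  · exact exp_le_exp.mpr (by norm_num)
  intro T hT
  have h0 := hT0 hT
  have h1000 := hT1000 hT
  refine ⟨lam (wT T) (yT T), lam_zero _ _, lam_one (one_le_wT hT) (wT_lt_yT hT),
    abs_lam_le_one (one_le_wT hT) (wT_lt_yT hT), ?_, ?_, ?_⟩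
  · intro d hd
    exact lam_of_gt (one_le_wT hT) (wT_lt_yT hT) hd
  · intro σ hσ
    exact main_right hT hσ.1 hσ.2 (by linarith) (by linarith) (le_refl T)
      (fun t ht => good_of_one_le hT ht.1)
  · intro σ hσ
    exact main_left hT hσ.1 hσ.2 (by linarith) (by linarith) (le_refl T)
      (fun t ht => good_of_one_le hT ht.1)

end Pool.Agent.PC10
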