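import Mathlib
import Pool.Agent.PC10.AMain
import Pool.Agent.PairCorr.B_Final

/-!
# Adapter: `PairCorr.StatementAX` and `StatementB`
-/

namespace Pool.Agent.PC10

open MeasureTheory Set Real

section
variable {T : ℝ} (hT : exp 16 ≤ T)
include hT

/-- The mollifier. -/
noncomputable def MoT (T : ℝ) (s : ℂ) : ℂ := PairCorr.moll (lam (wT T) (yT T)) ⌊yT T⌋₊ s

omit hT in
lemma differentiable_MoT : Differentiable ℂ (MoT T) := by
  unfold MoT PairCorr.moll
  apply Differentiable.fun_sum
  intro d hd
  simp only [Finset.mem_Icc] at hd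
  have hd0 : (d:ℂ) ≠ 0 := by exact_mod_cast (by omega : d ≠ 0)
  intro s
  apply DifferentiableAt.const_mul
  exact (differentiableAt_id.neg).const_cpow (Or.inl hd0)

lemma lintegral_zM {σ B : ℝ}
    (h : ∫ t in (1:ℝ)..T, ‖zM T (σ + t * Complex.I)‖ ^ 2 ≤ B) :
    ∫⁻ t in Icc 1 T, ENNReal.ofReal (‖PairCorr.FF (MoT T) (σ + t * Complex.I) - 1‖ ^ 2) ≤
      ENNReal.ofReal B := by
  have h1000 := hT1000 hT
  have hcont := continuousOn_zM (T := T) (σ := σ) (a := 1) (b := T) (by
    intro t ht h
    have := congrArg Complex.im h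
    simp at this
    linarith [ht.1])
  have hint : IntegrableOn (fun t : ℝ => ‖zM T (σ + t * Complex.I)‖ ^ 2) (Icc 1 T) :=
    hcont.integrableOn_Icc
  have heq : ∀ t : ℝ, PairCorr.FF (MoT T) (σ + t * Complex.I) - 1 = zM T (σ + t * Complex.I) := by
    intro t; rfl
  simp_rw [heq]
  rw [← ofReal_integral_eq_lintegral_ofReal hint (Filter.Eventually.of_forall fun t => by
    show (0:ℝ) ≤ ‖zM T (σ + t * Complex.I)‖ ^ 2
    positivity)]
  apply ENNReal.ofReal_le_ofReal
  rw [integral_Icc_eq_integral_Ioc, ← intervalIntegral.integral_of_le (by linarith)]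
  exact h

end

theorem pairCorr_statementAX : PairCorr.StatementAX := by
  refine ⟨1/8, by norm_num, CA, ?_, exp 16, ?_⟩
  · linarith [CA_ge (T := exp 16) le_rfl]
  intro T hT
  have h0 := hT0 hT
  have h1000 := hT1000 hT
  refine ⟨MoT T, differentiable_MoT, ?_, ?_⟩
  · intro σ hσ
    apply lintegral_zM hT
    exact main_right hT hσ.1 hσ.2 (by linarith) (by linarith) (le_refl T)
      (fun t ht => good_of_one_le hT ht.1)
  · intro σ hσ
    apply lintegral_zM hT
    exact main_left hT hσ.1 hσ.2 (by linarith) (by linarith) (le_refl T)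
      (fun t ht => good_of_one_le hT ht.1)

/-- All moments of the weighted local zero count are bounded (unconditionally). -/
theorem statementB : PairCorr.StatementB := PairCorr.statementB_of pairCorr_statementAX

end Pool.Agent.PC10
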